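import Pool.Agent.H785R2.ABC.Defs

/-!
# The exceptional set in the abc conjecture: bridge from cells to exponents (task BR)

The bounds `M` and `E` for cells, written as sums of powers of `c`.
-/

namespace Pool.Agent.H785R2.ABC

open Finset

namespace Bridge

lemma num_pos {s : ℕ × ℕ × ℕ} (h : IsABCTriple s.1 s.2.1 s.2.2) (j : Fin 3) : 1 ≤ num s j := by
  obtain ⟨h1, h2, h3, -⟩ := h
  unfold num
  split_ifs <;> omega

lemma two_le_c {s : ℕ × ℕ × ℕ} (h : IsABCTriple s.1 s.2.1 s.2.2) : 2 ≤ s.2.2 := by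
  obtain ⟨h1, h2, h3, h4, -⟩ := h
  omega

lemma rpow_log_div {c x : ℝ} (hc : 1 < c) (hx : 0 < x) : c ^ (Real.log x / Real.log c) = x := by
  have hl : 0 < Real.log c := Real.log_pos hc
  rw [Real.rpow_def_of_pos (by linarith), mul_div_cancel₀ _ hl.ne', Real.exp_log hx]

lemma rd_eq (hF : Basics) (K : ℕ) {s : ℕ × ℕ × ℕ} (h : IsABCTriple s.1 s.2.1 s.2.2) (j : Fin 3)
    (S : Finset (Fin (K + 1))) :
    (rd K (num s j) S : ℝ) = (s.2.2 : ℝ) ^ cost (expV K s) j S := by
  have hc : (2 : ℝ) ≤ s.2.2 := by exact_mod_cast two_le_c h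
  rw [cost, Real.rpow_sum_of_pos (by linarith), hF.rd_prod K (num s j) S, Nat.cast_prod]
  refine Finset.prod_congr rfl fun i _ => ?_
  rw [expV, rpow_log_div (by linarith)]
  exact_mod_cast hF.rd_pos K (num s j) {i}

lemma part_eq (hF : Basics) (K : ℕ) {s : ℕ × ℕ × ℕ} (h : IsABCTriple s.1 s.2.1 s.2.2) (j : Fin 3)
    (S : Finset (Fin (K + 1))) :
    (part K (num s j) S : ℝ) = (s.2.2 : ℝ) ^ cost (expW K s) j S := by
  have hc : (2 : ℝ) ≤ s.2.2 := by exact_mod_cast two_le_c h
  rw [cost, Real.rpow_sum_of_pos (by linarith), hF.part_prod K (num s j) S, Nat.cast_prod]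
  refine Finset.prod_congr rfl fun i _ => ?_
  rw [expW, rpow_log_div (by linarith)]
  exact_mod_cast hF.part_pos K (num s j) {i}

lemma num_eq (hF : Basics) (K : ℕ) {s : ℕ × ℕ × ℕ} (h : IsABCTriple s.1 s.2.1 s.2.2) (j : Fin 3) :
    (num s j : ℝ) = (s.2.2 : ℝ) ^ cost (expW K s) j univ := by
  rw [← part_eq hF K h j univ, hF.part_univ K _ (num_pos h j)]

lemma th_eq (hF : Basics) (K : ℕ) {s : ℕ × ℕ × ℕ} (h : IsABCTriple s.1 s.2.1 s.2.2) (r : Fin 3) :
    th s r = (s.2.2 : ℝ) ^ (-thn (expW K s) r) := by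
  have hc : (2 : ℝ) ≤ s.2.2 := by exact_mod_cast two_le_c h
  unfold th thn
  split_ifs with hr
  · have := num_eq hF K h 0
    rw [show num s 0 = s.1 from rfl] at this
    rw [neg_sub, Real.rpow_sub (by linarith), Real.rpow_one, ← this]
  · simp

/-- the sum of the powers -/
noncomputable def psum (c : ℝ) (l : List ℝ) : ℝ := (l.map fun x => c ^ x).sum

lemma psum_nil (c : ℝ) : psum c [] = 0 := rfl

lemma psum_cons (c x : ℝ) (l : List ℝ) : psum c (x :: l) = c ^ x + psum c l := by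
  simp [psum]

lemma psum_append (c : ℝ) (l l' : List ℝ) : psum c (l ++ l') = psum c l + psum c l' := by
  simp [psum]

lemma psum_nonneg {c : ℝ} (hc : 0 ≤ c) (l : List ℝ) : 0 ≤ psum c l := by
  unfold psum
  refine List.sum_nonneg fun x hx => ?_
  obtain ⟨y, -, rfl⟩ := List.mem_map.1 hx
  exact Real.rpow_nonneg hc _

lemma psum_map_add {c : ℝ} (hc : 0 < c) (l : List ℝ) (y : ℝ) :
    psum c (l.map fun x => y + x) = c ^ y * psum c l := by
  induction l with
  | nil => simp [psum]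
  | cons x l ih => rw [List.map_cons, psum_cons, psum_cons, ih, Real.rpow_add hc]; ring

lemma half_add {x y : ℝ} (hx : 0 ≤ x) (hy : 0 ≤ y) :
    (x + y) ^ ((1 : ℝ) / 2) ≤ x ^ ((1 : ℝ) / 2) + y ^ ((1 : ℝ) / 2) :=
  Real.rpow_add_le_add_rpow hx hy (by norm_num) (by norm_num)

lemma half_psum {c : ℝ} (hc : 0 < c) (l : List ℝ) :
    (psum c l) ^ ((1 : ℝ) / 2) ≤ psum c (l.map fun x => x / 2) := by
  induction l with
  | nil =>
    rw [List.map_nil, psum_nil, Real.zero_rpow (by norm_num)]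
  | cons x l ih =>
    rw [List.map_cons, psum_cons, psum_cons]
    refine (half_add (Real.rpow_nonneg hc.le _) (psum_nonneg hc.le _)).trans ?_
    refine add_le_add (le_of_eq ?_) ih
    rw [← Real.rpow_mul hc.le]
    congr 1
    ring

lemma flatMap_sum {c : ℝ} (hc : 0 < c) (y : ℝ) (l m : List ℝ) :
    psum c (l.flatMap fun a => m.map fun b => y + (a + b) / 2) =
      c ^ y * (psum c (l.map fun x => x / 2) * psum c (m.map fun x => x / 2)) := by
  induction l with
  | nil => simp [psum]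
  | cons a l ih =>
    rw [List.flatMap_cons, psum_append, ih, List.map_cons, psum_cons, add_mul, mul_add]
    congr 1
    have h1 : (m.map fun b => y + (a + b) / 2) = (m.map fun x => x / 2).map fun x => (y + a / 2) + x := by
      rw [List.map_map]
      refine List.map_congr_left fun b _ => ?_
      simp only [Function.comp_apply]
      ring
    rw [h1, psum_map_add hc, Real.rpow_add hc]
    ring

lemma map_half {c : ℝ} (hc : 0 < c) (y q : ℝ) (l : List ℝ) :
    psum c (l.map fun a => y + (a + q) / 2) =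
      c ^ y * (psum c (l.map fun x => x / 2) * c ^ (q / 2)) := by
  induction l with
  | nil => simp [psum]
  | cons a l ih =>
    rw [List.map_cons, psum_cons, ih, List.map_cons, psum_cons, add_mul, mul_add]
    congr 1
    rw [show y + (a + q) / 2 = y + (a / 2 + q / 2) by ring, Real.rpow_add hc, Real.rpow_add hc]

/-- the square root of a product of sums -/
lemma core {c : ℝ} (hc : 0 < c) (y q : ℝ) (l m : List ℝ) {A B : ℝ} (hA : 0 ≤ A) (hB : 0 ≤ B)
    (hAl : A ≤ psum c l) (hBm : B ≤ psum c m) :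
    c ^ y * (c ^ q + (A * (c ^ q + B)) ^ ((1 : ℝ) / 2)) ≤
      psum c ((y + q) :: ((l.map fun a => y + (a + q) / 2) ++
        (l.flatMap fun a => m.map fun b => y + (a + b) / 2))) := by
  rw [psum_cons, psum_append, flatMap_sum hc, map_half hc, Real.rpow_add hc]
  have hq : 0 ≤ c ^ q := Real.rpow_nonneg hc.le _
  have hy : 0 ≤ c ^ y := Real.rpow_nonneg hc.le _
  have h1 : (A * (c ^ q + B)) ^ ((1 : ℝ) / 2) ≤
      psum c (l.map fun x => x / 2) * (c ^ (q / 2) + psum c (m.map fun x => x / 2)) := by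
    rw [Real.mul_rpow hA (by positivity)]
    refine mul_le_mul ?_ ?_ (Real.rpow_nonneg (by positivity) _) (psum_nonneg hc.le _)
    · exact (Real.rpow_le_rpow hA hAl (by norm_num)).trans (half_psum hc l)
    · refine (half_add hq hB).trans (add_le_add (le_of_eq ?_) ?_)
      · rw [← Real.rpow_mul hc.le]
        congr 1
        ring
      · exact (Real.rpow_le_rpow hB hBm (by norm_num)).trans (half_psum hc m)
  have h2 := mul_le_mul_of_nonneg_left h1 hy
  nlinarith [h2]

lemma cval_nonneg {K : ℕ} {s : ℕ × ℕ × ℕ} (r j : Fin 3) (F : Finset (Fin (K + 1))) (o : Opt K) :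
    0 ≤ o.cval s r j F := by
  have hth : 0 ≤ th s r := by
    unfold th
    split_ifs
    · positivity
    · norm_num
  have hD : (0 : ℝ) ≤ (if r = 0 then (s.1 : ℝ) else (num s j : ℝ)) := by
    split_ifs <;> positivity
  unfold Opt.cval
  cases o with
  | zero => simp only [Opt.val]; positivity
  | one k μ S => simp only [Opt.val]; positivity
  | two k₁ S₁ k₂ S₂ => simp only [Opt.val]; positivity

lemma cval_le (hF : Basics) (K : ℕ) {s : ℕ × ℕ × ℕ} (h : IsABCTriple s.1 s.2.1 s.2.2)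
    (r j : Fin 3) (F : Finset (Fin (K + 1))) (o : Opt K) :
    o.cval s r j F ≤ psum (s.2.2 : ℝ) (o.pieces (expV K s) (expW K s) r j F) := by
  have hc2 : (2 : ℝ) ≤ s.2.2 := by exact_mod_cast two_le_c h
  have hc : (0 : ℝ) < s.2.2 := by linarith
  have hD : (if r = 0 then (s.1 : ℝ) else (num s j : ℝ)) =
      (s.2.2 : ℝ) ^ cost (expW K s) (if r = 0 then 0 else j) univ := by
    rw [← num_eq hF K h]
    split_ifs <;> rfl
  have hx : ∀ (k : ℕ) (S : Finset (Fin (K + 1))),
      th s r * ((part K (num s j) S : ℝ) ^ 2) ^ ((1 : ℝ) / k) / (part K (num s r) F : ℝ) =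
        (s.2.2 : ℝ) ^ (2 * cost (expW K s) j S / k - cost (expW K s) r F - thn (expW K s) r) := by
    intro k S
    rw [part_eq hF K h, part_eq hF K h, th_eq hF K h, ← Real.rpow_natCast, ← Real.rpow_mul hc.le,
      ← Real.rpow_mul hc.le, ← Real.rpow_add hc, ← Real.rpow_sub hc]
    congr 1
    push_cast
    ring
  unfold Opt.cval
  cases o with
  | zero =>
    simp only [Opt.val, Opt.pieces, psum_cons, psum_nil, add_zero]
    rw [rd_eq hF K h, ← Real.rpow_natCast, ← Real.rpow_mul hc.le]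
    refine le_of_eq ?_
    congr 1
    push_cast
    ring
  | one k μ S =>
    simp only [Opt.val, Opt.pieces, psum_cons, psum_nil, add_zero]
    rw [hx k S, rd_eq hF K h, hD]
    have h1 : ((s.2.2 : ℝ) ^ cost (expV K s) j Sᶜ) ^ 2 *
        ((s.2.2 : ℝ) ^ cost (expW K s) (if r = 0 then 0 else j) univ /
          (part K (num s r) F : ℝ)) ^ ((1 : ℝ) / μ) =
        (s.2.2 : ℝ) ^ (2 * cost (expV K s) j Sᶜ +
          (cost (expW K s) (if r = 0 then 0 else j) univ - cost (expW K s) r F) / μ) := by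
      rw [part_eq hF K h, ← Real.rpow_sub hc, ← Real.rpow_mul hc.le, ← Real.rpow_natCast,
        ← Real.rpow_mul hc.le, ← Real.rpow_add hc]
      congr 1
      push_cast
      ring
    rw [h1, mul_add, mul_one, ← Real.rpow_add hc]
  | two k₁ S₁ k₂ S₂ =>
    simp only [Opt.val, Opt.pieces, psum_cons, psum_nil, add_zero]
    rw [hx k₁ S₁, hx k₂ S₂, rd_eq hF K h, rd_eq hF K h, ← Real.rpow_add hc]
    set x := 2 * cost (expW K s) j S₁ / k₁ - cost (expW K s) r F - thn (expW K s) r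
    set y := 2 * cost (expW K s) j S₂ / k₂ - cost (expW K s) r F - thn (expW K s) r
    set q := cost (expV K s) j S₁ᶜ + cost (expV K s) j S₂ᶜ
    have hX : 0 ≤ (s.2.2 : ℝ) ^ x := Real.rpow_nonneg hc.le _
    have hY : 0 ≤ (s.2.2 : ℝ) ^ y := Real.rpow_nonneg hc.le _
    have h1 : ((1 + (s.2.2 : ℝ) ^ x) * (1 + (s.2.2 : ℝ) ^ y)) ^ ((1 : ℝ) / 2) ≤
        (1 + (s.2.2 : ℝ) ^ (x / 2)) * (1 + (s.2.2 : ℝ) ^ (y / 2)) := by
      rw [Real.mul_rpow (by positivity) (by positivity)]
      have e : ∀ z : ℝ, (1 + (s.2.2 : ℝ) ^ z) ^ ((1 : ℝ) / 2) ≤ 1 + (s.2.2 : ℝ) ^ (z / 2) := by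
        intro z
        refine (half_add zero_le_one (Real.rpow_nonneg hc.le z)).trans ?_
        rw [Real.one_rpow, ← Real.rpow_mul hc.le]
        refine le_of_eq ?_
        congr 2
        ring
      exact mul_le_mul (e x) (e y) (Real.rpow_nonneg (by positivity) _) (by positivity)
    refine (mul_le_mul_of_nonneg_left h1 (Real.rpow_nonneg hc.le q)).trans (le_of_eq ?_)
    rw [show q + x / 2 + y / 2 = q + (x / 2 + y / 2) by ring, Real.rpow_add hc q,
      Real.rpow_add hc q, Real.rpow_add hc q, Real.rpow_add hc (x / 2)]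
    ring

end Bridge

open Bridge in
theorem stmtBridge_of (hF : Basics) (hM : StmtMcell) (hE : StmtEcell) : StmtBridge := by
  intro K ε hε
  obtain ⟨D₁, hD₁, H₁⟩ := hM K ε hε
  obtain ⟨D₂, hD₂, H₂⟩ := hE K ε hε
  refine ⟨max D₁ D₂, lt_max_of_lt_left hD₁, ?_⟩
  intro T hT s hs b hb
  have h := hT.abc s hs
  have hc2 : (2 : ℝ) ≤ s.2.2 := by exact_mod_cast two_le_c h
  have hc : (0 : ℝ) < s.2.2 := by linarith
  have hcε : 0 < (s.2.2 : ℝ) ^ ε := Real.rpow_pos_of_pos hc _
  change (T.card : ℝ) ≤ max D₁ D₂ * (s.2.2 : ℝ) ^ ε * psum (s.2.2 : ℝ) (b.pieces (expV K s) (expW K s))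
  cases b with
  | M p q r k Sp Sq F =>
    obtain ⟨h1, h2, h3, h4, h5, h6, h7⟩ := hb
    refine (H₁ T hT s hs p q r h1 h2 h3 k h4 h5 Sp Sq F h6 h7).trans ?_
    have e : ((rd K (num s p) Spᶜ : ℝ) * rd K (num s q) Sqᶜ * rd K (num s r) F) *
      (1 + th s r * ((part K (num s p) Sp : ℝ) * part K (num s q) Sq) ^ ((1 : ℝ) / k) /
        part K (num s r) F) =
        psum (s.2.2 : ℝ) ((Bnd.M p q r k Sp Sq F).pieces (expV K s) (expW K s)) := by
      simp only [Bnd.pieces, psum_cons, psum_nil, add_zero]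
      rw [rd_eq hF K h, rd_eq hF K h, rd_eq hF K h, part_eq hF K h, part_eq hF K h,
        part_eq hF K h, th_eq hF K h, ← Real.rpow_add hc, ← Real.rpow_add hc, ← Real.rpow_add hc,
        ← Real.rpow_mul hc.le, ← Real.rpow_add hc, ← Real.rpow_sub hc, mul_add, mul_one,
        ← Real.rpow_add hc]
      congr 2
      ring
    rw [mul_assoc (D₁ * (s.2.2 : ℝ) ^ ε), e]
    exact mul_le_mul_of_nonneg_right
      (mul_le_mul_of_nonneg_right (le_max_left _ _) hcε.le) (psum_nonneg hc.le _)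
  | E p q r F op oq =>
    obtain ⟨h1, h2, h3, h4, h5⟩ := hb
    refine (H₂ T hT s hs p q r h1 h2 h3 F op oq h4 h5).trans ?_
    have e := core hc (cost (expV K s) r F) (cost (expV K s) q univ)
      (op.pieces (expV K s) (expW K s) r p F) (oq.pieces (expV K s) (expW K s) r q F)
      (cval_nonneg r p F op) (cval_nonneg r q F oq) (cval_le hF K h r p F op)
      (cval_le hF K h r q F oq)
    rw [← rd_eq hF K h, ← rd_eq hF K h] at e
    have e2 : D₂ * (s.2.2 : ℝ) ^ ε ≤ max D₁ D₂ * (s.2.2 : ℝ) ^ ε :=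
      mul_le_mul_of_nonneg_right (le_max_right _ _) hcε.le
    rw [mul_assoc (D₂ * (s.2.2 : ℝ) ^ ε)]
    refine mul_le_mul e2 e ?_ (by positivity)
    have := cval_nonneg (s := s) r p F op
    have := cval_nonneg (s := s) r q F oq
    positivity

end Pool.Agent.H785R2.ABC
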