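import Mathlib

/-!
# The exceptional set in the abc conjecture: definitions and statements of the modules

TEAM ABC (leader helper785).  Main theorem: for every `ε > 0`, the number of abc-triples with
`c ≤ X` and `rad (abc) ≤ c` is `O(X ^ (5/9 + ε))`.
-/

namespace Pool.Agent.H785R2.ABC

open Finset

/-- The radical of `n`. -/
def rad (n : ℕ) : ℕ := ∏ p ∈ n.primeFactors, p

/-- `(a, b, c)` is an abc-triple: positive, pairwise coprime, `a + b = c`. -/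
def IsABCTriple (a b c : ℕ) : Prop :=
  0 < a ∧ 0 < b ∧ 0 < c ∧ a + b = c ∧ Nat.Coprime a b ∧ Nat.Coprime a c ∧ Nat.Coprime b c

/-- Class of an exponent `e ≥ 1`: class `i < K` is exponent `i + 1`, class `K` is `e ≥ K + 1`. -/
def cls (K e : ℕ) : Fin (K + 1) := ⟨min (e - 1) K, by omega⟩

/-- primes dividing `n` whose exponent has class in `S` -/
def pf (K n : ℕ) (S : Finset (Fin (K + 1))) : Finset ℕ :=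
  n.primeFactors.filter fun p => cls K (n.factorization p) ∈ S

/-- product of the primes dividing `n` whose exponent has class in `S` -/
def rd (K n : ℕ) (S : Finset (Fin (K + 1))) : ℕ := ∏ p ∈ pf K n S, p

/-- part of `n` made of the primes whose exponent has class in `S` -/
def part (K n : ℕ) (S : Finset (Fin (K + 1))) : ℕ := ∏ p ∈ pf K n S, p ^ n.factorization p

/-- all exponents in `S` are divisible by `k` (so `part K n S` is a `k`-th power) -/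
def Good (K k : ℕ) (S : Finset (Fin (K + 1))) : Prop :=
  ∀ i ∈ S, k = 1 ∨ ((i : ℕ) < K ∧ k ∣ (i : ℕ) + 1)

/-! ### Module F: basic facts -/

structure Basics : Prop where
  part_dvd : ∀ K n S, 1 ≤ n → part K n S ∣ n
  part_pos : ∀ K n S, 1 ≤ part K n S
  rd_pos : ∀ K n S, 1 ≤ rd K n S
  part_mul : ∀ K n S, 1 ≤ n → part K n S * part K n Sᶜ = n
  rd_mul : ∀ K n S, rd K n S * rd K n Sᶜ = rad n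
  part_univ : ∀ K n, 1 ≤ n → part K n univ = n
  rd_univ : ∀ K n, rd K n univ = rad n
  rad_part : ∀ K n S, 1 ≤ n → rad (part K n S) = rd K n S
  rd_prod : ∀ K n S, rd K n S = ∏ i ∈ S, rd K n {i}
  part_prod : ∀ K n S, part K n S = ∏ i ∈ S, part K n {i}
  part_coprime : ∀ K n S, Nat.Coprime (part K n S) (part K n Sᶜ)
  part_single : ∀ (K n : ℕ) (i : Fin (K + 1)), (i : ℕ) < K → part K n {i} = rd K n {i} ^ ((i : ℕ) + 1)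
  part_last : ∀ K n : ℕ, rd K n {Fin.last K} ^ (K + 1) ≤ part K n {Fin.last K}
  power : ∀ K k n S, 1 ≤ n → 1 ≤ k → Good K k S →
    ∃ x : ℕ, x ^ k = part K n S ∧ x.primeFactors = pf K n S ∧ 1 ≤ x
  gcd_pow : ∀ (K μ n m : ℕ) (S : Finset (Fin (K + 1))), 1 ≤ n → 1 ≤ m →
    (∀ i ∈ S, μ ≤ (i : ℕ) + 1) → Nat.gcd (rd K n S) (rd K m S) ^ μ ∣ Nat.gcd n m
  rd_dvd : ∀ (K n : ℕ) (S S' : Finset (Fin (K + 1))), S ⊆ S' → rd K n S ∣ rd K n S'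

/-! ### Module A: counting integers by radical -/

/-- A1 -/
def StmtA1 : Prop :=
  ∀ C : ℝ, 1 ≤ C → ∀ ε : ℝ, 0 < ε → ∃ D : ℝ, 0 < D ∧
    ∀ n : ℕ, 1 ≤ n → C ^ n.primeFactors.card ≤ D * (n : ℝ) ^ ε

/-- A2 -/
def StmtA2 : Prop :=
  ∀ ε : ℝ, 0 < ε → ∃ D : ℝ, 0 < D ∧ ∀ X : ℕ, 1 ≤ X → ∀ g : ℕ,
    (((Icc 1 X).filter fun d => rad d = g).card : ℝ) ≤ D * (X : ℝ) ^ ε

/-- A3 -/
def StmtA3 : Prop :=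
  ∀ ε : ℝ, 0 < ε → ∃ D : ℝ, 0 < D ∧ ∀ X : ℕ, 1 ≤ X → ∀ g : ℕ, 1 ≤ g →
    ∑ d ∈ (Icc 1 X).filter (fun d => g ∣ rad d), (1 : ℝ) / (rad d : ℝ) ≤ D * (X : ℝ) ^ ε / g

/-- A4 -/
def StmtA4 : Prop :=
  ∀ ε : ℝ, 0 < ε → ∃ D : ℝ, 0 < D ∧ ∀ X : ℕ, 1 ≤ X → ∀ R : ℝ, 0 ≤ R →
    (((Icc 1 X).filter fun d => (rad d : ℝ) ≤ R).card : ℝ) ≤ D * (X : ℝ) ^ ε * R

/-- A5 -/
def StmtA5 : Prop :=
  ∀ ε : ℝ, 0 < ε → ∃ D : ℝ, 0 < D ∧ ∀ X : ℕ, 1 ≤ X → ∀ R : ℝ, 0 ≤ R →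
    ∑ d ∈ (Icc 1 X).filter (fun d => (rad d : ℝ) ≤ R),
      ∑ d' ∈ (Icc 1 X).filter (fun d => (rad d : ℝ) ≤ R), (Nat.gcd (rad d) (rad d') : ℝ) ≤
        D * (X : ℝ) ^ ε * R ^ 2

/-! ### Module B: roots modulo q -/

def StmtB : Prop :=
  ∀ M : ℕ, ∀ ε : ℝ, 0 < ε → ∃ D : ℝ, 0 < D ∧ ∀ k : ℕ, 1 ≤ k → k ≤ M → ∀ q : ℕ, 1 ≤ q →
    ∀ u : (ZMod q)ˣ, ({x : (ZMod q)ˣ | x ^ k = u}.ncard : ℝ) ≤ D * (q : ℝ) ^ ε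

/-! ### Module C: spacing -/

def StmtC : Prop :=
  ∀ q : ℕ, 1 ≤ q → ∀ (ρ : ZMod q) (T : Finset (ℕ × ℕ)) (Y ξ δ : ℝ), 0 ≤ Y → 0 < ξ → 0 ≤ δ →
    (∀ t ∈ T, 0 < t.1 ∧ 0 < t.2 ∧ Nat.Coprime t.1 t.2 ∧ (t.1 : ZMod q) = ρ * (t.2 : ZMod q) ∧
      (t.2 : ℝ) ≤ Y ∧ ξ * t.2 ≤ t.1 ∧ (t.1 : ℝ) ≤ ξ * (1 + δ) * t.2) →
    (T.card : ℝ) ≤ 1 + ξ * δ * Y ^ 2 / q

/-! ### Module D: coprime solutions of `x ^ k = c * y ^ k` modulo `f` -/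

def StmtD : Prop :=
  ∀ M : ℕ, ∀ ε : ℝ, 0 < ε → ∃ D : ℝ, 0 < D ∧ ∀ k : ℕ, 1 ≤ k → k ≤ M → ∀ f : ℕ, 1 ≤ f →
    ∀ c : ZMod f, IsUnit c → ∀ Y ξ δ : ℝ, 0 ≤ Y → 0 < ξ → 0 ≤ δ → ∀ T : Finset (ℕ × ℕ),
    (∀ t ∈ T, 0 < t.1 ∧ 0 < t.2 ∧ Nat.Coprime t.1 t.2 ∧ Nat.Coprime t.1 f ∧ Nat.Coprime t.2 f ∧
      (t.1 : ZMod f) ^ k = c * (t.2 : ZMod f) ^ k ∧
      (t.2 : ℝ) ≤ Y ∧ ξ * t.2 ≤ t.1 ∧ (t.1 : ℝ) ≤ ξ * (1 + δ) * t.2) →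
    (T.card : ℝ) ≤ D * (f : ℝ) ^ ε * (1 + ξ * δ * Y ^ 2 / f)

/-! ### Module M1 -/

def StmtM1 : Prop :=
  ∀ K : ℕ, ∀ ε : ℝ, 0 < ε → ∀ κ : ℝ, 1 ≤ κ → ∃ D : ℝ, 0 < D ∧ ∀ k : ℕ, 1 ≤ k → k ≤ K + 1 →
    ∀ X f : ℕ, 1 ≤ X → 1 ≤ f → f ≤ X → ∀ σ : ZMod f, IsUnit σ →
    ∀ S S' : Finset (Fin (K + 1)), Good K k S → Good K k S' →
    ∀ A A' R R' ρ δ : ℝ, 0 < A → 0 < A' → 0 ≤ R → 0 ≤ R' → 0 < ρ → 0 ≤ δ → ∀ P : Finset (ℕ × ℕ),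
    (∀ t ∈ P, 1 ≤ t.1 ∧ t.1 ≤ X ∧ 1 ≤ t.2 ∧ t.2 ≤ X ∧
      Nat.Coprime t.1 t.2 ∧ Nat.Coprime t.1 f ∧ Nat.Coprime t.2 f ∧
      (t.1 : ZMod f) = σ * (t.2 : ZMod f) ∧
      (part K t.1 S : ℝ) ≤ A ∧ (part K t.2 S' : ℝ) ≤ A' ∧ A' ≤ κ * part K t.2 S' ∧
      (rd K t.1 Sᶜ : ℝ) ≤ R ∧ (rd K t.2 S'ᶜ : ℝ) ≤ R' ∧
      ρ * t.2 ≤ t.1 ∧ (t.1 : ℝ) ≤ ρ * (1 + δ) * t.2) →
    (P.card : ℝ) ≤ D * (X : ℝ) ^ ε * (R * R') * (1 + δ * (A * A') ^ ((1 : ℝ) / k) / f)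

/-! ### Module W1 -/

def StmtW1 : Prop :=
  ∀ K : ℕ, ∀ ε : ℝ, 0 < ε → ∀ κ : ℝ, 1 ≤ κ → ∃ D : ℝ, 0 < D ∧ ∀ k : ℕ, 1 ≤ k → k ≤ K + 1 →
    ∀ X f : ℕ, 1 ≤ X → 1 ≤ f → f ≤ X → ∀ S : Finset (Fin (K + 1)), Good K k S →
    ∀ A R ρ δ : ℝ, 0 < A → 0 ≤ R → 0 < ρ → 0 ≤ δ → ∀ Q : Finset (ℕ × ℕ),
    (∀ t ∈ Q, 1 ≤ t.1 ∧ t.1 ≤ X ∧ 1 ≤ t.2 ∧ t.2 ≤ X ∧
      Nat.Coprime t.1 f ∧ Nat.Coprime t.2 f ∧ (t.1 : ZMod f) = (t.2 : ZMod f) ∧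
      (part K t.1 S : ℝ) ≤ A ∧ (part K t.2 S : ℝ) ≤ A ∧ A ≤ κ * part K t.2 S ∧
      (rd K t.1 Sᶜ : ℝ) ≤ R ∧ (rd K t.2 Sᶜ : ℝ) ≤ R ∧
      ρ * t.2 ≤ t.1 ∧ (t.1 : ℝ) ≤ ρ * (1 + δ) * t.2) →
    ∑ t ∈ Q, (Nat.gcd (rd K t.1 Sᶜ) (rd K t.2 Sᶜ) : ℝ) / (Nat.gcd (rd K t.1 S) (rd K t.2 S) : ℝ) ≤
      D * (X : ℝ) ^ ε * R ^ 2 * (1 + δ * (A ^ 2) ^ ((1 : ℝ) / k) / f)

/-! ### Options and off-diagonal counts -/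

/-- the three ways to bound the number of off-diagonal pairs -/
inductive Opt (K : ℕ)
  | zero
  | one (k μ : ℕ) (S : Finset (Fin (K + 1)))
  | two (k₁ : ℕ) (S₁ : Finset (Fin (K + 1))) (k₂ : ℕ) (S₂ : Finset (Fin (K + 1)))

def Opt.Valid {K : ℕ} : Opt K → Prop
  | .zero => True
  | .one k μ S => 1 ≤ k ∧ k ≤ K + 1 ∧ Good K k S ∧ 1 ≤ μ ∧ ∀ i ∈ S, μ ≤ (i : ℕ) + 1
  | .two k₁ S₁ k₂ S₂ => 1 ≤ k₁ ∧ k₁ ≤ K + 1 ∧ Good K k₁ S₁ ∧ 1 ≤ k₂ ∧ k₂ ≤ K + 1 ∧ Good K k₂ S₂ ∧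
      Disjoint S₁ S₂

/-- value of an option; `R`, `W` bound `rd`, `part`, the pairs are at distance `≤ Δ`, with ratio
in `[1/(1+δ), 1+δ]`, congruent modulo (about) `f` -/
noncomputable def Opt.val {K : ℕ} (R W : Finset (Fin (K + 1)) → ℝ) (Δ δ f : ℝ) : Opt K → ℝ
  | .zero => R univ ^ 2
  | .one k μ S => R Sᶜ ^ 2 * (Δ / f) ^ ((1 : ℝ) / μ) * (1 + δ * (W S ^ 2) ^ ((1 : ℝ) / k) / f)
  | .two k₁ S₁ k₂ S₂ => R S₁ᶜ * R S₂ᶜ *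
      ((1 + δ * (W S₁ ^ 2) ^ ((1 : ℝ) / k₁) / f) * (1 + δ * (W S₂ ^ 2) ^ ((1 : ℝ) / k₂) / f)) ^
        ((1 : ℝ) / 2)

def StmtO : Prop :=
  ∀ K : ℕ, ∀ ε : ℝ, 0 < ε → ∀ κ : ℝ, 1 ≤ κ → ∃ D : ℝ, 0 < D ∧ ∀ o : Opt K, o.Valid →
    ∀ X f : ℕ, 1 ≤ X → 1 ≤ f → f ≤ X → ∀ (R W : Finset (Fin (K + 1)) → ℝ) (Δ δ : ℝ),
    (∀ S, 0 ≤ R S) → 0 ≤ Δ → 0 ≤ δ → δ ≤ κ → ∀ Q : Finset (ℕ × ℕ),
    (∀ t ∈ Q, t.1 ≠ t.2 ∧ 1 ≤ t.1 ∧ t.1 ≤ X ∧ 1 ≤ t.2 ∧ t.2 ≤ X ∧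
      Nat.Coprime t.1 f ∧ Nat.Coprime t.2 f ∧ (t.1 : ZMod f) = (t.2 : ZMod f) ∧
      |(t.1 : ℝ) - t.2| ≤ Δ ∧ (t.1 : ℝ) ≤ (1 + δ) * t.2 ∧ (t.2 : ℝ) ≤ (1 + δ) * t.1 ∧
      ∀ S, (rd K t.1 S : ℝ) ≤ R S ∧ (rd K t.2 S : ℝ) ≤ R S ∧
        (part K t.1 S : ℝ) ≤ W S ∧ (part K t.2 S : ℝ) ≤ W S ∧ W S ≤ κ * part K t.2 S) →
    (Q.card : ℝ) ≤ D * (X : ℝ) ^ ε * o.val R W Δ δ f

/-! ### Combinatorial Cauchy-Schwarz -/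

def StmtCS : Prop :=
  ∀ (P Q : Finset ℕ) (κP κQ : ℕ → ℤ × ℤ),
    (((P ×ˢ Q).filter fun t => κP t.1 = κQ t.2).card : ℝ) ≤ Q.card +
      (2 * (((P ×ˢ P).filter fun t => t.1 ≠ t.2 ∧ κP t.1 = κP t.2).card : ℝ) *
        (Q.card + ((Q ×ˢ Q).filter fun t => t.1 ≠ t.2 ∧ κQ t.1 = κQ t.2).card)) ^ ((1 : ℝ) / 2)

/-! ### Cells -/

/-- the three members of a triple -/
def num (s : ℕ × ℕ × ℕ) (j : Fin 3) : ℕ :=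
  if j = 0 then s.1 else if j = 1 then s.2.1 else s.2.2

/-- a cell: triples all of whose parts have comparable sizes -/
structure Cell (K : ℕ) (T : Finset (ℕ × ℕ × ℕ)) : Prop where
  abc : ∀ s ∈ T, IsABCTriple s.1 s.2.1 s.2.2
  le : ∀ s ∈ T, s.1 ≤ s.2.1
  rd_le : ∀ s ∈ T, ∀ s' ∈ T, ∀ j S, rd K (num s j) S ≤ 2 ^ (K + 1) * rd K (num s' j) S
  part_le : ∀ s ∈ T, ∀ s' ∈ T, ∀ j S, part K (num s j) S ≤ 2 ^ (K + 1) * part K (num s' j) S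

/-- thinness: for `r = 0` (the modulus divides `a`) `c / b` lies in an interval of length `a / c` -/
noncomputable def th (s : ℕ × ℕ × ℕ) (r : Fin 3) : ℝ := if r = 0 then (s.1 : ℝ) / s.2.2 else 1

def StmtMcell : Prop :=
  ∀ K : ℕ, ∀ ε : ℝ, 0 < ε → ∃ D : ℝ, 0 < D ∧ ∀ T : Finset (ℕ × ℕ × ℕ), Cell K T → ∀ s ∈ T,
    ∀ p q r : Fin 3, p ≠ q → q ≠ r → p ≠ r → ∀ k : ℕ, 1 ≤ k → k ≤ K + 1 →
    ∀ Sp Sq F : Finset (Fin (K + 1)), Good K k Sp → Good K k Sq →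
    (T.card : ℝ) ≤ D * (s.2.2 : ℝ) ^ ε *
      ((rd K (num s p) Spᶜ : ℝ) * rd K (num s q) Sqᶜ * rd K (num s r) F) *
      (1 + th s r * ((part K (num s p) Sp : ℝ) * part K (num s q) Sq) ^ ((1 : ℝ) / k) /
        part K (num s r) F)

/-- value of an option for a cell with representative `s` -/
noncomputable def Opt.cval {K : ℕ} (s : ℕ × ℕ × ℕ) (r j : Fin 3) (F : Finset (Fin (K + 1)))
    (o : Opt K) : ℝ :=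
  o.val (fun S => (rd K (num s j) S : ℝ)) (fun S => (part K (num s j) S : ℝ))
    (if r = 0 then (s.1 : ℝ) else (num s j : ℝ)) (th s r) (part K (num s r) F : ℝ)

def StmtEcell : Prop :=
  ∀ K : ℕ, ∀ ε : ℝ, 0 < ε → ∃ D : ℝ, 0 < D ∧ ∀ T : Finset (ℕ × ℕ × ℕ), Cell K T → ∀ s ∈ T,
    ∀ p q r : Fin 3, p ≠ q → q ≠ r → p ≠ r → ∀ F : Finset (Fin (K + 1)),
    ∀ op oq : Opt K, op.Valid → oq.Valid →
    (T.card : ℝ) ≤ D * (s.2.2 : ℝ) ^ ε * (rd K (num s r) F : ℝ) *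
      ((rd K (num s q) univ : ℝ) +
        (op.cval s r p F * ((rd K (num s q) univ : ℝ) + oq.cval s r q F)) ^ ((1 : ℝ) / 2))

/-! ### Exponents, bounds, certificate -/

/-- `Σ_{i ∈ S} v j i` -/
def cost {K : ℕ} (v : Fin 3 → Fin (K + 1) → ℝ) (j : Fin 3) (S : Finset (Fin (K + 1))) : ℝ :=
  ∑ i ∈ S, v j i

/-- `1 - u` for `r = 0`, where `a = c ^ u` -/
noncomputable def thn {K : ℕ} (w : Fin 3 → Fin (K + 1) → ℝ) (r : Fin 3) : ℝ :=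
  if r = 0 then 1 - cost w 0 univ else 0

/-- exponents of the summands of an option -/
noncomputable def Opt.pieces {K : ℕ} (v w : Fin 3 → Fin (K + 1) → ℝ) (r j : Fin 3)
    (F : Finset (Fin (K + 1))) : Opt K → List ℝ
  | .zero => [2 * cost v j univ]
  | .one k μ S =>
      [2 * cost v j Sᶜ + (cost w (if r = 0 then 0 else j) univ - cost w r F) / μ,
       2 * cost v j Sᶜ + (cost w (if r = 0 then 0 else j) univ - cost w r F) / μ +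
         (2 * cost w j S / k - cost w r F - thn w r)]
  | .two k₁ S₁ k₂ S₂ =>
      [cost v j S₁ᶜ + cost v j S₂ᶜ,
       cost v j S₁ᶜ + cost v j S₂ᶜ + (2 * cost w j S₁ / k₁ - cost w r F - thn w r) / 2,
       cost v j S₁ᶜ + cost v j S₂ᶜ + (2 * cost w j S₂ / k₂ - cost w r F - thn w r) / 2,
       cost v j S₁ᶜ + cost v j S₂ᶜ + (2 * cost w j S₁ / k₁ - cost w r F - thn w r) / 2 +
         (2 * cost w j S₂ / k₂ - cost w r F - thn w r) / 2]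

/-- the bounds used in the certificate -/
inductive Bnd (K : ℕ)
  | M (p q r : Fin 3) (k : ℕ) (Sp Sq F : Finset (Fin (K + 1)))
  | E (p q r : Fin 3) (F : Finset (Fin (K + 1))) (op oq : Opt K)

def Bnd.Valid {K : ℕ} : Bnd K → Prop
  | .M p q r k Sp Sq _ => p ≠ q ∧ q ≠ r ∧ p ≠ r ∧ 1 ≤ k ∧ k ≤ K + 1 ∧ Good K k Sp ∧ Good K k Sq
  | .E p q r _ op oq => p ≠ q ∧ q ≠ r ∧ p ≠ r ∧ op.Valid ∧ oq.Valid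

/-- exponents of the summands of a bound -/
noncomputable def Bnd.pieces {K : ℕ} (v w : Fin 3 → Fin (K + 1) → ℝ) : Bnd K → List ℝ
  | .M p q r k Sp Sq F =>
      [cost v p Spᶜ + cost v q Sqᶜ + cost v r F,
       cost v p Spᶜ + cost v q Sqᶜ + cost v r F +
         ((cost w p Sp + cost w q Sq) / k - cost w r F - thn w r)]
  | .E p q r F op oq =>
      (cost v r F + cost v q univ) ::
        ((op.pieces v w r p F).map (fun a => cost v r F + (a + cost v q univ) / 2) ++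
          (op.pieces v w r p F).flatMap fun a =>
            (oq.pieces v w r q F).map fun b => cost v r F + (a + b) / 2)

/-- exponent of `rd` of a triple -/
noncomputable def expV (K : ℕ) (s : ℕ × ℕ × ℕ) (j : Fin 3) (i : Fin (K + 1)) : ℝ :=
  Real.log (rd K (num s j) {i}) / Real.log s.2.2

/-- exponent of `part` of a triple -/
noncomputable def expW (K : ℕ) (s : ℕ × ℕ × ℕ) (j : Fin 3) (i : Fin (K + 1)) : ℝ :=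
  Real.log (part K (num s j) {i}) / Real.log s.2.2

def StmtBridge : Prop :=
  ∀ K : ℕ, ∀ ε : ℝ, 0 < ε → ∃ D : ℝ, 0 < D ∧ ∀ T : Finset (ℕ × ℕ × ℕ), Cell K T → ∀ s ∈ T,
    ∀ b : Bnd K, b.Valid → (T.card : ℝ) ≤ D * (s.2.2 : ℝ) ^ ε *
      ((b.pieces (expV K s) (expW K s)).map fun x => (s.2.2 : ℝ) ^ x).sum

/-- the polytope of exponents -/
structure Poly (K : ℕ) (lam δ : ℝ) (v w : Fin 3 → Fin (K + 1) → ℝ) : Prop where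
  v_nonneg : ∀ j i, 0 ≤ v j i
  w_eq : ∀ (j : Fin 3) (i : Fin (K + 1)), (i : ℕ) < K → w j i = (((i : ℕ) : ℝ) + 1) * v j i
  w_last : ∀ j : Fin 3, ((K : ℝ) + 1) * v j (Fin.last K) ≤ w j (Fin.last K)
  w0 : cost w 0 univ ≤ 1
  w1 : cost w 1 univ ≤ 1
  w1' : 1 - δ ≤ cost w 1 univ
  w2 : cost w 2 univ ≤ 1
  w2' : 1 - δ ≤ cost w 2 univ
  tot : cost v 0 univ + cost v 1 univ + cost v 2 univ ≤ lam

def StmtPoly : Prop :=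
  ∀ (K : ℕ) (lam : ℝ) (s : ℕ × ℕ × ℕ), IsABCTriple s.1 s.2.1 s.2.2 → s.1 ≤ s.2.1 →
    (rad (s.1 * s.2.1 * s.2.2) : ℝ) ≤ (s.2.2 : ℝ) ^ lam →
    Poly K lam (Real.log 2 / Real.log s.2.2) (expV K s) (expW K s)

/-- the certificate -/
def StmtCert (K : ℕ) (lam θ : ℝ) : Prop :=
  ∃ C : ℝ, 0 ≤ C ∧ ∀ (δ : ℝ) (v w : Fin 3 → Fin (K + 1) → ℝ), 0 ≤ δ → Poly K lam δ v w →
    ∃ b : Bnd K, b.Valid ∧ ∀ x ∈ b.pieces v w, x ≤ θ + C * δ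

/-- final assembly -/
def StmtFinal : Prop :=
  ∀ (K : ℕ) (lam θ : ℝ), 0 ≤ θ → StmtCert K lam θ → ∀ ε : ℝ, 0 < ε → ∃ C : ℝ, ∀ X : ℕ, 1 ≤ X →
    ({t : ℕ × ℕ × ℕ | IsABCTriple t.1 t.2.1 t.2.2 ∧ t.2.2 ≤ X ∧
      (rad (t.1 * t.2.1 * t.2.2) : ℝ) ≤ (t.2.2 : ℝ) ^ lam}.ncard : ℝ) ≤ C * (X : ℝ) ^ (θ + ε)

end Pool.Agent.H785R2.ABC
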