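import Pool.Agent.H785R2.ABC.Defs

/-!
# Module EC: the E bound for cells
-/

namespace Pool.Agent.H785R2.ABC.EC

open Finset

/-- sign in the congruence between `num t p` and `num t q` modulo a divisor of `num t r` -/
def sg (r : Fin 3) : ℤ := if r = 2 then -1 else 1

theorem num_pos {t : ℕ × ℕ × ℕ} (h : IsABCTriple t.1 t.2.1 t.2.2) (j : Fin 3) : 1 ≤ num t j := by
  obtain ⟨h1, h2, h3, -⟩ := h
  fin_cases j <;> simp [num] <;> omega

theorem num_le {t : ℕ × ℕ × ℕ} (h : IsABCTriple t.1 t.2.1 t.2.2) (j : Fin 3) :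
    num t j ≤ t.2.2 := by
  obtain ⟨h1, h2, h3, h4, -⟩ := h
  fin_cases j <;> simp [num] <;> omega

theorem num_coprime {t : ℕ × ℕ × ℕ} (h : IsABCTriple t.1 t.2.1 t.2.2) {p r : Fin 3}
    (hpr : p ≠ r) : Nat.Coprime (num t p) (num t r) := by
  obtain ⟨h1, h2, h3, h4, h5, h6, h7⟩ := h
  have h5' := h5.symm
  have h6' := h6.symm
  have h7' := h7.symm
  fin_cases p <;> fin_cases r <;> simp [num] at hpr ⊢ <;> assumption

theorem num_inj {t t' : ℕ × ℕ × ℕ} (h : IsABCTriple t.1 t.2.1 t.2.2)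
    (h' : IsABCTriple t'.1 t'.2.1 t'.2.2) {p q : Fin 3} (hpq : p ≠ q)
    (hp : num t p = num t' p) (hq : num t q = num t' q) : t = t' := by
  obtain ⟨h1, h2, h3, h4, -⟩ := h
  obtain ⟨h1', h2', h3', h4', -⟩ := h'
  obtain ⟨a, b, c⟩ := t
  obtain ⟨a', b', c'⟩ := t'
  simp only [Prod.mk.injEq] at *
  fin_cases p <;> fin_cases q <;> simp_all [num] <;> omega

theorem num_cong {t : ℕ × ℕ × ℕ} (h : IsABCTriple t.1 t.2.1 t.2.2) {p q r : Fin 3}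
    (hpq : p ≠ q) (hqr : q ≠ r) (hpr : p ≠ r) :
    sg r * (num t p : ℤ) - (num t q : ℤ) = (num t r : ℤ) ∨
      sg r * (num t p : ℤ) - (num t q : ℤ) = -(num t r : ℤ) := by
  obtain ⟨h1, h2, h3, h4, -⟩ := h
  have h4' : (t.1 : ℤ) + (t.2.1 : ℤ) = (t.2.2 : ℤ) := by exact_mod_cast h4
  fin_cases p <;> fin_cases q <;> fin_cases r <;> simp_all [num, sg] <;> omega

theorem num_dvd {t : ℕ × ℕ × ℕ} (h : IsABCTriple t.1 t.2.1 t.2.2) {p q r : Fin 3}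
    (hpq : p ≠ q) (hqr : q ≠ r) (hpr : p ≠ r) {f : ℕ} (hf : f ∣ num t r) :
    (sg r * (num t p : ℤ)) % (f : ℤ) = (num t q : ℤ) % (f : ℤ) := by
  have hf' : (f : ℤ) ∣ (num t r : ℤ) := by exact_mod_cast hf
  apply Int.ModEq.symm
  rw [Int.modEq_iff_dvd]
  rcases num_cong h hpq hqr hpr with h1 | h1
  · rw [h1]; exact hf'
  · rw [h1]; exact (dvd_neg).2 hf'

/-- block length -/
def blk (K : ℕ) (s : ℕ × ℕ × ℕ) (r : Fin 3) : ℕ :=
  if r = 0 then 2 ^ (K + 1) * s.1 else 2 ^ (K + 1) * s.2.2 + 1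

section cell

variable {K : ℕ} {T : Finset (ℕ × ℕ × ℕ)}

theorem num_cmp (hF : Basics) (hT : Cell K T) {t t' : ℕ × ℕ × ℕ} (ht : t ∈ T) (ht' : t' ∈ T)
    (j : Fin 3) : num t j ≤ 2 ^ (K + 1) * num t' j := by
  have h := hT.part_le t ht t' ht' j univ
  rwa [hF.part_univ K _ (num_pos (hT.abc t ht) j), hF.part_univ K _ (num_pos (hT.abc t' ht') j)]
    at h

theorem num_le_X (hF : Basics) (hT : Cell K T) {t s : ℕ × ℕ × ℕ} (ht : t ∈ T) (hs : s ∈ T)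
    (j : Fin 3) : num t j ≤ 2 ^ (K + 1) * s.2.2 :=
  (num_cmp hF hT ht hs j).trans (Nat.mul_le_mul_left _ (num_le (hT.abc s hs) j))

theorem blk_pos (hT : Cell K T) {s : ℕ × ℕ × ℕ} (hs : s ∈ T) (r : Fin 3) : 0 < blk K s r := by
  unfold blk
  split_ifs
  · exact Nat.mul_pos (by positivity) (hT.abc s hs).1
  · omega

/-- members of the same triple are in the same or in neighbouring blocks -/
theorem blk_near (hF : Basics) (hT : Cell K T) {t s : ℕ × ℕ × ℕ} (ht : t ∈ T) (hs : s ∈ T)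
    {p q r : Fin 3} (hpq : p ≠ q) (hqr : q ≠ r) (hpr : p ≠ r) :
    num t p ≤ num t q + blk K s r := by
  by_cases hr : r = 0
  · have h1 := num_cmp hF hT ht hs 0
    have h2 : num t p ≤ num t q + num t 0 := by
      obtain ⟨h1, h2, h3, h4, -⟩ := hT.abc t ht
      subst hr
      fin_cases p <;> fin_cases q <;> simp_all [num] <;> omega
    have h3 : blk K s r = 2 ^ (K + 1) * num s 0 := by simp [blk, hr, num]
    omega
  · have h1 := num_le_X hF hT ht hs p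
    have h3 : blk K s r = 2 ^ (K + 1) * s.2.2 + 1 := by simp [blk, hr]
    omega

end cell

theorem div_near {n m B : ℕ} (hB : 0 < B) (h1 : n ≤ m + B) (h2 : m ≤ n + B) :
    (n / B : ℕ) = ((m / B : ℕ) : ℤ) + (-1) ∨ (n / B : ℕ) = ((m / B : ℕ) : ℤ) + 0 ∨
      (n / B : ℕ) = ((m / B : ℕ) : ℤ) + 1 := by
  have h3 : n / B ≤ m / B + 1 := by
    calc n / B ≤ (m + B) / B := Nat.div_le_div_right h1
      _ = m / B + 1 := Nat.add_div_right m hB
  have h4 : m / B ≤ n / B + 1 := by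
    calc m / B ≤ (n + B) / B := Nat.div_le_div_right h2
      _ = n / B + 1 := Nat.add_div_right n hB
  omega

theorem div_eq_near {n m B : ℕ} (hB : 0 < B) (h : n / B = m / B) : n ≤ m + B := by
  have h1 := Nat.div_add_mod n B
  have h2 := Nat.div_add_mod m B
  have h3 := Nat.mod_lt n hB
  rw [h] at h1
  omega

theorem rpow_scale {a x y e : ℝ} (ha : 1 ≤ a) (he : 0 ≤ e) (he1 : e ≤ 1) (hx : 0 ≤ x)
    (hxy : x ≤ a * y) : x ^ e ≤ a * y ^ e := by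
  have hy : 0 ≤ y := by
    by_contra h
    push Not at h
    nlinarith
  calc x ^ e ≤ (a * y) ^ e := Real.rpow_le_rpow hx hxy he
    _ = a ^ e * y ^ e := Real.mul_rpow (by linarith) hy
    _ ≤ a ^ (1 : ℝ) * y ^ e :=
        mul_le_mul_of_nonneg_right (Real.rpow_le_rpow_of_exponent_le ha he1)
          (Real.rpow_nonneg hy e)
    _ = a * y ^ e := by rw [Real.rpow_one]

theorem inv_le_one_nat {k : ℕ} (hk : 1 ≤ k) : 0 ≤ (1 : ℝ) / k ∧ (1 : ℝ) / k ≤ 1 := by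
  have : (1 : ℝ) ≤ k := by exact_mod_cast hk
  refine ⟨by positivity, ?_⟩
  rw [div_le_one (by linarith)]
  exact this

theorem brk_scale {c W W0 δ δ0 f f0 : ℝ} {k : ℕ} (hk : 1 ≤ k) (hc : 1 ≤ c) (hW : 0 ≤ W)
    (hWW : W ≤ c * W0) (hδ : 0 ≤ δ) (hδδ : δ ≤ c * δ0) (hf0 : 0 < f0) (hf : f0 ≤ c * f) :
    1 + δ * (W ^ 2) ^ ((1 : ℝ) / k) / f ≤ c ^ 4 * (1 + δ0 * (W0 ^ 2) ^ ((1 : ℝ) / k) / f0) := by
  have hfp : 0 < f := by
    by_contra h
    push Not at h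
    nlinarith
  have hδ0 : 0 ≤ δ0 := by
    by_contra h
    push Not at h
    nlinarith
  have h1 : (W ^ 2) ^ ((1 : ℝ) / k) ≤ c ^ 2 * (W0 ^ 2) ^ ((1 : ℝ) / k) := by
    apply rpow_scale (one_le_pow₀ hc) (inv_le_one_nat hk).1 (inv_le_one_nat hk).2 (by positivity)
    rw [← mul_pow]
    exact pow_le_pow_left₀ hW hWW 2
  have h2 : 1 / f ≤ c / f0 := by
    rw [div_le_div_iff₀ hfp hf0]
    linarith
  have h3 : 0 ≤ (W0 ^ 2) ^ ((1 : ℝ) / k) := Real.rpow_nonneg (by positivity) _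
  have h4 : 0 ≤ (W ^ 2) ^ ((1 : ℝ) / k) := Real.rpow_nonneg (by positivity) _
  have h5 : δ * (W ^ 2) ^ ((1 : ℝ) / k) / f ≤
      (c * δ0) * (c ^ 2 * (W0 ^ 2) ^ ((1 : ℝ) / k)) * (c / f0) := by
    rw [div_eq_mul_one_div]
    apply mul_le_mul (mul_le_mul hδδ h1 h4 (by positivity)) h2 (by positivity) (by positivity)
  have h6 : (c * δ0) * (c ^ 2 * (W0 ^ 2) ^ ((1 : ℝ) / k)) * (c / f0) =
      c ^ 4 * (δ0 * (W0 ^ 2) ^ ((1 : ℝ) / k) / f0) := by ring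
  have h7 : 1 ≤ c ^ 4 := one_le_pow₀ hc
  rw [h6] at h5
  linarith

theorem val_nonneg {K : ℕ} (o : Opt K) {R W : Finset (Fin (K + 1)) → ℝ} {Δ δ f : ℝ}
    (hR : ∀ S, 0 ≤ R S) (hΔ : 0 ≤ Δ) (hδ : 0 ≤ δ) (hf : 0 ≤ f) : 0 ≤ o.val R W Δ δ f := by
  cases o with
  | zero => simp only [Opt.val]; positivity
  | one k μ S =>
    simp only [Opt.val]
    have := hR Sᶜ
    positivity
  | two k₁ S₁ k₂ S₂ =>
    simp only [Opt.val]
    have h1 := hR S₁ᶜ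
    have h2 := hR S₂ᶜ
    positivity

theorem val_scale {K : ℕ} (o : Opt K) (ho : o.Valid) {c : ℝ} (hc : 1 ≤ c)
    {R W R0 W0 : Finset (Fin (K + 1)) → ℝ} {Δ Δ0 δ δ0 f f0 : ℝ}
    (hR : ∀ S, 0 ≤ R S) (hRR : ∀ S, R S ≤ c * R0 S)
    (hW : ∀ S, 0 ≤ W S) (hWW : ∀ S, W S ≤ c * W0 S)
    (hΔ : 0 ≤ Δ) (hΔΔ : Δ ≤ c * Δ0) (hδ : 0 ≤ δ) (hδδ : δ ≤ c * δ0)
    (hf0 : 0 < f0) (hf : f0 ≤ c * f) :
    o.val R W Δ δ f ≤ c ^ 10 * o.val R0 W0 Δ0 δ0 f0 := by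
  have hfp : 0 < f := by
    by_contra h
    push Not at h
    nlinarith
  have hpos : ∀ {x y : ℝ}, 0 ≤ x → x ≤ c * y → 0 ≤ y := by
    intro x y hx hxy
    by_contra h
    push Not at h
    nlinarith
  have hδ0 : 0 ≤ δ0 := hpos hδ hδδ
  have hΔ0 : 0 ≤ Δ0 := hpos hΔ hΔΔ
  have hR0 : ∀ S, 0 ≤ R0 S := fun S => hpos (hR S) (hRR S)
  cases o with
  | zero =>
    simp only [Opt.val]
    have h1 : R univ ^ 2 ≤ (c * R0 univ) ^ 2 := pow_le_pow_left₀ (hR _) (hRR _) 2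
    have h2 : c ^ 2 ≤ c ^ 10 := pow_le_pow_right₀ hc (by norm_num)
    calc R univ ^ 2 ≤ c ^ 2 * R0 univ ^ 2 := by rw [← mul_pow]; exact h1
      _ ≤ c ^ 10 * R0 univ ^ 2 := mul_le_mul_of_nonneg_right h2 (by positivity)
  | one k μ S =>
    obtain ⟨hk, -, -, hμ, -⟩ := ho
    simp only [Opt.val]
    have h1 : R Sᶜ ^ 2 ≤ c ^ 2 * R0 Sᶜ ^ 2 := by
      rw [← mul_pow]; exact pow_le_pow_left₀ (hR _) (hRR _) 2
    have h2 : (Δ / f) ^ ((1 : ℝ) / μ) ≤ c ^ 2 * (Δ0 / f0) ^ ((1 : ℝ) / μ) := by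
      apply rpow_scale (one_le_pow₀ hc) (inv_le_one_nat hμ).1 (inv_le_one_nat hμ).2 (by positivity)
      have h3 : 1 / f ≤ c / f0 := by
        rw [div_le_div_iff₀ hfp hf0]
        linarith
      calc Δ / f = Δ * (1 / f) := by ring
        _ ≤ (c * Δ0) * (c / f0) := mul_le_mul hΔΔ h3 (by positivity) (by positivity)
        _ = c ^ 2 * (Δ0 / f0) := by ring
    have h3 := brk_scale hk hc (hW S) (hWW S) hδ hδδ hf0 hf
    have h4 : 0 ≤ (Δ / f) ^ ((1 : ℝ) / μ) := by positivity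
    have h5 : 0 ≤ 1 + δ * (W S ^ 2) ^ ((1 : ℝ) / k) / f := by positivity
    have h6 : 0 ≤ (Δ0 / f0) ^ ((1 : ℝ) / μ) := by positivity
    have h7 : 0 ≤ 1 + δ0 * (W0 S ^ 2) ^ ((1 : ℝ) / k) / f0 := by positivity
    have h8 : c ^ 8 ≤ c ^ 10 := pow_le_pow_right₀ hc (by norm_num)
    calc R Sᶜ ^ 2 * (Δ / f) ^ ((1 : ℝ) / μ) * (1 + δ * (W S ^ 2) ^ ((1 : ℝ) / k) / f)
        ≤ (c ^ 2 * R0 Sᶜ ^ 2) * (c ^ 2 * (Δ0 / f0) ^ ((1 : ℝ) / μ)) *
          (c ^ 4 * (1 + δ0 * (W0 S ^ 2) ^ ((1 : ℝ) / k) / f0)) :=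
          mul_le_mul (mul_le_mul h1 h2 h4 (by positivity)) h3 h5 (by positivity)
      _ = c ^ 8 * (R0 Sᶜ ^ 2 * (Δ0 / f0) ^ ((1 : ℝ) / μ) *
          (1 + δ0 * (W0 S ^ 2) ^ ((1 : ℝ) / k) / f0)) := by ring
      _ ≤ c ^ 10 * (R0 Sᶜ ^ 2 * (Δ0 / f0) ^ ((1 : ℝ) / μ) *
          (1 + δ0 * (W0 S ^ 2) ^ ((1 : ℝ) / k) / f0)) :=
          mul_le_mul_of_nonneg_right h8 (by positivity)
  | two k₁ S₁ k₂ S₂ =>
    obtain ⟨hk₁, -, -, hk₂, -⟩ := ho
    simp only [Opt.val]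
    have h1 := brk_scale hk₁ hc (hW S₁) (hWW S₁) hδ hδδ hf0 hf
    have h2 := brk_scale hk₂ hc (hW S₂) (hWW S₂) hδ hδδ hf0 hf
    have h5 : 0 ≤ 1 + δ * (W S₁ ^ 2) ^ ((1 : ℝ) / k₁) / f := by positivity
    have h6 : 0 ≤ 1 + δ * (W S₂ ^ 2) ^ ((1 : ℝ) / k₂) / f := by positivity
    have h7 : 0 ≤ 1 + δ0 * (W0 S₁ ^ 2) ^ ((1 : ℝ) / k₁) / f0 := by positivity
    have h8 : 0 ≤ 1 + δ0 * (W0 S₂ ^ 2) ^ ((1 : ℝ) / k₂) / f0 := by positivity
    have h3 : ((1 + δ * (W S₁ ^ 2) ^ ((1 : ℝ) / k₁) / f) *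
        (1 + δ * (W S₂ ^ 2) ^ ((1 : ℝ) / k₂) / f)) ^ ((1 : ℝ) / 2) ≤
        c ^ 8 * ((1 + δ0 * (W0 S₁ ^ 2) ^ ((1 : ℝ) / k₁) / f0) *
        (1 + δ0 * (W0 S₂ ^ 2) ^ ((1 : ℝ) / k₂) / f0)) ^ ((1 : ℝ) / 2) := by
      apply rpow_scale (one_le_pow₀ hc) (by norm_num) (by norm_num) (by positivity)
      calc _ ≤ (c ^ 4 * (1 + δ0 * (W0 S₁ ^ 2) ^ ((1 : ℝ) / k₁) / f0)) *
          (c ^ 4 * (1 + δ0 * (W0 S₂ ^ 2) ^ ((1 : ℝ) / k₂) / f0)) :=
            mul_le_mul h1 h2 h6 (by positivity)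
        _ = _ := by ring
    have h9 : R S₁ᶜ * R S₂ᶜ ≤ (c * R0 S₁ᶜ) * (c * R0 S₂ᶜ) :=
      mul_le_mul (hRR _) (hRR _) (hR _) (mul_nonneg (by linarith) (hR0 _))
    have h10 : 0 ≤ R0 S₁ᶜ * R0 S₂ᶜ := mul_nonneg (hR0 _) (hR0 _)
    calc R S₁ᶜ * R S₂ᶜ * ((1 + δ * (W S₁ ^ 2) ^ ((1 : ℝ) / k₁) / f) *
          (1 + δ * (W S₂ ^ 2) ^ ((1 : ℝ) / k₂) / f)) ^ ((1 : ℝ) / 2)
        ≤ ((c * R0 S₁ᶜ) * (c * R0 S₂ᶜ)) *
          (c ^ 8 * ((1 + δ0 * (W0 S₁ ^ 2) ^ ((1 : ℝ) / k₁) / f0) *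
          (1 + δ0 * (W0 S₂ ^ 2) ^ ((1 : ℝ) / k₂) / f0)) ^ ((1 : ℝ) / 2)) :=
          mul_le_mul h9 h3 (by positivity)
            (by
              have : (c * R0 S₁ᶜ) * (c * R0 S₂ᶜ) = c ^ 2 * (R0 S₁ᶜ * R0 S₂ᶜ) := by ring
              rw [this]; positivity)
      _ = _ := by ring

/-- the body of `StmtO` -/
def OBody (K : ℕ) (κ D ε : ℝ) : Prop :=
  ∀ o : Opt K, o.Valid →
    ∀ X f : ℕ, 1 ≤ X → 1 ≤ f → f ≤ X → ∀ (R W : Finset (Fin (K + 1)) → ℝ) (Δ δ : ℝ),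
    (∀ S, 0 ≤ R S) → 0 ≤ Δ → 0 ≤ δ → δ ≤ κ → ∀ Q : Finset (ℕ × ℕ),
    (∀ t ∈ Q, t.1 ≠ t.2 ∧ 1 ≤ t.1 ∧ t.1 ≤ X ∧ 1 ≤ t.2 ∧ t.2 ≤ X ∧
      Nat.Coprime t.1 f ∧ Nat.Coprime t.2 f ∧ (t.1 : ZMod f) = (t.2 : ZMod f) ∧
      |(t.1 : ℝ) - t.2| ≤ Δ ∧ (t.1 : ℝ) ≤ (1 + δ) * t.2 ∧ (t.2 : ℝ) ≤ (1 + δ) * t.1 ∧
      ∀ S, (rd K t.1 S : ℝ) ≤ R S ∧ (rd K t.2 S : ℝ) ≤ R S ∧
        (part K t.1 S : ℝ) ≤ W S ∧ (part K t.2 S : ℝ) ≤ W S ∧ W S ≤ κ * part K t.2 S) →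
    (Q.card : ℝ) ≤ D * (X : ℝ) ^ ε * o.val R W Δ δ f

/-- `2 * (2 ^ (K + 1)) ^ 2` -/
noncomputable def cc (K : ℕ) : ℝ := 2 * ((2 : ℝ) ^ (K + 1)) ^ 2

section off

variable {K : ℕ} {T : Finset (ℕ × ℕ × ℕ)}

theorem one_le_kap (K : ℕ) : (1 : ℝ) ≤ (2 : ℝ) ^ (K + 1) := one_le_pow₀ (by norm_num)

theorem kap_le_cc (K : ℕ) : (2 : ℝ) ^ (K + 1) ≤ cc K := by
  have := one_le_kap K
  unfold cc
  nlinarith

theorem one_le_cc (K : ℕ) : (1 : ℝ) ≤ cc K := (one_le_kap K).trans (kap_le_cc K)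

theorem th_nonneg (s : ℕ × ℕ × ℕ) (r : Fin 3) : 0 ≤ th s r := by
  unfold th; split_ifs <;> positivity

theorem th_le_one {s : ℕ × ℕ × ℕ} (h : IsABCTriple s.1 s.2.1 s.2.2) (r : Fin 3) :
    th s r ≤ 1 := by
  unfold th
  split_ifs
  · have h1 : (s.1 : ℝ) ≤ s.2.2 := by
      have := num_le h 0
      simp only [num, if_true] at this
      exact_mod_cast this
    have h2 : (0 : ℝ) < s.2.2 := by exact_mod_cast h.2.2.1
    rwa [div_le_one h2]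
  · exact le_refl _

/-- ratio and distance of two members of a cell in the same block -/
theorem same_block (hF : Basics) (hT : Cell K T) {s t t' : ℕ × ℕ × ℕ} (hs : s ∈ T) (ht : t ∈ T)
    (ht' : t' ∈ T) {j r : Fin 3} (hjr : j ≠ r)
    (hb : num t j / blk K s r = num t' j / blk K s r) :
    (num t j : ℝ) - num t' j ≤ 2 ^ (K + 1) * (if r = 0 then (s.1 : ℝ) else (num s j : ℝ)) ∧
      (num t j : ℝ) ≤ (1 + cc K * th s r) * num t' j := by
  have h0 : (0 : ℝ) ≤ num t' j := Nat.cast_nonneg _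
  have hk := one_le_kap K
  by_cases hr : r = 0
  · have h1 := div_eq_near (blk_pos hT hs r) hb
    have h3 : blk K s r = 2 ^ (K + 1) * s.1 := by simp [blk, hr]
    rw [h3] at h1
    have h2 : (num t j : ℝ) ≤ num t' j + 2 ^ (K + 1) * s.1 := by exact_mod_cast h1
    simp only [hr, if_true]
    refine ⟨by linarith, ?_⟩
    have h4 : (s.2.2 : ℝ) ≤ 2 * num s j := by
      obtain ⟨g1, g2, g3, g4, -⟩ := hT.abc s hs
      have g5 := hT.le s hs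
      have : s.2.2 ≤ 2 * num s j := by
        subst hr
        fin_cases j <;> simp_all [num] <;> omega
      exact_mod_cast this
    have h5 : (num s j : ℝ) ≤ 2 ^ (K + 1) * num t' j := by
      exact_mod_cast num_cmp hF hT hs ht' j
    have h6 : (0 : ℝ) < s.2.2 := by exact_mod_cast (hT.abc s hs).2.2.1
    have h7 : (0 : ℝ) < s.1 := by exact_mod_cast (hT.abc s hs).1
    have h8 : (2 : ℝ) ^ (K + 1) * s.1 ≤ cc K * (s.1 / s.2.2) * num t' j := by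
      have h9 : (s.2.2 : ℝ) ≤ 2 * 2 ^ (K + 1) * num t' j := by linarith
      have h10 : cc K * (s.1 / s.2.2) * num t' j =
          2 ^ (K + 1) * s.1 * ((2 * 2 ^ (K + 1) * num t' j) / s.2.2) := by
        unfold cc
        field_simp
      rw [h10]
      apply le_mul_of_one_le_right (by positivity)
      rwa [le_div_iff₀ h6, one_mul]
    simp only [th, if_true]
    linarith
  · simp only [hr, if_false, th]
    have h1 : (num t j : ℝ) ≤ 2 ^ (K + 1) * num s j := by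
      exact_mod_cast num_cmp hF hT ht hs j
    have h2 : (num s j : ℝ) ≤ 2 ^ (K + 1) * num t' j := by
      exact_mod_cast num_cmp hF hT hs ht' j
    refine ⟨by linarith, ?_⟩
    have h3 : (2 : ℝ) ^ (K + 1) * num s j ≤ 2 ^ (K + 1) * (2 ^ (K + 1) * num t' j) :=
      mul_le_mul_of_nonneg_left h2 (by positivity)
    have h4 : (2 : ℝ) ^ (K + 1) * (2 ^ (K + 1) * num t' j) ≤ cc K * num t' j := by
      unfold cc
      nlinarith [mul_nonneg (mul_nonneg (show (0:ℝ) ≤ 2 ^ (K + 1) by positivity)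
        (show (0:ℝ) ≤ 2 ^ (K + 1) by positivity)) h0]
    linarith

theorem off_bound (hF : Basics) (hT : Cell K T) {s : ℕ × ℕ × ℕ} (hs : s ∈ T) {j r : Fin 3}
    (hjr : j ≠ r) (F : Finset (Fin (K + 1))) {f : ℕ} {D e : ℝ} (hD : 0 ≤ D)
    (hO : OBody K (cc K) D e)
    (hf : ∃ t ∈ T, part K (num t r) F = f)
    (Q : Finset (ℕ × ℕ))
    (hQ : ∀ x ∈ Q, x.1 ≠ x.2 ∧ (x.1 : ℤ) % f = (x.2 : ℤ) % f ∧
      x.1 / blk K s r = x.2 / blk K s r ∧
      (∃ t ∈ T, part K (num t r) F = f ∧ num t j = x.1) ∧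
      (∃ t ∈ T, part K (num t r) F = f ∧ num t j = x.2))
    (o : Opt K) (ho : o.Valid) :
    (Q.card : ℝ) ≤ D * ((2 ^ (K + 1) * s.2.2 : ℕ) : ℝ) ^ e * (cc K ^ 10 * o.cval s r j F) := by
  obtain ⟨t0, ht0, hft0⟩ := hf
  have hk := one_le_kap K
  have hkc := kap_le_cc K
  have hc := one_le_cc K
  have hf1 : 1 ≤ f := hft0 ▸ hF.part_pos K _ F
  have hX1 : 1 ≤ 2 ^ (K + 1) * s.2.2 :=
    (num_pos (hT.abc t0 ht0) r).trans (num_le_X hF hT ht0 hs r)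
  have hfX : f ≤ 2 ^ (K + 1) * s.2.2 := by
    have h1 := hF.part_dvd K (num t0 r) F (num_pos (hT.abc t0 ht0) r)
    rw [hft0] at h1
    exact (Nat.le_of_dvd (num_pos (hT.abc t0 ht0) r) h1).trans (num_le_X hF hT ht0 hs r)
  have hmain := hO o ho (2 ^ (K + 1) * s.2.2) f hX1 hf1 hfX
    (fun S => 2 ^ (K + 1) * (rd K (num s j) S : ℝ))
    (fun S => 2 ^ (K + 1) * (part K (num s j) S : ℝ))
    (2 ^ (K + 1) * (if r = 0 then (s.1 : ℝ) else (num s j : ℝ))) (cc K * th s r)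
    (fun S => by positivity) (by split_ifs <;> positivity)
    (mul_nonneg (by linarith) (th_nonneg s r))
    (by
      have := th_le_one (hT.abc s hs) r
      nlinarith) Q (by
      intro x hx
      obtain ⟨h1, h2, h3, ⟨t, ht, htf, htx⟩, ⟨t', ht', htf', htx'⟩⟩ := hQ x hx
      have hco : ∀ {u : ℕ × ℕ × ℕ}, u ∈ T → part K (num u r) F = f → Nat.Coprime (num u j) f := by
        intro u hu huf
        have g1 := hF.part_dvd K (num u r) F (num_pos (hT.abc u hu) r)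
        rw [huf] at g1
        exact Nat.Coprime.coprime_dvd_right g1 (num_coprime (hT.abc u hu) hjr)
      rw [← htx, ← htx'] at h1 h2 h3
      rw [← htx, ← htx']
      have hb1 := same_block hF hT hs ht ht' hjr h3
      have hb2 := same_block hF hT hs ht' ht hjr h3.symm
      refine ⟨h1, num_pos (hT.abc t ht) j, num_le_X hF hT ht hs j, num_pos (hT.abc t' ht') j,
        num_le_X hF hT ht' hs j, hco ht htf, hco ht' htf', ?_, ?_, hb1.2, hb2.2, ?_⟩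
      · have h4 : ((num t j : ℤ) : ZMod f) = ((num t' j : ℤ) : ZMod f) :=
          (ZMod.intCast_eq_intCast_iff' _ _ f).2 h2
        exact_mod_cast h4
      · rw [abs_le]
        constructor
        · linarith [hb2.1]
        · exact hb1.1
      · intro S
        have g1 : (rd K (num t j) S : ℝ) ≤ 2 ^ (K + 1) * rd K (num s j) S := by
          exact_mod_cast hT.rd_le t ht s hs j S
        have g2 : (rd K (num t' j) S : ℝ) ≤ 2 ^ (K + 1) * rd K (num s j) S := by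
          exact_mod_cast hT.rd_le t' ht' s hs j S
        have g3 : (part K (num t j) S : ℝ) ≤ 2 ^ (K + 1) * part K (num s j) S := by
          exact_mod_cast hT.part_le t ht s hs j S
        have g4 : (part K (num t' j) S : ℝ) ≤ 2 ^ (K + 1) * part K (num s j) S := by
          exact_mod_cast hT.part_le t' ht' s hs j S
        have g5 : (part K (num s j) S : ℝ) ≤ 2 ^ (K + 1) * part K (num t' j) S := by
          exact_mod_cast hT.part_le s hs t' ht' j S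
        refine ⟨g1, g2, g3, g4, ?_⟩
        have g6 : (0 : ℝ) ≤ part K (num t' j) S := Nat.cast_nonneg _
        have g7 : (2 : ℝ) ^ (K + 1) * part K (num s j) S ≤
            2 ^ (K + 1) * (2 ^ (K + 1) * part K (num t' j) S) :=
          mul_le_mul_of_nonneg_left g5 (by positivity)
        have g8 : (2 : ℝ) ^ (K + 1) * (2 ^ (K + 1) * part K (num t' j) S) ≤
            cc K * part K (num t' j) S := by
          unfold cc
          nlinarith [mul_nonneg (mul_nonneg (show (0:ℝ) ≤ 2 ^ (K + 1) by positivity)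
            (show (0:ℝ) ≤ 2 ^ (K + 1) by positivity)) g6]
        linarith)
  refine hmain.trans ?_
  apply mul_le_mul_of_nonneg_left _ (by positivity)
  have hj : (0 : ℝ) ≤ (if r = 0 then (s.1 : ℝ) else (num s j : ℝ)) := by
    split_ifs <;> positivity
  apply val_scale o ho hc
  · intro S; positivity
  · intro S
    exact mul_le_mul_of_nonneg_right hkc (Nat.cast_nonneg _)
  · intro S; positivity
  · intro S
    exact mul_le_mul_of_nonneg_right hkc (Nat.cast_nonneg _)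
  · positivity
  · exact mul_le_mul_of_nonneg_right hkc hj
  · exact mul_nonneg (by linarith) (th_nonneg s r)
  · exact le_refl _
  · exact_mod_cast hF.part_pos K (num s r) F
  · have g1 : (part K (num s r) F : ℝ) ≤ 2 ^ (K + 1) * f := by
      rw [← hft0]
      exact_mod_cast hT.part_le s hs t0 ht0 r F
    exact g1.trans (mul_le_mul_of_nonneg_right hkc (Nat.cast_nonneg _))

theorem cval_nonneg (hF : Basics) (s : ℕ × ℕ × ℕ) (r j : Fin 3) (F : Finset (Fin (K + 1)))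
    (o : Opt K) : 0 ≤ o.cval s r j F := by
  apply val_nonneg o
  · intro S; positivity
  · split_ifs <;> positivity
  · exact th_nonneg s r
  · positivity

theorem cs_combine {M Q1 cp cq x y z : ℝ} (hM : 0 ≤ M) (hQ : 0 ≤ Q1) (hcp : 0 ≤ cp)
    (hcq : 0 ≤ cq) (hx : 0 ≤ x) (hy : 0 ≤ y) (hz : 0 ≤ z) (h1 : x ≤ M * Q1) (h2 : y ≤ M * cp)
    (h3 : z ≤ M * cq) : x + (2 * y * (x + z)) ^ ((1 : ℝ) / 2) ≤
      2 * M * (Q1 + (cp * (Q1 + cq)) ^ ((1 : ℝ) / 2)) := by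
  have hZ0 : 0 ≤ cp * (Q1 + cq) := by positivity
  have h5 : (2 * y * (x + z)) ^ ((1 : ℝ) / 2) ≤ 2 * M * (cp * (Q1 + cq)) ^ ((1 : ℝ) / 2) := by
    have h4 : 2 * y * (x + z) ≤ (2 * M) ^ 2 * (cp * (Q1 + cq)) := by
      calc 2 * y * (x + z) ≤ 2 * (M * cp) * (M * Q1 + M * cq) := by
            apply mul_le_mul
            · linarith
            · linarith
            · positivity
            · positivity
        _ = 2 * (M ^ 2 * (cp * (Q1 + cq))) := by ring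
        _ ≤ (2 * M) ^ 2 * (cp * (Q1 + cq)) := by
            have : 0 ≤ M ^ 2 * (cp * (Q1 + cq)) := by positivity
            nlinarith
    calc _ ≤ ((2 * M) ^ 2 * (cp * (Q1 + cq))) ^ ((1 : ℝ) / 2) :=
          Real.rpow_le_rpow (by positivity) h4 (by norm_num)
      _ = 2 * M * (cp * (Q1 + cq)) ^ ((1 : ℝ) / 2) := by
          rw [Real.mul_rpow (by positivity) hZ0, ← Real.sqrt_eq_rpow ((2 * M) ^ 2),
            Real.sqrt_sq (by positivity)]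
  have h6 : 0 ≤ M * Q1 := by positivity
  linarith

theorem fiber_bound (hF : Basics) (hCS : StmtCS) (hT : Cell K T) {s : ℕ × ℕ × ℕ} (hs : s ∈ T)
    {p q r : Fin 3} (hpq : p ≠ q) (hqr : q ≠ r) (hpr : p ≠ r) (F : Finset (Fin (K + 1))) {f : ℕ}
    {D e D4 : ℝ} (hD : 0 ≤ D) (hD4 : 0 ≤ D4) (hO : OBody K (cc K) D e)
    (h4 : ∀ X : ℕ, 1 ≤ X → ∀ R : ℝ, 0 ≤ R →
      (((Icc 1 X).filter fun d => (rad d : ℝ) ≤ R).card : ℝ) ≤ D4 * (X : ℝ) ^ e * R)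
    (hf : ∃ t ∈ T, part K (num t r) F = f) {op oq : Opt K} (hop : op.Valid) (hoq : oq.Valid) :
    ((T.filter fun t => part K (num t r) F = f).card : ℝ) ≤
      6 * ((D4 * 2 ^ (K + 1) + D * cc K ^ 10) * ((2 ^ (K + 1) * s.2.2 : ℕ) : ℝ) ^ e) *
        ((rd K (num s q) univ : ℝ) +
        (op.cval s r p F * ((rd K (num s q) univ : ℝ) + oq.cval s r q F)) ^ ((1 : ℝ) / 2)) := by
  classical
  have hk := one_le_kap K
  have hc := one_le_cc K
  have hX1 : 1 ≤ 2 ^ (K + 1) * s.2.2 :=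
    (num_pos (hT.abc s hs) r).trans (num_le_X hF hT hs hs r)
  set X : ℕ := 2 ^ (K + 1) * s.2.2 with hX
  set B := blk K s r with hB
  set T' := T.filter fun t => part K (num t r) F = f with hT'
  set P := T'.image fun t => num t p with hP
  set Q := T'.image fun t => num t q with hQd
  set κP : ℕ → ℤ × ℤ := fun n => ((sg r * (n : ℤ)) % (f : ℤ), ((n / B : ℕ) : ℤ)) with hκP
  set κQ : ℤ → ℕ → ℤ × ℤ := fun ee m => ((m : ℤ) % (f : ℤ), ((m / B : ℕ) : ℤ) + ee) with hκQ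
  set E : Finset ℤ := {-1, 0, 1} with hE
  have hTmem : ∀ t ∈ T', t ∈ T ∧ part K (num t r) F = f := by
    intro t ht
    rw [hT', mem_filter] at ht
    exact ht
  have hcard : T'.card ≤ ∑ ee ∈ E, ((P ×ˢ Q).filter fun t => κP t.1 = κQ ee t.2).card := by
    have h1 : (T'.image fun t => (num t p, num t q)).card = T'.card := by
      apply card_image_of_injOn
      intro t ht t' ht' htt
      simp only [Prod.mk.injEq] at htt
      exact num_inj (hT.abc t (hTmem t ht).1) (hT.abc t' (hTmem t' ht').1) hpq htt.1 htt.2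
    rw [← h1]
    refine (card_le_card ?_).trans card_biUnion_le
    intro x hx
    obtain ⟨t, ht, rfl⟩ := mem_image.1 hx
    obtain ⟨htT, htf⟩ := hTmem t ht
    have h2 := num_dvd (hT.abc t htT) hpq hqr hpr
      (f := f) (htf ▸ hF.part_dvd K (num t r) F (num_pos (hT.abc t htT) r))
    have h3 := div_near (blk_pos hT hs r) (blk_near hF hT htT hs hpq hqr hpr)
      (blk_near hF hT htT hs hpq.symm hpr hqr)
    have hmP : num t p ∈ P := mem_image_of_mem _ ht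
    have hmQ : num t q ∈ Q := mem_image_of_mem _ ht
    rw [mem_biUnion]
    rcases h3 with h3 | h3 | h3
    · refine ⟨-1, by simp [hE], ?_⟩
      rw [mem_filter, mem_product]
      exact ⟨⟨hmP, hmQ⟩, Prod.ext h2 h3⟩
    · refine ⟨0, by simp [hE], ?_⟩
      rw [mem_filter, mem_product]
      exact ⟨⟨hmP, hmQ⟩, Prod.ext h2 h3⟩
    · refine ⟨1, by simp [hE], ?_⟩
      rw [mem_filter, mem_product]
      exact ⟨⟨hmP, hmQ⟩, Prod.ext h2 h3⟩
  set M : ℝ := (D4 * 2 ^ (K + 1) + D * cc K ^ 10) * (X : ℝ) ^ e with hM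
  have hXe : 0 ≤ (X : ℝ) ^ e := by positivity
  have hM0 : 0 ≤ M := by
    rw [hM]
    have : 0 ≤ cc K := by linarith
    positivity
  set Q1 : ℝ := (rd K (num s q) univ : ℝ) with hQ1
  have hQ10 : 0 ≤ Q1 := Nat.cast_nonneg _
  set cp : ℝ := op.cval s r p F with hcp
  set cq : ℝ := oq.cval s r q F with hcq
  have hcp0 : 0 ≤ cp := cval_nonneg hF s r p F op
  have hcq0 : 0 ≤ cq := cval_nonneg hF s r q F oq
  have hQcard : (Q.card : ℝ) ≤ M * Q1 := by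
    have h1 : Q ⊆ (Icc 1 X).filter fun d => (rad d : ℝ) ≤ 2 ^ (K + 1) * Q1 := by
      intro m hm
      obtain ⟨t, ht, rfl⟩ := mem_image.1 hm
      obtain ⟨htT, htf⟩ := hTmem t ht
      rw [mem_filter, mem_Icc]
      refine ⟨⟨num_pos (hT.abc t htT) q, num_le_X hF hT htT hs q⟩, ?_⟩
      rw [← hF.rd_univ K, hQ1]
      exact_mod_cast hT.rd_le t htT s hs q univ
    have h2 := h4 X hX1 (2 ^ (K + 1) * Q1) (by positivity)
    have h3 : (Q.card : ℝ) ≤ (((Icc 1 X).filter fun d => (rad d : ℝ) ≤ 2 ^ (K + 1) * Q1).card : ℝ) := by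
      exact_mod_cast card_le_card h1
    have h5 : D4 * (X : ℝ) ^ e * (2 ^ (K + 1) * Q1) ≤ M * Q1 := by
      rw [hM]
      have h6 : 0 ≤ D * cc K ^ 10 * ((X : ℝ) ^ e * Q1) := by
        have : 0 ≤ cc K := by linarith
        positivity
      nlinarith
    linarith
  have hscale : ∀ c : ℝ, 0 ≤ c → D * (X : ℝ) ^ e * (cc K ^ 10 * c) ≤ M * c := by
    intro c hc0
    rw [hM]
    have h6 : 0 ≤ D4 * 2 ^ (K + 1) * ((X : ℝ) ^ e * c) := by positivity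
    nlinarith
  have hOffP : ((((P ×ˢ P).filter fun t => t.1 ≠ t.2 ∧ κP t.1 = κP t.2).card : ℕ) : ℝ) ≤ M * cp := by
    refine (off_bound hF hT hs hpr F hD hO hf _ ?_ op hop).trans (hscale _ hcp0)
    intro x hx
    rw [mem_filter, mem_product] at hx
    obtain ⟨⟨hx1, hx2⟩, hx3, hx4⟩ := hx
    obtain ⟨t, ht, htx⟩ := mem_image.1 hx1
    obtain ⟨t', ht', htx'⟩ := mem_image.1 hx2
    obtain ⟨htT, htf⟩ := hTmem t ht
    obtain ⟨htT', htf'⟩ := hTmem t' ht'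
    simp only [hκP, Prod.mk.injEq] at hx4
    refine ⟨hx3, ?_, by exact_mod_cast hx4.2, ⟨t, htT, htf, htx⟩, ⟨t', htT', htf', htx'⟩⟩
    have h1 : sg r * (x.1 : ℤ) ≡ sg r * (x.2 : ℤ) [ZMOD (f : ℤ)] := hx4.1
    have h2 : sg r * sg r = 1 := by unfold sg; split_ifs <;> norm_num
    have h3 := h1.mul_left (sg r)
    rw [← mul_assoc, ← mul_assoc, h2, one_mul, one_mul] at h3
    exact h3
  have hOffQ : ∀ ee : ℤ,
      ((((Q ×ˢ Q).filter fun t => t.1 ≠ t.2 ∧ κQ ee t.1 = κQ ee t.2).card : ℕ) : ℝ) ≤ M * cq := by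
    intro ee
    refine (off_bound hF hT hs hqr F hD hO hf _ ?_ oq hoq).trans (hscale _ hcq0)
    intro x hx
    rw [mem_filter, mem_product] at hx
    obtain ⟨⟨hx1, hx2⟩, hx3, hx4⟩ := hx
    obtain ⟨t, ht, htx⟩ := mem_image.1 hx1
    obtain ⟨t', ht', htx'⟩ := mem_image.1 hx2
    obtain ⟨htT, htf⟩ := hTmem t ht
    obtain ⟨htT', htf'⟩ := hTmem t' ht'
    simp only [hκQ, Prod.mk.injEq] at hx4
    refine ⟨hx3, hx4.1, ?_, ⟨t, htT, htf, htx⟩, ⟨t', htT', htf', htx'⟩⟩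
    have h1 := hx4.2
    have h2 : ((x.1 / B : ℕ) : ℤ) = ((x.2 / B : ℕ) : ℤ) := by linarith
    exact_mod_cast h2
  set Z : ℝ := cp * (Q1 + cq) with hZ
  have hZ0 : 0 ≤ Z := by positivity
  have heach : ∀ ee ∈ E, ((((P ×ˢ Q).filter fun t => κP t.1 = κQ ee t.2).card : ℕ) : ℝ) ≤
      2 * M * (Q1 + Z ^ ((1 : ℝ) / 2)) := by
    intro ee _
    exact (hCS P Q κP (κQ ee)).trans (cs_combine hM0 hQ10 hcp0 hcq0 (Nat.cast_nonneg _)
      (Nat.cast_nonneg _) (Nat.cast_nonneg _) hQcard hOffP (hOffQ ee))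
  have hE3 : E.card = 3 := by rw [hE]; rfl
  calc (T'.card : ℝ) ≤ ((∑ ee ∈ E, ((P ×ˢ Q).filter fun t => κP t.1 = κQ ee t.2).card : ℕ) : ℝ) := by
        exact_mod_cast hcard
    _ = ∑ ee ∈ E, ((((P ×ˢ Q).filter fun t => κP t.1 = κQ ee t.2).card : ℕ) : ℝ) := by
        push_cast; rfl
    _ ≤ ∑ _ee ∈ E, 2 * M * (Q1 + Z ^ ((1 : ℝ) / 2)) := sum_le_sum heach
    _ = 6 * M * (Q1 + Z ^ ((1 : ℝ) / 2)) := by
        rw [sum_const, hE3, nsmul_eq_mul]; push_cast; ring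

end off

end EC

open Finset EC in
/-- Module EC -/
theorem stmtEcell_of (hF : Basics) (hA4 : StmtA4) (hO : StmtO) (hCS : StmtCS) : StmtEcell := by
  classical
  intro K ε hε
  obtain ⟨D4, hD4, h4⟩ := hA4 (ε / 2) (by linarith)
  obtain ⟨DO, hDO, hO'⟩ := hO K (ε / 2) (by linarith) (cc K) (one_le_cc K)
  have hk := one_le_kap K
  have hc := one_le_cc K
  have hc0 : 0 < cc K := by linarith
  refine ⟨D4 * 2 ^ (K + 1) * (6 * (D4 * 2 ^ (K + 1) + DO * cc K ^ 10)) *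
    ((2 : ℝ) ^ (K + 1)) ^ ε, by positivity, ?_⟩
  intro T hT s hs p q r hpq hqr hpr F op oq hop hoq
  have hs0 : (0 : ℝ) < s.2.2 := by exact_mod_cast (hT.abc s hs).2.2.1
  have hX1 : 1 ≤ 2 ^ (K + 1) * s.2.2 :=
    (num_pos (hT.abc s hs) r).trans (num_le_X hF hT hs hs r)
  set I := T.image fun t => part K (num t r) F with hI
  set V : ℝ := (rd K (num s q) univ : ℝ) +
        (op.cval s r p F * ((rd K (num s q) univ : ℝ) + oq.cval s r q F)) ^ ((1 : ℝ) / 2) with hV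
  have hV0 : 0 ≤ V := by
    have h1 := cval_nonneg hF s r p F op
    have h2 := cval_nonneg hF s r q F oq
    rw [hV]
    positivity
  have hIcard : (I.card : ℝ) ≤
      D4 * ((2 ^ (K + 1) * s.2.2 : ℕ) : ℝ) ^ (ε / 2) * (2 ^ (K + 1) * (rd K (num s r) F : ℝ)) := by
    have h1 : I ⊆ (Icc 1 (2 ^ (K + 1) * s.2.2)).filter
        fun d => (rad d : ℝ) ≤ 2 ^ (K + 1) * (rd K (num s r) F : ℝ) := by
      intro m hm
      obtain ⟨t, ht, rfl⟩ := mem_image.1 hm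
      have hn := num_pos (hT.abc t ht) r
      rw [mem_filter, mem_Icc]
      refine ⟨⟨hF.part_pos K _ F, (Nat.le_of_dvd hn (hF.part_dvd K (num t r) F hn)).trans
        (num_le_X hF hT ht hs r)⟩, ?_⟩
      rw [hF.rad_part K _ F hn]
      exact_mod_cast hT.rd_le t ht s hs r F
    exact (by exact_mod_cast card_le_card h1 : (I.card : ℝ) ≤ _).trans
      (h4 _ hX1 _ (by positivity))
  have hfib : ∀ f ∈ I, ((T.filter fun t => part K (num t r) F = f).card : ℝ) ≤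
      6 * ((D4 * 2 ^ (K + 1) + DO * cc K ^ 10) *
        ((2 ^ (K + 1) * s.2.2 : ℕ) : ℝ) ^ (ε / 2)) * V := by
    intro f hf
    obtain ⟨t, ht, htf⟩ := mem_image.1 hf
    exact fiber_bound hF hCS hT hs hpq hqr hpr F hDO.le hD4.le hO' h4 ⟨t, ht, htf⟩ hop hoq
  have hsum : T.card = ∑ f ∈ I, (T.filter fun t => part K (num t r) F = f).card :=
    card_eq_sum_card_image _ T
  have hXe : 0 ≤ ((2 ^ (K + 1) * s.2.2 : ℕ) : ℝ) ^ (ε / 2) := by positivity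
  have hXee : ((2 ^ (K + 1) * s.2.2 : ℕ) : ℝ) ^ (ε / 2) *
      ((2 ^ (K + 1) * s.2.2 : ℕ) : ℝ) ^ (ε / 2) = ((2 : ℝ) ^ (K + 1)) ^ ε * (s.2.2 : ℝ) ^ ε := by
    have h0 : (0 : ℝ) < ((2 ^ (K + 1) * s.2.2 : ℕ) : ℝ) := by exact_mod_cast hX1
    rw [← Real.rpow_add h0, add_halves]
    push_cast
    rw [Real.mul_rpow (by positivity) hs0.le]
  calc (T.card : ℝ) = ∑ f ∈ I, ((T.filter fun t => part K (num t r) F = f).card : ℝ) := by
        rw [hsum]; push_cast; rfl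
    _ ≤ ∑ _f ∈ I, 6 * ((D4 * 2 ^ (K + 1) + DO * cc K ^ 10) *
        ((2 ^ (K + 1) * s.2.2 : ℕ) : ℝ) ^ (ε / 2)) * V := sum_le_sum hfib
    _ = (I.card : ℝ) * (6 * ((D4 * 2 ^ (K + 1) + DO * cc K ^ 10) *
        ((2 ^ (K + 1) * s.2.2 : ℕ) : ℝ) ^ (ε / 2)) * V) := by rw [sum_const, nsmul_eq_mul]
    _ ≤ (D4 * ((2 ^ (K + 1) * s.2.2 : ℕ) : ℝ) ^ (ε / 2) *
        (2 ^ (K + 1) * (rd K (num s r) F : ℝ))) * (6 * ((D4 * 2 ^ (K + 1) + DO * cc K ^ 10) *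
        ((2 ^ (K + 1) * s.2.2 : ℕ) : ℝ) ^ (ε / 2)) * V) :=
        mul_le_mul_of_nonneg_right hIcard (by positivity)
    _ = D4 * 2 ^ (K + 1) * (6 * (D4 * 2 ^ (K + 1) + DO * cc K ^ 10)) *
        (((2 ^ (K + 1) * s.2.2 : ℕ) : ℝ) ^ (ε / 2) *
          ((2 ^ (K + 1) * s.2.2 : ℕ) : ℝ) ^ (ε / 2)) * (rd K (num s r) F : ℝ) * V := by ring
    _ = _ := by rw [hXee]; ring

end Pool.Agent.H785R2.ABC
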