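import Mathlib
import Pool.Agent.H785R2.ABC.Defs

/-!
# Final assembly: cells by dyadic signatures
-/

namespace Pool.Agent.H785R2.ABC

open Finset

namespace Fin1

lemma opt_len {K : ℕ} (v w : Fin 3 → Fin (K + 1) → ℝ) (r j : Fin 3) (F : Finset (Fin (K + 1)))
    (o : Opt K) : (o.pieces v w r j F).length ≤ 4 := by
  cases o <;> simp [Opt.pieces]

lemma flatMap_len {α β : Type} (l : List α) (f : α → List β) (n : ℕ)
    (h : ∀ a ∈ l, (f a).length ≤ n) : (l.flatMap f).length ≤ l.length * n := by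
  induction l with
  | nil => simp
  | cons a l ih =>
    rw [List.flatMap_cons, List.length_append, List.length_cons]
    have h1 := h a (by simp)
    have h2 := ih (fun b hb => h b (by simp [hb]))
    rw [Nat.succ_mul]; omega

lemma bnd_len {K : ℕ} (v w : Fin 3 → Fin (K + 1) → ℝ) (b : Bnd K) :
    (b.pieces v w).length ≤ 21 := by
  cases b with
  | M p q r k Sp Sq F => simp [Bnd.pieces]
  | E p q r F op oq =>
    unfold Bnd.pieces
    rw [List.length_cons, List.length_append, List.length_map]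
    have h1 := opt_len v w r p F op
    have h2 := flatMap_len (op.pieces v w r p F)
      (fun a => (oq.pieces v w r q F).map fun b => cost v r F + (a + b) / 2) 4
      (fun a _ => by rw [List.length_map]; exact opt_len v w r q F oq)
    have h3 : (op.pieces v w r p F).length * 4 ≤ 4 * 4 := Nat.mul_le_mul_right _ h1
    omega

lemma list_sum_le (l : List ℝ) (B : ℝ) (h : ∀ x ∈ l, x ≤ B) : l.sum ≤ l.length * B := by
  have := List.sum_le_card_nsmul l B h
  rwa [nsmul_eq_mul] at this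

lemma log_le (X : ℕ) (hX : 1 ≤ X) (η : ℝ) (hη : 0 < η) :
    ((Nat.log 2 X + 1 : ℕ) : ℝ) ≤ (1 + 2 / η) * (X : ℝ) ^ η := by
  have hX' : (1 : ℝ) ≤ X := by exact_mod_cast hX
  have h1 : (Nat.log 2 X : ℝ) * Real.log 2 ≤ Real.log X := by
    have h2 : ((2 ^ Nat.log 2 X : ℕ) : ℝ) ≤ X := by
      exact_mod_cast Nat.pow_log_le_self 2 (by omega)
    have h3 := Real.log_le_log (by positivity) h2
    rwa [Nat.cast_pow, Real.log_pow, Nat.cast_ofNat] at h3
  have h2 : Real.log X ≤ (X : ℝ) ^ η / η := Real.log_le_rpow_div (by linarith) hη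
  have h3 : (1 / 2 : ℝ) ≤ Real.log 2 := by linarith [Real.log_two_gt_d9]
  have h4 : (Nat.log 2 X : ℝ) ≤ 2 * Real.log X := by
    have h0 : (0 : ℝ) ≤ Nat.log 2 X := Nat.cast_nonneg _
    nlinarith
  have h5 : (1 : ℝ) ≤ (X : ℝ) ^ η := Real.one_le_rpow hX' hη.le
  push_cast
  calc (Nat.log 2 X : ℝ) + 1 ≤ 2 * ((X : ℝ) ^ η / η) + (X : ℝ) ^ η := by linarith
    _ = (1 + 2 / η) * (X : ℝ) ^ η := by ring

lemma log_eq_le (x y : ℕ) (hy : 1 ≤ y) (h : Nat.log 2 x = Nat.log 2 y) : x ≤ 2 * y := by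
  have h1 := Nat.lt_pow_succ_log_self (b := 2) (by norm_num) x
  have h2 := Nat.pow_log_le_self 2 (x := y) (by omega)
  rw [h, Nat.pow_succ] at h1
  omega

/-- the signature -/
def sg (K : ℕ) (t : ℕ × ℕ × ℕ) : Fin 3 → Fin (K + 1) → ℕ × ℕ := fun j i =>
  (Nat.log 2 (rd K (num t j) {i}), Nat.log 2 (part K (num t j) {i}))

lemma num_pos {t : ℕ × ℕ × ℕ} (h : IsABCTriple t.1 t.2.1 t.2.2) (j : Fin 3) : 1 ≤ num t j := by
  obtain ⟨h1, h2, h3, _⟩ := h
  unfold num
  split_ifs <;> assumption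

lemma num_le {t : ℕ × ℕ × ℕ} (h : IsABCTriple t.1 t.2.1 t.2.2) (j : Fin 3) : num t j ≤ t.2.2 := by
  obtain ⟨h1, h2, h3, h4, _⟩ := h
  unfold num
  split_ifs <;> omega

lemma cell_of (hF : Basics) (K : ℕ) (T : Finset (ℕ × ℕ × ℕ))
    (habc : ∀ s ∈ T, IsABCTriple s.1 s.2.1 s.2.2) (hle : ∀ s ∈ T, s.1 ≤ s.2.1)
    (hsg : ∀ s ∈ T, ∀ s' ∈ T, sg K s = sg K s') : Cell K T := by
  have hpow : ∀ S : Finset (Fin (K + 1)), 2 ^ S.card ≤ 2 ^ (K + 1) := by
    intro S
    apply Nat.pow_le_pow_right (by norm_num)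
    have := S.card_le_univ
    simpa using this
  refine ⟨habc, hle, ?_, ?_⟩
  · intro s hs s' hs' j S
    have h := hsg s hs s' hs'
    rw [hF.rd_prod K (num s j) S, hF.rd_prod K (num s' j) S]
    calc ∏ i ∈ S, rd K (num s j) {i} ≤ ∏ i ∈ S, 2 * rd K (num s' j) {i} := by
          apply Finset.prod_le_prod' 
          intro i _
          have e : Nat.log 2 (rd K (num s j) {i}) = Nat.log 2 (rd K (num s' j) {i}) :=
            congrArg Prod.fst (congrFun (congrFun h j) i)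
          exact log_eq_le _ _ (hF.rd_pos K _ _) e
      _ = 2 ^ S.card * ∏ i ∈ S, rd K (num s' j) {i} := by
          rw [Finset.prod_mul_distrib, Finset.prod_const]
      _ ≤ _ := Nat.mul_le_mul_right _ (hpow S)
  · intro s hs s' hs' j S
    have h := hsg s hs s' hs'
    rw [hF.part_prod K (num s j) S, hF.part_prod K (num s' j) S]
    calc ∏ i ∈ S, part K (num s j) {i} ≤ ∏ i ∈ S, 2 * part K (num s' j) {i} := by
          apply Finset.prod_le_prod' 
          intro i _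
          have e0 : (sg K s j i).2 = (sg K s' j i).2 := by rw [h]
          have e : Nat.log 2 (part K (num s j) {i}) = Nat.log 2 (part K (num s' j) {i}) := e0
          exact log_eq_le _ _ (hF.part_pos K _ _) e
      _ = 2 ^ S.card * ∏ i ∈ S, part K (num s' j) {i} := by
          rw [Finset.prod_mul_distrib, Finset.prod_const]
      _ ≤ _ := Nat.mul_le_mul_right _ (hpow S)

/-- one cell -/
lemma cell_card (hF : Basics) (hB : StmtBridge) (hP : StmtPoly) (K : ℕ) (lam θ : ℝ)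
    (hθ : 0 ≤ θ) (hC : StmtCert K lam θ) (ε : ℝ) (hε : 0 < ε) :
    ∃ D : ℝ, 0 < D ∧ ∀ X : ℕ, 1 ≤ X → ∀ T : Finset (ℕ × ℕ × ℕ),
      (∀ s ∈ T, IsABCTriple s.1 s.2.1 s.2.2 ∧ s.2.2 ≤ X ∧
        (rad (s.1 * s.2.1 * s.2.2) : ℝ) ≤ (s.2.2 : ℝ) ^ lam ∧ s.1 ≤ s.2.1) →
      (∀ s ∈ T, ∀ s' ∈ T, sg K s = sg K s') → (T.card : ℝ) ≤ D * (X : ℝ) ^ (θ + ε) := by
  obtain ⟨C0, hC0, hcert⟩ := hC
  obtain ⟨D, hD, hbr⟩ := hB K ε hε
  refine ⟨D * (21 * Real.exp (C0 * Real.log 2)), by positivity, ?_⟩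
  intro X hX T hT hsg
  have hX' : (1 : ℝ) ≤ X := by exact_mod_cast hX
  rcases T.eq_empty_or_nonempty with h0 | ⟨s, hs⟩
  · subst h0
    simp only [card_empty, Nat.cast_zero]
    positivity
  · obtain ⟨h1, h2, h3, h4⟩ := hT s hs
    have hcell := cell_of hF K T (fun s hs => (hT s hs).1) (fun s hs => (hT s hs).2.2.2) hsg
    have hc2 : 2 ≤ s.2.2 := by
      obtain ⟨ha, hb, hc, hab, _⟩ := h1
      omega
    have hc : (2 : ℝ) ≤ s.2.2 := by exact_mod_cast hc2
    have hlog : 0 < Real.log s.2.2 := Real.log_pos (by linarith)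
    have hpoly := hP K lam s h1 h4 h3
    obtain ⟨b, hbv, hb⟩ := hcert _ _ _ (div_nonneg (Real.log_nonneg (by norm_num)) hlog.le) hpoly
    have hbound := hbr T hcell s hs b hbv
    have hcp : (0 : ℝ) < s.2.2 := by linarith
    have hsum : ((b.pieces (expV K s) (expW K s)).map fun x => (s.2.2 : ℝ) ^ x).sum ≤
        21 * (Real.exp (C0 * Real.log 2) * (s.2.2 : ℝ) ^ θ) := by
      have h5 : ∀ y ∈ (b.pieces (expV K s) (expW K s)).map (fun x => (s.2.2 : ℝ) ^ x),
          y ≤ Real.exp (C0 * Real.log 2) * (s.2.2 : ℝ) ^ θ := by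
        intro y hy
        rw [List.mem_map] at hy
        obtain ⟨x, hx, rfl⟩ := hy
        have h6 := hb x hx
        calc (s.2.2 : ℝ) ^ x ≤ (s.2.2 : ℝ) ^ (θ + C0 * (Real.log 2 / Real.log s.2.2)) :=
              Real.rpow_le_rpow_of_exponent_le (by linarith) h6
          _ = Real.exp (C0 * Real.log 2) * (s.2.2 : ℝ) ^ θ := by
              rw [Real.rpow_add hcp, mul_comm]
              congr 1
              rw [Real.rpow_def_of_pos hcp]
              congr 1
              field_simp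
      refine (list_sum_le _ _ h5).trans ?_
      rw [List.length_map]
      apply mul_le_mul_of_nonneg_right _ (by positivity)
      exact_mod_cast bnd_len _ _ b
    calc (T.card : ℝ) ≤ D * (s.2.2 : ℝ) ^ ε *
          ((b.pieces (expV K s) (expW K s)).map fun x => (s.2.2 : ℝ) ^ x).sum := hbound
      _ ≤ D * (s.2.2 : ℝ) ^ ε * (21 * (Real.exp (C0 * Real.log 2) * (s.2.2 : ℝ) ^ θ)) :=
          mul_le_mul_of_nonneg_left hsum (by positivity)
      _ = D * (21 * Real.exp (C0 * Real.log 2)) * (s.2.2 : ℝ) ^ (θ + ε) := by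
          rw [Real.rpow_add hcp]; ring
      _ ≤ D * (21 * Real.exp (C0 * Real.log 2)) * (X : ℝ) ^ (θ + ε) := by
          apply mul_le_mul_of_nonneg_left _ (by positivity)
          exact Real.rpow_le_rpow hcp.le (by exact_mod_cast h2) (by linarith)

end Fin1

open Fin1

theorem stmtFinal_of (hF : Basics) (hB : StmtBridge) (hP : StmtPoly) : StmtFinal := by
  classical
  intro K lam θ hθ hC ε hε
  obtain ⟨D, hD, hcell⟩ := cell_card hF hB hP K lam θ hθ hC (ε / 2) (by positivity)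
  set m : ℕ := 2 * ((K + 1) * 3) with hm
  have hmpos : (0 : ℝ) < m := by
    rw [hm]; positivity
  set η : ℝ := ε / 2 / m with hη
  have hηpos : 0 < η := by rw [hη]; positivity
  refine ⟨2 * ((1 + 2 / η) ^ m * D), ?_⟩
  intro X hX
  have hX' : (1 : ℝ) ≤ X := by exact_mod_cast hX
  have hXp : (0 : ℝ) < X := by linarith
  set L := Nat.log 2 X with hL
  -- the finset
  set box : Finset (ℕ × ℕ × ℕ) := range (X + 1) ×ˢ (range (X + 1) ×ˢ range (X + 1)) with hbox
  set A : Finset (ℕ × ℕ × ℕ) := box.filter (fun t => IsABCTriple t.1 t.2.1 t.2.2 ∧ t.2.2 ≤ X ∧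
      (rad (t.1 * t.2.1 * t.2.2) : ℝ) ≤ (t.2.2 : ℝ) ^ lam) with hA
  have hset : {t : ℕ × ℕ × ℕ | IsABCTriple t.1 t.2.1 t.2.2 ∧ t.2.2 ≤ X ∧
      (rad (t.1 * t.2.1 * t.2.2) : ℝ) ≤ (t.2.2 : ℝ) ^ lam} = (A : Set (ℕ × ℕ × ℕ)) := by
    ext t
    simp only [Set.mem_ofPred_eq, hA, coe_filter, hbox, mem_product, mem_range]
    constructor
    · rintro ⟨h1, h2, h3⟩
      refine ⟨?_, h1, h2, h3⟩
      have h1' := h1
      obtain ⟨ha, hb, hc, hab, _⟩ := h1'
      omega
    · rintro ⟨_, h⟩; exact h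
  rw [hset, Set.ncard_coe_finset]
  set A1 := A.filter (fun t => t.1 ≤ t.2.1) with hA1
  have hAm : ∀ t ∈ A, IsABCTriple t.1 t.2.1 t.2.2 ∧ t.2.2 ≤ X ∧
      (rad (t.1 * t.2.1 * t.2.2) : ℝ) ≤ (t.2.2 : ℝ) ^ lam := fun t ht => (mem_filter.1 ht).2
  -- symmetry
  have hsymm : A.card ≤ 2 * A1.card := by
    have h1 : (A.filter (fun t => ¬ t.1 ≤ t.2.1)).card ≤ A1.card := by
      apply card_le_card_of_injOn (fun t => (t.2.1, t.1, t.2.2))
      · intro t ht
        rw [mem_coe, mem_filter] at ht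
        obtain ⟨htA, hlt⟩ := ht
        rw [mem_coe, hA1, mem_filter]
        refine ⟨?_, by simp only; omega⟩
        rw [hA, mem_filter] at htA ⊢
        obtain ⟨hb, ⟨h1, h2, h3, h4, h5, h6, h7⟩, h8, h9⟩ := htA
        rw [hbox, mem_product, mem_product] at hb
        refine ⟨?_, ⟨h2, h1, h3, by simp only; omega, h5.symm, h7, h6⟩, h8, ?_⟩
        · rw [hbox, mem_product, mem_product]
          exact ⟨hb.2.1, hb.1, hb.2.2⟩
        · simp only
          rw [mul_comm t.2.1 t.1]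
          exact h9
      · intro t _ t' _ h
        simp only [Prod.mk.injEq] at h
        exact Prod.ext h.2.1 (Prod.ext h.1 h.2.2)
    have h2 := card_filter_add_card_filter_not (s := A) (fun t => t.1 ≤ t.2.1)
    rw [← hA1] at h2
    omega
  -- signatures
  have hsgle : ∀ t ∈ A1, ∀ j i, (sg K t j i).1 ≤ L ∧ (sg K t j i).2 ≤ L := by
    intro t ht j i
    obtain ⟨h1, h2, _⟩ := hAm t (mem_filter.1 ht).1
    have hn := num_pos h1 j
    have hnX : num t j ≤ X := (num_le h1 j).trans h2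
    constructor
    · change Nat.log 2 (rd K (num t j) {i}) ≤ Nat.log 2 X
      apply Nat.log_mono_right
      have e1 : rd K (num t j) {i} ∣ rad (num t j) := by
        rw [← hF.rd_univ K (num t j)]
        exact hF.rd_dvd K _ _ _ (subset_univ _)
      have e2 : rad (num t j) ∣ num t j := Nat.prod_primeFactors_dvd _
      exact (Nat.le_of_dvd hn (e1.trans e2)).trans hnX
    · change Nat.log 2 (part K (num t j) {i}) ≤ Nat.log 2 X
      apply Nat.log_mono_right
      exact (Nat.le_of_dvd hn (hF.part_dvd K _ _ hn)).trans hnX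
  set sgF : (ℕ × ℕ × ℕ) → (Fin 3 → Fin (K + 1) → Fin (L + 1) × Fin (L + 1)) := fun t j i =>
    (Fin.ofNat (L + 1) (sg K t j i).1, Fin.ofNat (L + 1) (sg K t j i).2) with hsgF
  have hinj : ∀ t ∈ A1, ∀ t' ∈ A1, sgF t = sgF t' → sg K t = sg K t' := by
    intro t ht t' ht' h
    funext j i
    have h1 := congrFun (congrFun h j) i
    simp only [hsgF, Prod.mk.injEq] at h1
    have a1 := hsgle t ht j i
    have a2 := hsgle t' ht' j i
    have b1 := congrArg Fin.val h1.1
    have b2 := congrArg Fin.val h1.2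
    simp only [Fin.ofNat] at b1 b2
    rw [Nat.mod_eq_of_lt (by omega), Nat.mod_eq_of_lt (by omega)] at b1 b2
    exact Prod.ext b1 b2
  have hA1card : (A1.card : ℝ) ≤ ((L + 1 : ℕ) : ℝ) ^ m * (D * (X : ℝ) ^ (θ + ε / 2)) := by
    have h1 := card_eq_sum_card_fiberwise (f := sgF) (s := A1) (t := univ) (fun _ _ => mem_coe.2 (mem_univ _))
    rw [h1]
    push_cast
    calc ∑ σ : (Fin 3 → Fin (K + 1) → Fin (L + 1) × Fin (L + 1)),
          ((A1.filter (fun t => sgF t = σ)).card : ℝ)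
        ≤ ∑ σ : (Fin 3 → Fin (K + 1) → Fin (L + 1) × Fin (L + 1)), D * (X : ℝ) ^ (θ + ε / 2) := by
          apply sum_le_sum
          intro σ _
          apply hcell X hX
          · intro s hs
            rw [mem_filter] at hs
            have h2 := hAm s (mem_filter.1 hs.1).1
            exact ⟨h2.1, h2.2.1, h2.2.2, (mem_filter.1 hs.1).2⟩
          · intro s hs s' hs'
            rw [mem_filter] at hs hs'
            exact hinj s hs.1 s' hs'.1 (hs.2.trans hs'.2.symm)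
      _ = _ := by
          rw [sum_const, nsmul_eq_mul, card_univ]
          congr 1
          simp only [Fintype.card_fun, Fintype.card_prod, Fintype.card_fin]
          have e3 : ((L + 1) * (L + 1)) = (L + 1) ^ 2 := by ring
          rw [e3, ← pow_mul, ← pow_mul, Nat.cast_pow]
          rw [← hm]
          push_cast
          rfl
  have hLb := log_le X hX η hηpos
  have hLm : ((L + 1 : ℕ) : ℝ) ^ m ≤ (1 + 2 / η) ^ m * (X : ℝ) ^ (ε / 2) := by
    calc ((L + 1 : ℕ) : ℝ) ^ m ≤ ((1 + 2 / η) * (X : ℝ) ^ η) ^ m :=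
          pow_le_pow_left₀ (Nat.cast_nonneg _) hLb m
      _ = (1 + 2 / η) ^ m * (X : ℝ) ^ (ε / 2) := by
          rw [mul_pow]
          congr 1
          rw [← Real.rpow_natCast, ← Real.rpow_mul hXp.le]
          congr 1
          rw [hη]; field_simp
  calc (A.card : ℝ) ≤ 2 * A1.card := by exact_mod_cast hsymm
    _ ≤ 2 * (((L + 1 : ℕ) : ℝ) ^ m * (D * (X : ℝ) ^ (θ + ε / 2))) := by linarith
    _ ≤ 2 * (((1 + 2 / η) ^ m * (X : ℝ) ^ (ε / 2)) * (D * (X : ℝ) ^ (θ + ε / 2))) := by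
        apply mul_le_mul_of_nonneg_left _ (by norm_num)
        exact mul_le_mul_of_nonneg_right hLm (by positivity)
    _ = 2 * ((1 + 2 / η) ^ m * D) * (X : ℝ) ^ (θ + ε) := by
        have : (X : ℝ) ^ (θ + ε) = (X : ℝ) ^ (ε / 2) * (X : ℝ) ^ (θ + ε / 2) := by
          rw [← Real.rpow_add hXp]; congr 1; ring
        rw [this]; ring

end Pool.Agent.H785R2.ABC
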