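import Pool.Agent.H785R2.ABC.Defs

/-!
# Module A1, A2: `C ^ ω(n) ≪ n ^ ε`, and the number of `d ≤ X` with given radical is `X ^ o(1)`
-/

namespace Pool.Agent.H785R2.ABC

open Finset

theorem stmtA1 : StmtA1 := by
  intro C hC ε hε
  have hC0 : (0 : ℝ) < C := by linarith
  set P0 : ℕ := ⌈C ^ (1 / ε)⌉₊ with hP0
  refine ⟨C ^ P0, by positivity, ?_⟩
  intro n hn
  have h1 : ∀ p ∈ n.primeFactors,
      C ≤ (if p < P0 then C else 1) * (p : ℝ) ^ ε := by
    intro p hp
    have hp1 : (1 : ℝ) ≤ (p : ℝ) := by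
      exact_mod_cast (Nat.prime_of_mem_primeFactors hp).one_lt.le
    split_ifs with h
    · have : (1 : ℝ) ≤ (p : ℝ) ^ ε := Real.one_le_rpow hp1 hε.le
      nlinarith
    · rw [one_mul]
      have h2 : C ^ (1 / ε) ≤ (p : ℝ) := by
        refine (Nat.le_ceil _).trans ?_
        exact_mod_cast not_lt.mp h
      calc C = (C ^ (1 / ε)) ^ ε := by
            rw [← Real.rpow_mul hC0.le, one_div, inv_mul_cancel₀ hε.ne', Real.rpow_one]
        _ ≤ (p : ℝ) ^ ε := Real.rpow_le_rpow (by positivity) h2 hε.le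
  have h2 : C ^ n.primeFactors.card ≤
      (∏ p ∈ n.primeFactors, (if p < P0 then C else 1)) * ∏ p ∈ n.primeFactors, (p : ℝ) ^ ε := by
    rw [← Finset.prod_mul_distrib, ← Finset.prod_const]
    exact Finset.prod_le_prod (fun _ _ => hC0.le) h1
  have h3 : (∏ p ∈ n.primeFactors, (if p < P0 then C else 1)) ≤ C ^ P0 := by
    rw [Finset.prod_ite, Finset.prod_const, Finset.prod_const_one, mul_one]
    refine pow_le_pow_right₀ hC ?_
    calc (n.primeFactors.filter fun p => p < P0).card ≤ (Finset.range P0).card := by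
          refine Finset.card_le_card ?_
          intro p hp
          rw [Finset.mem_filter] at hp
          exact Finset.mem_range.mpr hp.2
      _ = P0 := Finset.card_range _
  have h4 : ∏ p ∈ n.primeFactors, (p : ℝ) ^ ε ≤ (n : ℝ) ^ ε := by
    rw [Real.finsetProd_rpow _ _ (fun p _ => Nat.cast_nonneg p)]
    refine Real.rpow_le_rpow (Finset.prod_nonneg fun p _ => Nat.cast_nonneg p) ?_ hε.le
    rw [← Nat.cast_prod]
    exact_mod_cast Nat.le_of_dvd hn (Nat.prod_primeFactors_dvd n)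
  refine h2.trans (mul_le_mul h3 h4 (Finset.prod_nonneg fun p _ => by positivity) (by positivity))

theorem primeFactors_rad (d : ℕ) : (rad d).primeFactors = d.primeFactors :=
  Nat.primeFactors_prod fun _ hp => Nat.prime_of_mem_primeFactors hp

theorem rad_pos' (d : ℕ) : 1 ≤ rad d :=
  Finset.prod_pos fun _ hp => (Nat.prime_of_mem_primeFactors hp).pos

theorem rad_le_self {d : ℕ} (hd : 1 ≤ d) : rad d ≤ d :=
  Nat.le_of_dvd hd (Nat.prod_primeFactors_dvd d)

/-- `n ↦ n ^ (-ε)` as a monoid homomorphism -/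
noncomputable def powHom (ε : ℝ) : ℕ →* ℝ where
  toFun n := (n : ℝ) ^ (-ε)
  map_one' := by simp
  map_mul' m n := by
    rw [Nat.cast_mul]
    exact Real.mul_rpow (Nat.cast_nonneg m) (Nat.cast_nonneg n)

theorem powHom_apply (ε : ℝ) (n : ℕ) : powHom ε n = (n : ℝ) ^ (-ε) := rfl

theorem two_rpow_neg_lt {ε : ℝ} (hε : 0 < ε) : (2 : ℝ) ^ (-ε) < 1 := by
  exact Real.rpow_lt_one_of_one_lt_of_neg (by norm_num) (by linarith)

theorem prime_rpow_neg_le {ε : ℝ} (hε : 0 < ε) {p : ℕ} (hp : p.Prime) :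
    (p : ℝ) ^ (-ε) ≤ (2 : ℝ) ^ (-ε) := by
  refine Real.rpow_le_rpow_of_nonpos (by norm_num) ?_ (by linarith)
  exact_mod_cast hp.two_le

/-- Rankin's bound. -/
theorem rankin {ε : ℝ} (hε : 0 < ε) (X g : ℕ) :
    (((Icc 1 X).filter fun d => rad d = g).card : ℝ) ≤
      (X : ℝ) ^ ε * ((1 - (2 : ℝ) ^ (-ε))⁻¹) ^ g.primeFactors.card := by
  classical
  set G := g.primeFactors with hG
  have h2 := two_rpow_neg_lt hε
  have hnorm : ∀ {p : ℕ}, p.Prime → ‖powHom ε p‖ < 1 := by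
    intro p hp
    rw [powHom_apply, Real.norm_of_nonneg (by positivity)]
    exact (prime_rpow_neg_le hε hp).trans_lt h2
  have hsum := (EulerProduct.summable_and_hasSum_factoredNumbers_prod_filter_prime_geometric
    hnorm G).2
  set A := (Icc 1 X).filter fun d => rad d = g with hA
  -- all members of `A` are factored over `G`
  have hmem : ∀ d ∈ A, d ∈ Nat.factoredNumbers G := by
    intro d hd
    rw [hA, Finset.mem_filter, Finset.mem_Icc] at hd
    rw [Nat.mem_factoredNumbers']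
    intro p hp hpd
    rw [hG, ← hd.2, primeFactors_rad]
    exact Nat.mem_primeFactors.mpr ⟨hp, hpd, by omega⟩
  have hle : ∑ d ∈ A, (d : ℝ) ^ (-ε) ≤ ∏ p ∈ G with p.Prime, (1 - powHom ε p)⁻¹ := by
    have h3 := sum_le_hasSum (A.subtype (fun d => d ∈ Nat.factoredNumbers G))
      (fun m _ => by rw [powHom_apply]; positivity) hsum
    have h4 : ∑ d ∈ A.subtype (fun d => d ∈ Nat.factoredNumbers G), powHom ε (d : ℕ) =
        ∑ d ∈ A, powHom ε d :=
      Finset.sum_subtype_of_mem (fun d => powHom ε d) hmem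
    calc ∑ d ∈ A, (d : ℝ) ^ (-ε) = ∑ d ∈ A, powHom ε d := rfl
      _ = ∑ d ∈ A.subtype (fun d => d ∈ Nat.factoredNumbers G), powHom ε (d : ℕ) := h4.symm
      _ ≤ _ := h3
  have hprod : ∏ p ∈ G with p.Prime, (1 - powHom ε p)⁻¹ ≤
      ((1 - (2 : ℝ) ^ (-ε))⁻¹) ^ G.card := by
    have hfil : (G.filter fun p => p.Prime) = G :=
      Finset.filter_true_of_mem fun p hp => Nat.prime_of_mem_primeFactors hp
    rw [hfil, ← Finset.prod_const]
    refine Finset.prod_le_prod ?_ ?_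
    · intro p hp
      have h4 := prime_rpow_neg_le hε (Nat.prime_of_mem_primeFactors hp)
      rw [powHom_apply]
      exact inv_nonneg.mpr (by linarith)
    · intro p hp
      have h4 := prime_rpow_neg_le hε (Nat.prime_of_mem_primeFactors hp)
      rw [powHom_apply]
      exact inv_anti₀ (by linarith) (by linarith)
  have hcard : (A.card : ℝ) ≤ ∑ d ∈ A, (X : ℝ) ^ ε * (d : ℝ) ^ (-ε) := by
    rw [Finset.card_eq_sum_ones, Nat.cast_sum]
    refine Finset.sum_le_sum ?_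
    intro d hd
    rw [hA, Finset.mem_filter, Finset.mem_Icc] at hd
    have hd1 : (0 : ℝ) < (d : ℝ) := by exact_mod_cast hd.1.1
    have hdX : (d : ℝ) ≤ (X : ℝ) := by exact_mod_cast hd.1.2
    rw [Nat.cast_one, Real.rpow_neg hd1.le, ← div_eq_mul_inv, one_le_div (by positivity)]
    exact Real.rpow_le_rpow hd1.le hdX hε.le
  calc (A.card : ℝ) ≤ ∑ d ∈ A, (X : ℝ) ^ ε * (d : ℝ) ^ (-ε) := hcard
    _ = (X : ℝ) ^ ε * ∑ d ∈ A, (d : ℝ) ^ (-ε) := by rw [Finset.mul_sum]
    _ ≤ (X : ℝ) ^ ε * ((1 - (2 : ℝ) ^ (-ε))⁻¹) ^ G.card :=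
        mul_le_mul_of_nonneg_left (hle.trans hprod) (by positivity)

theorem stmtA2 : StmtA2 := by
  intro ε hε
  have hε2 : 0 < ε / 2 := by linarith
  have h2 := two_rpow_neg_lt hε2
  have h0 : 0 < (2 : ℝ) ^ (-(ε / 2)) := by positivity
  set C := (1 - (2 : ℝ) ^ (-(ε / 2)))⁻¹ with hC
  have hC1 : 1 ≤ C := by
    rw [hC]
    exact (one_le_inv₀ (by linarith)).mpr (by linarith)
  obtain ⟨D, hD, h⟩ := stmtA1 C hC1 (ε / 2) hε2
  refine ⟨D, hD, ?_⟩
  intro X hX g
  have hX0 : (0 : ℝ) < (X : ℝ) := by exact_mod_cast hX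
  rcases ((Icc 1 X).filter fun d => rad d = g).eq_empty_or_nonempty with he | ⟨d, hd⟩
  · rw [he, Finset.card_empty, Nat.cast_zero]
    positivity
  · rw [Finset.mem_filter, Finset.mem_Icc] at hd
    have hg1 : 1 ≤ g := hd.2 ▸ rad_pos' d
    have hgX : (g : ℝ) ≤ (X : ℝ) := by
      exact_mod_cast (hd.2 ▸ rad_le_self hd.1.1 : g ≤ d).trans hd.1.2
    calc (((Icc 1 X).filter fun d => rad d = g).card : ℝ)
        ≤ (X : ℝ) ^ (ε / 2) * C ^ g.primeFactors.card := rankin hε2 X g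
      _ ≤ (X : ℝ) ^ (ε / 2) * (D * (g : ℝ) ^ (ε / 2)) :=
          mul_le_mul_of_nonneg_left (h g hg1) (by positivity)
      _ ≤ (X : ℝ) ^ (ε / 2) * (D * (X : ℝ) ^ (ε / 2)) := by
          refine mul_le_mul_of_nonneg_left ?_ (by positivity)
          refine mul_le_mul_of_nonneg_left ?_ hD.le
          exact Real.rpow_le_rpow (Nat.cast_nonneg g) hgX hε2.le
      _ = D * (X : ℝ) ^ ε := by
          rw [show (X : ℝ) ^ ε = (X : ℝ) ^ (ε / 2) * (X : ℝ) ^ (ε / 2) by
            rw [← Real.rpow_add hX0]; congr 1; ring]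
          ring

end Pool.Agent.H785R2.ABC
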