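import Pool.Agent.H785R2.ABC.Defs

/-!
# Module A3, A4, A5: counting integers by radical (helper732)
-/

namespace Pool.Agent.H785R2.ABC

open Finset

theorem A345_rad_pos (n : ℕ) : 1 ≤ rad n :=
  Nat.one_le_iff_ne_zero.mpr (Finset.prod_ne_zero_iff.mpr fun _ hp =>
    (Nat.prime_of_mem_primeFactors hp).ne_zero)

theorem A345_rad_le {n : ℕ} (hn : 1 ≤ n) : rad n ≤ n :=
  Nat.le_of_dvd hn (Nat.prod_primeFactors_dvd n)

theorem A345_harm (ε : ℝ) (hε : 0 < ε) (X : ℕ) (hX : 1 ≤ X) :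
    ∑ m ∈ Icc 1 X, (1 : ℝ) / (m : ℝ) ≤ (1 + 1 / ε) * (X : ℝ) ^ ε := by
  have h1 : ∑ m ∈ Icc 1 X, (1 : ℝ) / (m : ℝ) = ((harmonic X : ℚ) : ℝ) := by
    rw [harmonic_eq_sum_Icc]
    push_cast
    exact Finset.sum_congr rfl fun m _ => by rw [one_div]
  have hX1 : (1 : ℝ) ≤ (X : ℝ) := by exact_mod_cast hX
  have h2 : Real.log (X : ℝ) ≤ (X : ℝ) ^ ε / ε := Real.log_le_rpow_div (by linarith) hε
  have h3 : (1 : ℝ) ≤ (X : ℝ) ^ ε := Real.one_le_rpow hX1 hε.le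
  rw [h1]
  calc ((harmonic X : ℚ) : ℝ) ≤ 1 + Real.log X := harmonic_le_one_add_log X
    _ ≤ (X : ℝ) ^ ε + (X : ℝ) ^ ε / ε := add_le_add h3 h2
    _ = (1 + 1 / ε) * (X : ℝ) ^ ε := by ring

theorem stmtA3_of (h2 : StmtA2) : StmtA3 := by
  intro ε hε
  obtain ⟨D, hD, h⟩ := h2 (ε / 2) (by positivity)
  refine ⟨D * (1 + 1 / (ε / 2)), by positivity, ?_⟩
  intro X hX g hg
  have hX0 : (0 : ℝ) < (X : ℝ) := by exact_mod_cast hX
  have hg0 : (0 : ℝ) < (g : ℝ) := by exact_mod_cast hg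
  have hmaps : ∀ d ∈ (Icc 1 X).filter (fun d => g ∣ rad d), rad d / g ∈ Icc 1 X := by
    intro d hd
    rw [mem_filter, mem_Icc] at hd
    obtain ⟨⟨hd1, hdX⟩, hgd⟩ := hd
    rw [mem_Icc]
    have hr : 1 ≤ rad d := A345_rad_pos d
    have hr' : rad d ≤ d := A345_rad_le hd1
    constructor
    · exact (Nat.one_le_div_iff hg).mpr (Nat.le_of_dvd hr hgd)
    · exact (Nat.div_le_self _ _).trans (hr'.trans hdX)
  rw [← Finset.sum_fiberwise_of_maps_to hmaps]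
  have hfib : ∀ m ∈ Icc 1 X,
      ∑ d ∈ ((Icc 1 X).filter (fun d => g ∣ rad d)).filter (fun d => rad d / g = m),
        (1 : ℝ) / (rad d : ℝ) ≤ (D * (X : ℝ) ^ (ε / 2) / g) * ((1 : ℝ) / (m : ℝ)) := by
    intro m hm
    rw [mem_Icc] at hm
    have hm0 : (0 : ℝ) < (m : ℝ) := by exact_mod_cast hm.1
    have hsub : ((Icc 1 X).filter (fun d => g ∣ rad d)).filter (fun d => rad d / g = m) ⊆
        (Icc 1 X).filter (fun d => rad d = g * m) := by
      intro d hd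
      rw [mem_filter, mem_filter] at hd
      rw [mem_filter]
      refine ⟨hd.1.1, ?_⟩
      rw [← hd.2, Nat.mul_div_cancel' hd.1.2]
    calc ∑ d ∈ ((Icc 1 X).filter (fun d => g ∣ rad d)).filter (fun d => rad d / g = m),
          (1 : ℝ) / (rad d : ℝ)
        ≤ ∑ d ∈ (Icc 1 X).filter (fun d => rad d = g * m), (1 : ℝ) / (rad d : ℝ) :=
          Finset.sum_le_sum_of_subset_of_nonneg hsub fun d _ _ => by positivity
      _ = ∑ d ∈ (Icc 1 X).filter (fun d => rad d = g * m), (1 : ℝ) / ((g : ℝ) * m) := by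
          refine Finset.sum_congr rfl fun d hd => ?_
          rw [mem_filter] at hd
          rw [hd.2]
          push_cast
          rfl
      _ = (((Icc 1 X).filter (fun d => rad d = g * m)).card : ℝ) * ((1 : ℝ) / ((g : ℝ) * m)) := by
          rw [Finset.sum_const, nsmul_eq_mul]
      _ ≤ (D * (X : ℝ) ^ (ε / 2)) * ((1 : ℝ) / ((g : ℝ) * m)) := by
          exact mul_le_mul_of_nonneg_right (h X hX (g * m)) (by positivity)
      _ = (D * (X : ℝ) ^ (ε / 2) / g) * ((1 : ℝ) / (m : ℝ)) := by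
          field_simp
  calc ∑ m ∈ Icc 1 X,
        ∑ d ∈ ((Icc 1 X).filter (fun d => g ∣ rad d)).filter (fun d => rad d / g = m),
          (1 : ℝ) / (rad d : ℝ)
      ≤ ∑ m ∈ Icc 1 X, (D * (X : ℝ) ^ (ε / 2) / g) * ((1 : ℝ) / (m : ℝ)) :=
        Finset.sum_le_sum hfib
    _ = (D * (X : ℝ) ^ (ε / 2) / g) * ∑ m ∈ Icc 1 X, ((1 : ℝ) / (m : ℝ)) := by
        rw [Finset.mul_sum]
    _ ≤ (D * (X : ℝ) ^ (ε / 2) / g) * ((1 + 1 / (ε / 2)) * (X : ℝ) ^ (ε / 2)) :=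
        mul_le_mul_of_nonneg_left (A345_harm (ε / 2) (by positivity) X hX) (by positivity)
    _ = D * (1 + 1 / (ε / 2)) * ((X : ℝ) ^ (ε / 2) * (X : ℝ) ^ (ε / 2)) / g := by ring
    _ = D * (1 + 1 / (ε / 2)) * (X : ℝ) ^ ε / g := by
        rw [← Real.rpow_add hX0, add_halves]

/-- number of `d ≤ X` with `g ∣ rad d` and `rad d ≤ R` -/
theorem A345_count (D ε : ℝ) (X : ℕ) (R : ℝ) (hR : 0 ≤ R) (g : ℕ)
    (h : ∑ d ∈ (Icc 1 X).filter (fun d => g ∣ rad d), (1 : ℝ) / (rad d : ℝ) ≤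
      D * (X : ℝ) ^ ε / g) :
    ((((Icc 1 X).filter fun d => (rad d : ℝ) ≤ R).filter fun d => g ∣ rad d).card : ℝ) ≤
      R * (D * (X : ℝ) ^ ε / g) := by
  calc ((((Icc 1 X).filter fun d => (rad d : ℝ) ≤ R).filter fun d => g ∣ rad d).card : ℝ)
      = ∑ d ∈ ((Icc 1 X).filter fun d => (rad d : ℝ) ≤ R).filter fun d => g ∣ rad d, (1 : ℝ) := by
        simp
    _ ≤ ∑ d ∈ ((Icc 1 X).filter fun d => (rad d : ℝ) ≤ R).filter fun d => g ∣ rad d,
          R * ((1 : ℝ) / (rad d : ℝ)) := by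
        refine Finset.sum_le_sum fun d hd => ?_
        rw [mem_filter, mem_filter] at hd
        have h0 : (0 : ℝ) < (rad d : ℝ) := by exact_mod_cast A345_rad_pos d
        rw [mul_one_div, le_div_iff₀ h0, one_mul]
        exact hd.1.2
    _ ≤ ∑ d ∈ (Icc 1 X).filter (fun d => g ∣ rad d), R * ((1 : ℝ) / (rad d : ℝ)) := by
        refine Finset.sum_le_sum_of_subset_of_nonneg ?_ fun d _ _ => by positivity
        intro d hd
        rw [mem_filter, mem_filter] at hd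
        rw [mem_filter]
        exact ⟨hd.1.1, hd.2⟩
    _ = R * ∑ d ∈ (Icc 1 X).filter (fun d => g ∣ rad d), (1 : ℝ) / (rad d : ℝ) := by
        rw [Finset.mul_sum]
    _ ≤ R * (D * (X : ℝ) ^ ε / g) := mul_le_mul_of_nonneg_left h hR

theorem stmtA4_of (h3 : StmtA3) : StmtA4 := by
  intro ε hε
  obtain ⟨D, hD, h⟩ := h3 ε hε
  refine ⟨D, hD, ?_⟩
  intro X hX R hR
  have h1 := A345_count D ε X R hR 1 (h X hX 1 le_rfl)
  have h2 : (((Icc 1 X).filter fun d => (rad d : ℝ) ≤ R).filter fun d => 1 ∣ rad d) =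
      (Icc 1 X).filter fun d => (rad d : ℝ) ≤ R :=
    Finset.filter_true_of_mem fun d _ => one_dvd _
  rw [h2] at h1
  calc (((Icc 1 X).filter fun d => (rad d : ℝ) ≤ R).card : ℝ)
      ≤ R * (D * (X : ℝ) ^ ε / ((1 : ℕ) : ℝ)) := h1
    _ = D * (X : ℝ) ^ ε * R := by push_cast; ring

theorem stmtA5_of (h3 : StmtA3) : StmtA5 := by
  intro ε hε
  obtain ⟨D, hD, h⟩ := h3 (ε / 3) (by positivity)
  refine ⟨D ^ 2 * (1 + 1 / (ε / 3)), by positivity, ?_⟩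
  intro X hX R hR
  have hX0 : (0 : ℝ) < (X : ℝ) := by exact_mod_cast hX
  set F : Finset ℕ := (Icc 1 X).filter fun d => (rad d : ℝ) ≤ R with hF
  have hgcd : ∀ d ∈ F, ∀ d' ∈ F, (Nat.gcd (rad d) (rad d') : ℝ) ≤
      ∑ g ∈ Icc 1 X, (g : ℝ) * ((if g ∣ rad d then (1 : ℝ) else 0) *
        (if g ∣ rad d' then (1 : ℝ) else 0)) := by
    intro d hd d' _
    rw [hF, mem_filter, mem_Icc] at hd
    have hmem : Nat.gcd (rad d) (rad d') ∈ Icc 1 X := by
      rw [mem_Icc]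
      constructor
      · exact Nat.gcd_pos_of_pos_left _ (A345_rad_pos d)
      · exact (Nat.gcd_le_left _ (A345_rad_pos d)).trans ((A345_rad_le hd.1.1).trans hd.1.2)
    calc (Nat.gcd (rad d) (rad d') : ℝ)
        = (Nat.gcd (rad d) (rad d') : ℝ) *
          ((if Nat.gcd (rad d) (rad d') ∣ rad d then (1 : ℝ) else 0) *
            (if Nat.gcd (rad d) (rad d') ∣ rad d' then (1 : ℝ) else 0)) := by
          rw [if_pos (Nat.gcd_dvd_left _ _), if_pos (Nat.gcd_dvd_right _ _)]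
          ring
      _ ≤ _ := Finset.single_le_sum
          (f := fun g : ℕ => (g : ℝ) * ((if g ∣ rad d then (1 : ℝ) else 0) *
            (if g ∣ rad d' then (1 : ℝ) else 0)))
          (fun g _ => by positivity) hmem
  have hcount : ∀ g ∈ Icc 1 X, ∑ d ∈ F, (if g ∣ rad d then (1 : ℝ) else 0) ≤
      R * (D * (X : ℝ) ^ (ε / 3) / g) := by
    intro g hg
    rw [mem_Icc] at hg
    have h1 := A345_count D (ε / 3) X R hR g (h X hX g hg.1)
    rw [Finset.sum_ite, Finset.sum_const_zero, add_zero, Finset.sum_const, nsmul_eq_mul, mul_one]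
    exact h1
  calc ∑ d ∈ F, ∑ d' ∈ F, (Nat.gcd (rad d) (rad d') : ℝ)
      ≤ ∑ d ∈ F, ∑ d' ∈ F, ∑ g ∈ Icc 1 X, (g : ℝ) * ((if g ∣ rad d then (1 : ℝ) else 0) *
        (if g ∣ rad d' then (1 : ℝ) else 0)) :=
        Finset.sum_le_sum fun d hd => Finset.sum_le_sum fun d' hd' => hgcd d hd d' hd'
    _ = ∑ g ∈ Icc 1 X, (g : ℝ) * ((∑ d ∈ F, (if g ∣ rad d then (1 : ℝ) else 0)) *
        (∑ d' ∈ F, (if g ∣ rad d' then (1 : ℝ) else 0))) := by
        have e1 : ∀ d ∈ F, ∑ d' ∈ F, ∑ g ∈ Icc 1 X, (g : ℝ) *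
            ((if g ∣ rad d then (1 : ℝ) else 0) * (if g ∣ rad d' then (1 : ℝ) else 0)) =
            ∑ g ∈ Icc 1 X, ∑ d' ∈ F, (g : ℝ) *
            ((if g ∣ rad d then (1 : ℝ) else 0) * (if g ∣ rad d' then (1 : ℝ) else 0)) :=
          fun d _ => Finset.sum_comm
        rw [Finset.sum_congr rfl e1, Finset.sum_comm]
        refine Finset.sum_congr rfl fun g _ => ?_
        rw [Finset.sum_mul_sum, Finset.mul_sum]
        refine Finset.sum_congr rfl fun d _ => ?_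
        rw [Finset.mul_sum]
    _ ≤ ∑ g ∈ Icc 1 X, (R ^ 2 * D ^ 2 * ((X : ℝ) ^ (ε / 3)) ^ 2) * ((1 : ℝ) / (g : ℝ)) := by
        refine Finset.sum_le_sum fun g hg => ?_
        have hg1 : (0 : ℝ) < (g : ℝ) := by
          rw [mem_Icc] at hg
          exact_mod_cast hg.1
        have h0 : 0 ≤ ∑ d ∈ F, (if g ∣ rad d then (1 : ℝ) else 0) :=
          Finset.sum_nonneg fun d _ => by positivity
        have h1 := hcount g hg
        calc (g : ℝ) * ((∑ d ∈ F, (if g ∣ rad d then (1 : ℝ) else 0)) *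
              (∑ d' ∈ F, (if g ∣ rad d' then (1 : ℝ) else 0)))
            ≤ (g : ℝ) * ((R * (D * (X : ℝ) ^ (ε / 3) / g)) * (R * (D * (X : ℝ) ^ (ε / 3) / g))) :=
              mul_le_mul_of_nonneg_left (mul_le_mul h1 h1 h0 (by positivity)) hg1.le
          _ = (R ^ 2 * D ^ 2 * ((X : ℝ) ^ (ε / 3)) ^ 2) * ((1 : ℝ) / (g : ℝ)) := by
              field_simp
    _ = (R ^ 2 * D ^ 2 * ((X : ℝ) ^ (ε / 3)) ^ 2) * ∑ g ∈ Icc 1 X, ((1 : ℝ) / (g : ℝ)) := by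
        rw [Finset.mul_sum]
    _ ≤ (R ^ 2 * D ^ 2 * ((X : ℝ) ^ (ε / 3)) ^ 2) * ((1 + 1 / (ε / 3)) * (X : ℝ) ^ (ε / 3)) :=
        mul_le_mul_of_nonneg_left (A345_harm (ε / 3) (by positivity) X hX) (by positivity)
    _ = D ^ 2 * (1 + 1 / (ε / 3)) * (X : ℝ) ^ ε * R ^ 2 := by
        have e : (X : ℝ) ^ ε = (X : ℝ) ^ (ε / 3) * (X : ℝ) ^ (ε / 3) * (X : ℝ) ^ (ε / 3) := by
          rw [← Real.rpow_add hX0, ← Real.rpow_add hX0]
          congr 1
          ring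
        rw [e]
        ring

end Pool.Agent.H785R2.ABC
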