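import Mathlib
import Pool.Agent.H785R2.ABC.Defs

namespace Pool.Agent.H785R2.ABC

namespace ModB

open Subgroup

/-- number of solutions of `x ^ k = 1` in a finite abelian group with a cyclic subgroup of small
index -/
lemma card_pow_one_le {G : Type*} [CommGroup G] [Finite G] (H : Subgroup G) [IsCyclic H]
    (k : ℕ) (hk : 1 ≤ k) :
    Nat.card (powMonoidHom k : G →* G).ker ≤ H.index * k := by
  classical
  set L : Subgroup G := (powMonoidHom k : G →* G).ker with hL
  have h1 : Nat.card (H ⊓ L : Subgroup G) * H.relIndex L = Nat.card L := by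
    have := Subgroup.relIndex_mul_relIndex (H := (⊥ : Subgroup G)) (K := H ⊓ L) (L := L)
      bot_le inf_le_right
    rw [Subgroup.relIndex_bot_left, Subgroup.relIndex_bot_left, Subgroup.inf_relIndex_right] at this
    exact this
  have h2 : Nat.card (H ⊓ L : Subgroup G) ≤ k := by
    have : Fintype H := Fintype.ofFinite H
    have h3 := IsCyclic.card_pow_eq_one_le (α := H) (n := k) (by omega)
    refine le_trans ?_ h3
    rw [← Fintype.card_coe, ← Nat.card_eq_fintype_card]
    refine Nat.card_le_card_of_injective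
      (fun x : (H ⊓ L : Subgroup G) =>
        (⟨⟨x.1, x.2.1⟩, by
          have hx : x.1 ∈ (powMonoidHom k : G →* G).ker := x.2.2
          rw [MonoidHom.mem_ker] at hx
          simp only [Finset.mem_filter, Finset.mem_univ, true_and]
          ext
          simpa using hx⟩ : {x // x ∈ Finset.univ.filter fun a : H => a ^ k = 1})) ?_
    intro x y hxy
    simp only [Subtype.mk.injEq] at hxy
    exact Subtype.ext hxy
  have h3 : H.relIndex L ≤ H.index := by
    apply Nat.le_of_dvd
    · exact Nat.pos_of_ne_zero Subgroup.index_ne_zero_of_finite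
    · exact Subgroup.relIndex_dvd_index_of_normal H L
  calc Nat.card L = Nat.card (H ⊓ L : Subgroup G) * H.relIndex L := h1.symm
    _ ≤ k * H.index := Nat.mul_le_mul h2 h3
    _ = H.index * k := Nat.mul_comm _ _

/-- fibres of the power map are not larger than the kernel -/
lemma ncard_fibre_le {G : Type*} [CommGroup G] [Finite G] (k : ℕ) (u : G) :
    {x : G | x ^ k = u}.ncard ≤ Nat.card (powMonoidHom k : G →* G).ker := by
  rcases Set.eq_empty_or_nonempty {x : G | x ^ k = u} with h | ⟨x₀, hx₀⟩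
  · rw [h]; simp
  · rw [← Nat.card_coe_set_eq]
    refine Nat.card_le_card_of_injective
      (fun x : {x : G | x ^ k = u} => (⟨x.1 * x₀⁻¹, by
        have hx := x.2
        simp only [Set.mem_ofPred_eq] at hx hx₀
        rw [MonoidHom.mem_ker]
        simp [mul_pow, hx, hx₀]⟩ : (powMonoidHom k : G →* G).ker)) ?_
    intro x y hxy
    simp only [Subtype.mk.injEq, mul_left_inj] at hxy
    exact Subtype.ext hxy

/-- the case of a prime power -/
lemma prime_pow_case (p n : ℕ) (hp : p.Prime) (k : ℕ) (hk : 1 ≤ k) :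
    Nat.card (powMonoidHom k : (ZMod (p ^ n))ˣ →* (ZMod (p ^ n))ˣ).ker ≤ 2 * k := by
  have : NeZero (p ^ n) := ⟨pow_ne_zero _ hp.ne_zero⟩
  by_cases hp2 : p = 2
  · subst hp2
    rcases Nat.lt_or_ge n 2 with hn | hn
    · have : IsCyclic (ZMod (2 ^ n))ˣ := (ZMod.isCyclic_units_two_pow_iff n).2 (by omega)
      have := card_pow_one_le (G := (ZMod (2 ^ n))ˣ) ⊤ k hk
      rw [Subgroup.index_top] at this
      omega
    · obtain ⟨m, rfl⟩ := Nat.exists_eq_add_of_le' hn
      have h5 : IsUnit (5 : ZMod (2 ^ (m + 2))) := by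
        have : ((5 : ℕ) : ZMod (2 ^ (m + 2))) = 5 := by norm_num
        rw [← this, ZMod.isUnit_iff_coprime]
        apply Nat.Coprime.pow_right
        norm_num
      obtain ⟨g, hg⟩ := h5
      have hord : orderOf g = 2 ^ m := by
        rw [← orderOf_units, hg, ZMod.orderOf_five]
      have hcard : Nat.card (ZMod (2 ^ (m + 2)))ˣ = 2 * 2 ^ m := by
        rw [Nat.card_eq_fintype_card, ZMod.card_units_eq_totient,
          Nat.totient_prime_pow Nat.prime_two (by omega)]
        rw [show m + 2 - 1 = m + 1 by omega, pow_succ]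
        omega
      have hind : (Subgroup.zpowers g).index = 2 := by
        have h1 := Subgroup.card_mul_index (Subgroup.zpowers g)
        rw [Nat.card_zpowers, hord, hcard, Nat.mul_comm 2] at h1
        exact Nat.eq_of_mul_eq_mul_left (by positivity) h1
      have := card_pow_one_le (Subgroup.zpowers g) k hk
      rwa [hind] at this
  · have : IsCyclic (ZMod (p ^ n))ˣ := ZMod.isCyclic_units_of_prime_pow p hp hp2 n
    have := card_pow_one_le (G := (ZMod (p ^ n))ˣ) ⊤ k hk
    rw [Subgroup.index_top] at this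
    omega

lemma mul_case (a b : ℕ) (ha : a ≠ 0) (hb : b ≠ 0) (hab : Nat.Coprime a b) (k : ℕ) :
    Nat.card (powMonoidHom k : (ZMod (a * b))ˣ →* (ZMod (a * b))ˣ).ker ≤
      Nat.card (powMonoidHom k : (ZMod a)ˣ →* (ZMod a)ˣ).ker *
        Nat.card (powMonoidHom k : (ZMod b)ˣ →* (ZMod b)ˣ).ker := by
    have : NeZero a := ⟨ha⟩
    have : NeZero b := ⟨hb⟩
    let e : (ZMod (a * b))ˣ ≃* (ZMod a)ˣ × (ZMod b)ˣ :=
      (Units.mapEquiv (ZMod.chineseRemainder hab).toMulEquiv).trans MulEquiv.prodUnits
    rw [← Nat.card_prod]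
    refine Nat.card_le_card_of_injective
      (fun x : (powMonoidHom k : (ZMod (a * b))ˣ →* (ZMod (a * b))ˣ).ker =>
        ((⟨(e x.1).1, by
          have hx := x.2
          rw [MonoidHom.mem_ker] at hx ⊢
          have h2 : x.1 ^ k = 1 := hx
          have h3 : (e x.1) ^ k = 1 := by rw [← map_pow, h2, map_one]
          exact congrArg Prod.fst h3⟩ : (powMonoidHom k : (ZMod a)ˣ →* (ZMod a)ˣ).ker),
         (⟨(e x.1).2, by
          have hx := x.2
          rw [MonoidHom.mem_ker] at hx ⊢
          have h2 : x.1 ^ k = 1 := hx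
          have h3 : (e x.1) ^ k = 1 := by rw [← map_pow, h2, map_one]
          exact congrArg Prod.snd h3⟩ : (powMonoidHom k : (ZMod b)ˣ →* (ZMod b)ˣ).ker))) ?_
    intro x y hxy
    simp only [Prod.mk.injEq, Subtype.mk.injEq] at hxy
    have : e x.1 = e y.1 := Prod.ext hxy.1 hxy.2
    exact Subtype.ext (e.injective this)

lemma main (k : ℕ) (hk : 1 ≤ k) (q : ℕ) (hq : 1 ≤ q) :
    Nat.card (powMonoidHom k : (ZMod q)ˣ →* (ZMod q)ˣ).ker ≤ (2 * k) ^ q.primeFactors.card := by
  induction q using Nat.recOnPosPrimePosCoprime with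
  | prime_pow p n hp hn =>
    rw [Nat.primeFactors_prime_pow hn.ne' hp, Finset.card_singleton, pow_one]
    exact prime_pow_case p n hp k hk
  | zero => omega
  | one =>
    have : Subsingleton (ZMod 1)ˣ := by
      refine ⟨fun x y => Units.ext ?_⟩
      exact Subsingleton.elim (α := ZMod 1) _ _
    have h1 : Subsingleton ((powMonoidHom k : (ZMod 1)ˣ →* (ZMod 1)ˣ).ker) := inferInstance
    rw [Nat.primeFactors_one, Finset.card_empty, pow_zero]
    exact Finite.card_le_one_iff_subsingleton.2 h1
  | coprime a b ha hb hab iha ihb =>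
    refine (mul_case a b (by omega) (by omega) hab k).trans ?_
    rw [hab.primeFactors_mul, Finset.card_union_of_disjoint hab.disjoint_primeFactors, pow_add]
    exact Nat.mul_le_mul (iha ha.le) (ihb hb.le)

end ModB

/-- Module B from A1 -/
theorem stmtB_of (hA : StmtA1) : StmtB := by
  intro M ε hε
  obtain ⟨D, hD, h⟩ := hA (2 * (M : ℝ) + 1) (by linarith [(Nat.cast_nonneg M : (0 : ℝ) ≤ M)]) ε hε
  refine ⟨D, hD, fun k hk hkM q hq u => ?_⟩
  have : NeZero q := ⟨by omega⟩
  have h1 : {x : (ZMod q)ˣ | x ^ k = u}.ncard ≤ (2 * k) ^ q.primeFactors.card :=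
    (ModB.ncard_fibre_le k u).trans (ModB.main k hk q hq)
  calc ({x : (ZMod q)ˣ | x ^ k = u}.ncard : ℝ) ≤ (((2 * k) ^ q.primeFactors.card : ℕ) : ℝ) := by
        exact_mod_cast h1
    _ = (2 * (k : ℝ)) ^ q.primeFactors.card := by push_cast; ring
    _ ≤ (2 * (M : ℝ) + 1) ^ q.primeFactors.card := by
        gcongr
        have : (k : ℝ) ≤ M := by exact_mod_cast hkM
        linarith
    _ ≤ D * (q : ℝ) ^ ε := h q hq

end Pool.Agent.H785R2.ABC
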