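import Pool.Agent.H785R2.ABC.Defs

/-! Task F: basic facts on `part`, `rd`, `pf`. -/

namespace Pool.Agent.H785R2.ABC

open Finset

theorem mem_pf_iff {K n : ℕ} {S : Finset (Fin (K + 1))} {p : ℕ} :
    p ∈ pf K n S ↔ p ∈ n.primeFactors ∧ cls K (n.factorization p) ∈ S := mem_filter

theorem pf_prime {K n : ℕ} {S : Finset (Fin (K + 1))} {p : ℕ} (h : p ∈ pf K n S) : p.Prime :=
  Nat.prime_of_mem_primeFactors (mem_pf_iff.1 h).1

theorem pf_fac {K n : ℕ} {S : Finset (Fin (K + 1))} {p : ℕ} (h : p ∈ pf K n S) :
    1 ≤ n.factorization p := by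
  have h1 := (mem_pf_iff.1 h).1
  have h2 := Nat.prime_of_mem_primeFactors h1
  have h3 := Nat.dvd_of_mem_primeFactors h1
  have h4 : n ≠ 0 := (Nat.mem_primeFactors.1 h1).2.2
  exact h2.factorization_pos_of_dvd h4 h3

theorem pf_univ (K n : ℕ) : pf K n univ = n.primeFactors := by
  unfold pf
  simp

theorem cls_lt {K e i : ℕ} (he : 1 ≤ e) (h : min (e - 1) K = i) (hi : i < K) : e = i + 1 := by
  omega

theorem primeFactors_prod_pow' (s : Finset ℕ) (hs : ∀ p ∈ s, p.Prime) (f : ℕ → ℕ)
    (hf : ∀ p ∈ s, 1 ≤ f p) : (∏ p ∈ s, p ^ f p).primeFactors = s := by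
  ext q
  rw [Nat.mem_primeFactors]
  constructor
  · rintro ⟨hq, hd, _⟩
    obtain ⟨p, hp, hqp⟩ := (hq.prime.dvd_finset_prod_iff _).1 hd
    have h1 := hq.dvd_of_dvd_pow hqp
    rw [(Nat.prime_dvd_prime_iff_eq hq (hs p hp)).1 h1]
    exact hp
  · intro hq
    refine ⟨hs q hq, ?_, ?_⟩
    · exact (dvd_pow_self q (by have := hf q hq; omega)).trans
        (Finset.dvd_prod_of_mem (fun p => p ^ f p) hq)
    · exact Finset.prod_ne_zero_iff.2 fun p hp => pow_ne_zero _ (hs p hp).ne_zero

theorem rd_pow_dvd_part {K μ n : ℕ} {S : Finset (Fin (K + 1))}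
    (h : ∀ i ∈ S, μ ≤ (i : ℕ) + 1) : rd K n S ^ μ ∣ part K n S := by
  unfold rd part
  rw [← Finset.prod_pow]
  refine Finset.prod_dvd_prod_of_dvd _ _ fun p hp => ?_
  refine pow_dvd_pow p ?_
  have h1 := h _ (mem_pf_iff.1 hp).2
  have h2 := pf_fac hp
  simp only [cls] at h1
  omega

theorem basics : Basics where
  part_dvd := by
    intro K n S hn
    unfold part pf
    conv_rhs => rw [← Nat.factorization_prod_pow_eq_self (show n ≠ 0 by omega)]
    rw [Finsupp.prod, Nat.support_factorization]
    exact Finset.prod_dvd_prod_of_subset _ _ _ (Finset.filter_subset _ _)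
  part_pos := by
    intro K n S
    exact Finset.prod_pos fun p hp => pow_pos (pf_prime hp).pos _
  rd_pos := by
    intro K n S
    exact Finset.prod_pos fun p hp => (pf_prime hp).pos
  part_mul := by
    intro K n S hn
    unfold part pf
    conv_rhs => rw [← Nat.factorization_prod_pow_eq_self (show n ≠ 0 by omega)]
    rw [Finsupp.prod, Nat.support_factorization,
      ← Finset.prod_filter_mul_prod_filter_not n.primeFactors
        (fun p => cls K (n.factorization p) ∈ S)]
    congr 1
    refine Finset.prod_congr ?_ fun _ _ => rfl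
    ext p
    simp
  rd_mul := by
    intro K n S
    unfold rd rad pf
    rw [← Finset.prod_filter_mul_prod_filter_not n.primeFactors
        (fun p => cls K (n.factorization p) ∈ S)]
    congr 1
    refine Finset.prod_congr ?_ fun _ _ => rfl
    ext p
    simp
  part_univ := by
    intro K n hn
    unfold part
    rw [pf_univ]
    conv_rhs => rw [← Nat.factorization_prod_pow_eq_self (show n ≠ 0 by omega)]
    rw [Finsupp.prod, Nat.support_factorization]
  rd_univ := by
    intro K n
    unfold rd rad
    rw [pf_univ]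
  rad_part := by
    intro K n S _
    unfold rad rd part
    rw [primeFactors_prod_pow' _ (fun p hp => pf_prime hp) _ fun p hp => pf_fac hp]
  rd_prod := by
    intro K n S
    unfold rd
    rw [← Finset.prod_fiberwise_of_maps_to (s := pf K n S) (t := S)
      (g := fun p => cls K (n.factorization p)) (fun p hp => (mem_pf_iff.1 hp).2)]
    refine Finset.prod_congr rfl fun i hi => Finset.prod_congr ?_ fun _ _ => rfl
    ext p
    simp only [mem_filter, mem_pf_iff, mem_singleton]
    constructor
    · rintro ⟨⟨h1, _⟩, h3⟩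
      exact ⟨h1, h3⟩
    · rintro ⟨h1, h3⟩
      exact ⟨⟨h1, h3 ▸ hi⟩, h3⟩
  part_prod := by
    intro K n S
    unfold part
    rw [← Finset.prod_fiberwise_of_maps_to (s := pf K n S) (t := S)
      (g := fun p => cls K (n.factorization p)) (fun p hp => (mem_pf_iff.1 hp).2)]
    refine Finset.prod_congr rfl fun i hi => Finset.prod_congr ?_ fun _ _ => rfl
    ext p
    simp only [mem_filter, mem_pf_iff, mem_singleton]
    constructor
    · rintro ⟨⟨h1, _⟩, h3⟩
      exact ⟨h1, h3⟩
    · rintro ⟨h1, h3⟩
      exact ⟨⟨h1, h3 ▸ hi⟩, h3⟩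
  part_coprime := by
    intro K n S
    unfold part
    refine Nat.Coprime.prod_left fun p hp => Nat.Coprime.prod_right fun q hq => ?_
    refine Nat.Coprime.pow _ _ ((Nat.coprime_primes (pf_prime hp) (pf_prime hq)).2 ?_)
    rintro rfl
    have h1 := (mem_pf_iff.1 hp).2
    have h2 := (mem_pf_iff.1 hq).2
    rw [Finset.mem_compl] at h2
    exact h2 h1
  part_single := by
    intro K n i hi
    unfold part rd
    rw [← Finset.prod_pow]
    refine Finset.prod_congr rfl fun p hp => ?_
    have h1 := (mem_pf_iff.1 hp).2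
    have h2 := pf_fac hp
    rw [mem_singleton] at h1
    have h3 := congrArg Fin.val h1
    simp only [cls] at h3
    rw [show n.factorization p = (i : ℕ) + 1 by omega]
  part_last := by
    intro K n
    refine Nat.le_of_dvd (Finset.prod_pos fun p hp => pow_pos (pf_prime hp).pos _)
      (rd_pow_dvd_part ?_)
    intro i hi
    rw [mem_singleton] at hi
    subst hi
    simp
  power := by
    intro K k n S hn hk hG
    have hdiv : ∀ p ∈ pf K n S, k ∣ n.factorization p := by
      intro p hp
      have h1 := hG _ (mem_pf_iff.1 hp).2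
      have h2 := pf_fac hp
      simp only [cls] at h1
      rcases h1 with h1 | ⟨h1, h3⟩
      · rw [h1]; exact one_dvd _
      · rwa [show min (n.factorization p - 1) K + 1 = n.factorization p by omega] at h3
    refine ⟨∏ p ∈ pf K n S, p ^ (n.factorization p / k), ?_, ?_, ?_⟩
    · unfold part
      rw [← Finset.prod_pow]
      refine Finset.prod_congr rfl fun p hp => ?_
      rw [← pow_mul, Nat.div_mul_cancel (hdiv p hp)]
    · refine primeFactors_prod_pow' _ (fun p hp => pf_prime hp) _ fun p hp => ?_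
      exact Nat.div_pos (Nat.le_of_dvd (pf_fac hp) (hdiv p hp)) hk
    · exact Finset.prod_pos fun p hp => pow_pos (pf_prime hp).pos _
  gcd_pow := by
    intro K μ n m S hn hm h
    have key : ∀ n' : ℕ, 1 ≤ n' → part K n' S ∣ n' := by
      intro n' hn'
      unfold part pf
      conv_rhs => rw [← Nat.factorization_prod_pow_eq_self (show n' ≠ 0 by omega)]
      rw [Finsupp.prod, Nat.support_factorization]
      exact Finset.prod_dvd_prod_of_subset _ _ _ (Finset.filter_subset _ _)
    refine Nat.dvd_gcd ?_ ?_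
    · exact (pow_dvd_pow_of_dvd (Nat.gcd_dvd_left _ _) μ).trans
        ((rd_pow_dvd_part h).trans (key n hn))
    · exact (pow_dvd_pow_of_dvd (Nat.gcd_dvd_right _ _) μ).trans
        ((rd_pow_dvd_part h).trans (key m hm))
  rd_dvd := by
    intro K n S S' hS
    unfold rd
    refine Finset.prod_dvd_prod_of_subset _ _ _ fun p hp => ?_
    rw [mem_pf_iff] at hp ⊢
    exact ⟨hp.1, hS hp.2⟩

end Pool.Agent.H785R2.ABC
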