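import Mathlib
import Pool.Agent.H785R2.ABC.Defs

/-!
# Module D: coprime solutions of `x ^ k = c * y ^ k` modulo `f`
-/

namespace Pool.Agent.H785R2.ABC

open Finset

theorem stmtD_of (hB : StmtB) (hC : StmtC) : StmtD := by
  classical
  intro M ε hε
  obtain ⟨D, hD, hB'⟩ := hB M ε hε
  refine ⟨D, hD, ?_⟩
  intro k hk hkM f hf c hc Y ξ δ hY hξ hδ T hT
  have : NeZero f := ⟨by omega⟩
  obtain ⟨u, rfl⟩ := hc
  let g : ℕ × ℕ → (ZMod f)ˣ := fun t =>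
    if h : Nat.Coprime t.1 f ∧ Nat.Coprime t.2 f then
      ZMod.unitOfCoprime t.1 h.1 * (ZMod.unitOfCoprime t.2 h.2)⁻¹ else 1
  have hg : ∀ t ∈ T, ∃ a b : (ZMod f)ˣ, (a : ZMod f) = (t.1 : ZMod f) ∧
      (b : ZMod f) = (t.2 : ZMod f) ∧ g t = a * b⁻¹ := by
    intro t ht
    obtain ⟨_, _, _, h4, h5, _⟩ := hT t ht
    refine ⟨ZMod.unitOfCoprime t.1 h4, ZMod.unitOfCoprime t.2 h5,
      ZMod.coe_unitOfCoprime _ _, ZMod.coe_unitOfCoprime _ _, ?_⟩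
    exact dif_pos ⟨h4, h5⟩
  have hfin : ({x : (ZMod f)ˣ | x ^ k = u} : Set (ZMod f)ˣ).Finite := Set.toFinite _
  have hmap : ∀ t ∈ T, g t ∈ hfin.toFinset := by
    intro t ht
    obtain ⟨a, b, ha, hb, hab⟩ := hg t ht
    rw [Set.Finite.mem_toFinset]
    show (g t) ^ k = u
    rw [hab, mul_pow, inv_pow, mul_inv_eq_iff_eq_mul]
    apply Units.ext
    rw [Units.val_pow_eq_pow_val, Units.val_mul, Units.val_pow_eq_pow_val, ha, hb]
    exact (hT t ht).2.2.2.2.2.1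
  have hfib : ∀ ρ ∈ hfin.toFinset, (((T.filter fun t => g t = ρ).card : ℕ) : ℝ) ≤
      1 + ξ * δ * Y ^ 2 / f := by
    intro ρ _
    refine hC f hf (ρ : ZMod f) _ Y ξ δ hY hξ hδ ?_
    intro t ht
    rw [Finset.mem_filter] at ht
    obtain ⟨h1, h2, h3, _, _, _, h7, h8, h9⟩ := hT t ht.1
    obtain ⟨a, b, ha, hb, hab⟩ := hg t ht.1
    refine ⟨h1, h2, h3, ?_, h7, h8, h9⟩
    rw [← ha, ← hb, ← ht.2, hab, ← Units.val_mul, inv_mul_cancel_right]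
  have h1 : (T.card : ℝ) ≤ (hfin.toFinset.card : ℝ) * (1 + ξ * δ * Y ^ 2 / f) := by
    rw [Finset.card_eq_sum_card_fiberwise (f := g) (t := hfin.toFinset) hmap]
    push_cast
    refine (Finset.sum_le_sum hfib).trans ?_
    rw [Finset.sum_const, nsmul_eq_mul]
  refine h1.trans ?_
  have h0 : 0 ≤ 1 + ξ * δ * Y ^ 2 / f := by positivity
  refine mul_le_mul_of_nonneg_right ?_ h0
  have h2 := hB' k hk hkM f hf u
  rwa [Set.ncard_eq_toFinset_card _ hfin] at h2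

end Pool.Agent.H785R2.ABC
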