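import Pool.Agent.H785R2.ABC.Defs

/-! # Module M1 -/

namespace Pool.Agent.H785R2.ABC

open Finset

namespace M1

/-- real inequality: comparison of `k`-th roots -/
lemma le_of_pow {a b : ℝ} (hb : 0 ≤ b) {k : ℕ} (hk : 1 ≤ k) (h : a ^ k ≤ b ^ k) : a ≤ b :=
  le_of_pow_le_pow_left₀ (by omega) hb h

lemma root_pow {x : ℝ} (hx : 0 ≤ x) {k : ℕ} (hk : 1 ≤ k) : (x ^ ((1 : ℝ) / k)) ^ k = x := by
  rw [one_div]
  exact Real.rpow_inv_natCast_pow hx (by omega)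

lemma root_nonneg {x : ℝ} (hx : 0 ≤ x) (k : ℕ) : 0 ≤ x ^ ((1 : ℝ) / k) := Real.rpow_nonneg hx _

/-- the bound for one fibre -/
lemma fibre (hF : Basics) {K k : ℕ} (hk : 1 ≤ k) (hkK : k ≤ K + 1) {ε D₂ : ℝ} (hD₂ : 0 < D₂)
    (hε : 0 < ε)
    (hD : ∀ k : ℕ, 1 ≤ k → k ≤ K + 1 → ∀ f : ℕ, 1 ≤ f →
      ∀ c : ZMod f, IsUnit c → ∀ Y ξ δ : ℝ, 0 ≤ Y → 0 < ξ → 0 ≤ δ → ∀ T : Finset (ℕ × ℕ),
      (∀ t ∈ T, 0 < t.1 ∧ 0 < t.2 ∧ Nat.Coprime t.1 t.2 ∧ Nat.Coprime t.1 f ∧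
        Nat.Coprime t.2 f ∧ (t.1 : ZMod f) ^ k = c * (t.2 : ZMod f) ^ k ∧
        (t.2 : ℝ) ≤ Y ∧ ξ * t.2 ≤ t.1 ∧ (t.1 : ℝ) ≤ ξ * (1 + δ) * t.2) →
      (T.card : ℝ) ≤ D₂ * (f : ℝ) ^ ε * (1 + ξ * δ * Y ^ 2 / f))
    {κ : ℝ} (hκ : 1 ≤ κ) {X f : ℕ} (hf : 1 ≤ f) (hfX : f ≤ X) {σ : ZMod f}
    (hσ : IsUnit σ) {S S' : Finset (Fin (K + 1))} (hS : Good K k S) (hS' : Good K k S')
    {A A' ρ δ : ℝ} (hA : 0 < A) (hA' : 0 < A') (hρ : 0 < ρ) (hδ : 0 ≤ δ) (d d' : ℕ)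
    (P : Finset (ℕ × ℕ))
    (hP : ∀ t ∈ P, part K t.1 Sᶜ = d ∧ part K t.2 S'ᶜ = d' ∧ 1 ≤ t.1 ∧ 1 ≤ t.2 ∧
      Nat.Coprime t.1 t.2 ∧ Nat.Coprime t.1 f ∧ Nat.Coprime t.2 f ∧
      (t.1 : ZMod f) = σ * (t.2 : ZMod f) ∧
      (part K t.1 S : ℝ) ≤ A ∧ (part K t.2 S' : ℝ) ≤ A' ∧ A' ≤ κ * part K t.2 S' ∧
      ρ * t.2 ≤ t.1 ∧ (t.1 : ℝ) ≤ ρ * (1 + δ) * t.2) :
    (P.card : ℝ) ≤ D₂ * (X : ℝ) ^ ε * (κ * (1 + δ * (A * A') ^ ((1 : ℝ) / k) / f)) := by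
  classical
  have hfR : (0 : ℝ) < f := by exact_mod_cast hf
  have hXR : (0 : ℝ) < X := by exact_mod_cast (lt_of_lt_of_le hf hfX)
  rcases P.eq_empty_or_nonempty with hE | ⟨t₁, ht₁⟩
  · rw [hE, Finset.card_empty, Nat.cast_zero]
    have := Real.rpow_nonneg (mul_pos hA hA').le ((1 : ℝ) / k)
    positivity
  -- the k-th roots
  have hex : ∀ n : ℕ, ∃ x : ℕ, 1 ≤ n → x ^ k = part K n S ∧ 1 ≤ x := by
    intro n
    by_cases hn : 1 ≤ n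
    · obtain ⟨x, h1, -, h3⟩ := hF.power K k n S hn hk hS
      exact ⟨x, fun _ => ⟨h1, h3⟩⟩
    · exact ⟨1, fun h => absurd h hn⟩
  have hey : ∀ n : ℕ, ∃ x : ℕ, 1 ≤ n → x ^ k = part K n S' ∧ 1 ≤ x := by
    intro n
    by_cases hn : 1 ≤ n
    · obtain ⟨x, h1, -, h3⟩ := hF.power K k n S' hn hk hS'
      exact ⟨x, fun _ => ⟨h1, h3⟩⟩
    · exact ⟨1, fun h => absurd h hn⟩
  choose x hx using hex
  choose y hy using hey
  -- basic facts on members of `P`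
  have key : ∀ t ∈ P, x t.1 ^ k * d = t.1 ∧ y t.2 ^ k * d' = t.2 ∧ 1 ≤ x t.1 ∧ 1 ≤ y t.2 ∧
      x t.1 ∣ t.1 ∧ y t.2 ∣ t.2 ∧ d ∣ t.1 ∧ d' ∣ t.2 := by
    intro t ht
    obtain ⟨h1, h2, h3, h4, -⟩ := hP t ht
    obtain ⟨hx1, hx2⟩ := hx t.1 h3
    obtain ⟨hy1, hy2⟩ := hy t.2 h4
    have e1 : x t.1 ^ k * d = t.1 := by rw [hx1, ← h1]; exact hF.part_mul K _ S h3
    have e2 : y t.2 ^ k * d' = t.2 := by rw [hy1, ← h2]; exact hF.part_mul K _ S' h4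
    refine ⟨e1, e2, hx2, hy2, ?_, ?_, ?_, ?_⟩
    · exact (dvd_pow_self _ (by omega)).trans ⟨d, e1.symm⟩
    · exact (dvd_pow_self _ (by omega)).trans ⟨d', e2.symm⟩
    · exact ⟨x t.1 ^ k, by rw [mul_comm]; exact e1.symm⟩
    · exact ⟨y t.2 ^ k, by rw [mul_comm]; exact e2.symm⟩
  -- the set of pairs of roots
  set T : Finset (ℕ × ℕ) := P.image fun t => (x t.1, y t.2) with hT
  have hcard : T.card = P.card := by
    apply Finset.card_image_of_injOn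
    intro t ht t' ht' htt
    obtain ⟨a1, a2, -⟩ := key t ht
    obtain ⟨b1, b2, -⟩ := key t' ht'
    have h1 : x t.1 = x t'.1 := congrArg Prod.fst htt
    have h2 : y t.2 = y t'.2 := congrArg Prod.snd htt
    apply Prod.ext
    · rw [← a1, ← b1, h1]
    · rw [← a2, ← b2, h2]
  obtain ⟨p1, p2, p3, p4, p5, p6, p7, p8, p9, p10, p11, p12, p13⟩ := hP t₁ ht₁
  obtain ⟨k1, k2, k3, k4, k5, k6, k7, k8⟩ := key t₁ ht₁
  have hd0 : 0 < d := Nat.pos_of_ne_zero fun h => by rw [h, mul_zero] at k1; omega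
  have hd'0 : 0 < d' := Nat.pos_of_ne_zero fun h => by rw [h, mul_zero] at k2; omega
  have hdf : Nat.Coprime d f := Nat.Coprime.coprime_dvd_left k7 p6
  have hd'f : Nat.Coprime d' f := Nat.Coprime.coprime_dvd_left k8 p7
  have hud : IsUnit (d : ZMod f) := (ZMod.isUnit_iff_coprime d f).2 hdf
  have hud' : IsUnit (d' : ZMod f) := (ZMod.isUnit_iff_coprime d' f).2 hd'f
  obtain ⟨ud, hud2⟩ := hud
  set c : ZMod f := σ * (d' : ZMod f) * ((ud⁻¹ : (ZMod f)ˣ) : ZMod f) with hc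
  have hcu : IsUnit c := (hσ.mul hud').mul (ud⁻¹).isUnit
  have hdR : (0 : ℝ) < d := by exact_mod_cast hd0
  have hd'R : (0 : ℝ) < d' := by exact_mod_cast hd'0
  set ξ : ℝ := (ρ * d' / d) ^ ((1 : ℝ) / k) with hξ
  have hq : 0 < ρ * d' / d := by positivity
  have hξ0 : 0 < ξ := Real.rpow_pos_of_pos hq _
  have hξk : ξ ^ k = ρ * d' / d := root_pow hq.le hk
  set Y : ℝ := A' ^ ((1 : ℝ) / k) with hY
  have hY0 : 0 ≤ Y := root_nonneg hA'.le k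
  have hYk : Y ^ k = A' := root_pow hA'.le hk
  have hδ1 : (1 : ℝ) ≤ 1 + δ := by linarith
  -- real inequalities for members of `P`
  have hreal : ∀ t ∈ P, (y t.2 : ℝ) ≤ Y ∧ ξ * y t.2 ≤ x t.1 ∧
      (x t.1 : ℝ) ≤ ξ * (1 + δ) * y t.2 ∧ (x t.1 : ℝ) ≤ A ^ ((1 : ℝ) / k) := by
    intro t ht
    obtain ⟨-, -, q3, q4, -, -, -, -, q9, q10, -, q12, q13⟩ := hP t ht
    obtain ⟨a1, a2, -⟩ := key t ht
    obtain ⟨hx1, -⟩ := hx t.1 q3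
    obtain ⟨hy1, -⟩ := hy t.2 q4
    have e1 : (x t.1 : ℝ) ^ k * d = t.1 := by exact_mod_cast a1
    have e2 : (y t.2 : ℝ) ^ k * d' = t.2 := by exact_mod_cast a2
    have e3 : (x t.1 : ℝ) ^ k ≤ A := by
      have : ((x t.1 ^ k : ℕ) : ℝ) ≤ A := by rw [hx1]; exact q9
      exact_mod_cast this
    have e4 : (y t.2 : ℝ) ^ k ≤ A' := by
      have : ((y t.2 ^ k : ℕ) : ℝ) ≤ A' := by rw [hy1]; exact q10
      exact_mod_cast this
    refine ⟨?_, ?_, ?_, ?_⟩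
    · apply le_of_pow hY0 hk
      rw [hYk]
      exact e4
    · apply le_of_pow (Nat.cast_nonneg _) hk
      rw [mul_pow, hξk]
      have h1 : ρ * (d' : ℝ) / d * (y t.2 : ℝ) ^ k = ρ * ((y t.2 : ℝ) ^ k * d') / d := by ring
      rw [h1, e2, div_le_iff₀ hdR, e1]
      exact q12
    · apply le_of_pow (by positivity) hk
      rw [mul_pow, mul_pow, hξk]
      have h1 : ρ * (d' : ℝ) / d * (1 + δ) ^ k * (y t.2 : ℝ) ^ k =
          ρ * (1 + δ) ^ k * ((y t.2 : ℝ) ^ k * d') / d := by ring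
      rw [h1, e2, le_div_iff₀ hdR, e1]
      refine q13.trans ?_
      have h2 : (1 + δ) ≤ (1 + δ) ^ k := le_self_pow₀ hδ1 (by omega)
      have h3 : (0 : ℝ) ≤ t.2 := Nat.cast_nonneg _
      exact mul_le_mul_of_nonneg_right (mul_le_mul_of_nonneg_left h2 hρ.le) h3
    · apply le_of_pow (root_nonneg hA.le k) hk
      rw [root_pow hA.le hk]
      exact e3
  have hTD := hD k hk hkK f hf c hcu Y ξ δ hY0 hξ0 hδ T (by
    intro t ht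
    rw [hT, Finset.mem_image] at ht
    obtain ⟨s, hs, rfl⟩ := ht
    obtain ⟨q1, q2, q3, q4, q5, q6, q7, q8, -⟩ := hP s hs
    obtain ⟨a1, a2, a3, a4, a5, a6, a7, a8⟩ := key s hs
    obtain ⟨r1, r2, r3, -⟩ := hreal s hs
    refine ⟨a3, a4, ?_, ?_, ?_, ?_, r1, r2, r3⟩
    · exact Nat.Coprime.coprime_dvd_left a5 (Nat.Coprime.coprime_dvd_right a6 q5)
    · exact Nat.Coprime.coprime_dvd_left a5 q6
    · exact Nat.Coprime.coprime_dvd_left a6 q7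
    · change (x s.1 : ZMod f) ^ k = c * (y s.2 : ZMod f) ^ k
      have e1 : (x s.1 : ZMod f) ^ k * (d : ZMod f) = (s.1 : ZMod f) := by
        rw [← a1]; push_cast; rw [a1]
      have e2 : (y s.2 : ZMod f) ^ k * (d' : ZMod f) = (s.2 : ZMod f) := by
        rw [← a2]; push_cast; rw [a2]
      have e3 : (x s.1 : ZMod f) ^ k * (d : ZMod f) =
          σ * ((y s.2 : ZMod f) ^ k * (d' : ZMod f)) := by rw [e1, e2, q8]
      rw [← hud2] at e3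
      have e4 : (x s.1 : ZMod f) ^ k = (x s.1 : ZMod f) ^ k * (ud : ZMod f) *
          ((ud⁻¹ : (ZMod f)ˣ) : ZMod f) := by
        rw [mul_assoc, Units.mul_inv, mul_one]
      rw [e4, e3, hc]
      ring)
  rw [hcard] at hTD
  refine hTD.trans ?_
  obtain ⟨r1, r2, r3, r4⟩ := hreal t₁ ht₁
  have hYκ : Y ≤ κ * y t₁.2 := by
    apply le_of_pow (by positivity) hk
    rw [hYk, mul_pow]
    obtain ⟨hy1, -⟩ := hy t₁.2 p4
    have e5 : ((y t₁.2 : ℝ)) ^ k = part K t₁.2 S' := by exact_mod_cast hy1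
    rw [e5]
    refine p11.trans ?_
    have h2 : κ ≤ κ ^ k := le_self_pow₀ hκ (by omega)
    exact mul_le_mul_of_nonneg_right h2 (Nat.cast_nonneg _)
  have hmain : ξ * Y ^ 2 ≤ κ * (A * A') ^ ((1 : ℝ) / k) := by
    rw [Real.mul_rpow hA.le hA'.le]
    calc ξ * Y ^ 2 = ξ * Y * Y := by ring
      _ ≤ ξ * (κ * y t₁.2) * Y :=
          mul_le_mul_of_nonneg_right (mul_le_mul_of_nonneg_left hYκ hξ0.le) hY0
      _ = κ * (ξ * y t₁.2) * Y := by ring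
      _ ≤ κ * (x t₁.1) * Y :=
          mul_le_mul_of_nonneg_right (mul_le_mul_of_nonneg_left r2 (by linarith)) hY0
      _ ≤ κ * (A ^ ((1 : ℝ) / k)) * Y :=
          mul_le_mul_of_nonneg_right (mul_le_mul_of_nonneg_left r4 (by linarith)) hY0
      _ = κ * (A ^ ((1 : ℝ) / k) * A' ^ ((1 : ℝ) / k)) := by rw [hY]; ring
  have hE0 : 0 ≤ (A * A') ^ ((1 : ℝ) / k) := Real.rpow_nonneg (mul_pos hA hA').le _
  have h5 : 1 + ξ * δ * Y ^ 2 / f ≤ κ * (1 + δ * (A * A') ^ ((1 : ℝ) / k) / f) := by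
    have h6 : ξ * δ * Y ^ 2 / f ≤ κ * (δ * (A * A') ^ ((1 : ℝ) / k) / f) := by
      rw [← mul_div_assoc]
      apply div_le_div_of_nonneg_right _ hfR.le
      calc ξ * δ * Y ^ 2 = δ * (ξ * Y ^ 2) := by ring
        _ ≤ δ * (κ * (A * A') ^ ((1 : ℝ) / k)) := mul_le_mul_of_nonneg_left hmain hδ
        _ = κ * (δ * (A * A') ^ ((1 : ℝ) / k)) := by ring
    rw [mul_add, mul_one]
    linarith
  have h7 : (f : ℝ) ^ ε ≤ (X : ℝ) ^ ε :=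
    Real.rpow_le_rpow hfR.le (by exact_mod_cast hfX) hε.le
  have h8 : 0 ≤ 1 + ξ * δ * Y ^ 2 / f := by positivity
  calc D₂ * (f : ℝ) ^ ε * (1 + ξ * δ * Y ^ 2 / f)
      ≤ D₂ * (X : ℝ) ^ ε * (1 + ξ * δ * Y ^ 2 / f) :=
        mul_le_mul_of_nonneg_right (mul_le_mul_of_nonneg_left h7 hD₂.le) h8
    _ ≤ _ := mul_le_mul_of_nonneg_left h5 (by positivity)

end M1

open M1 in
theorem stmtM1_of (hF : Basics) (hA4 : StmtA4) (hD : StmtD) : StmtM1 := by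
  classical
  intro K ε hε κ hκ
  obtain ⟨D₁, hD₁, h1⟩ := hA4 (ε / 3) (by positivity)
  obtain ⟨D₂, hD₂, h2⟩ := hD (K + 1) (ε / 3) (by positivity)
  refine ⟨D₁ * D₁ * (D₂ * κ), by positivity, ?_⟩
  intro k hk hkK X f hX hf hfX σ hσ S S' hS hS' A A' R R' ρ δ hA hA' hR hR' hρ hδ P hP
  have hfR : (0 : ℝ) < f := by exact_mod_cast hf
  have hXR : (0 : ℝ) < X := by exact_mod_cast hX
  set G : ℝ → Finset ℕ := fun R => (Icc 1 X).filter fun d => (rad d : ℝ) ≤ R with hG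
  have hmaps : ∀ t ∈ P, ((part K t.1 Sᶜ, part K t.2 S'ᶜ) : ℕ × ℕ) ∈ (G R) ×ˢ (G R') := by
    intro t ht
    obtain ⟨q1, q2, q3, q4, -, -, -, -, -, -, -, q12, q13, -⟩ := hP t ht
    rw [Finset.mem_product, hG, Finset.mem_filter, Finset.mem_filter, Finset.mem_Icc,
      Finset.mem_Icc]
    refine ⟨⟨⟨hF.part_pos K _ _, ?_⟩, ?_⟩, ⟨⟨hF.part_pos K _ _, ?_⟩, ?_⟩⟩
    · exact (Nat.le_of_dvd q1 (hF.part_dvd K _ _ q1)).trans q2
    · change (rad (part K t.1 Sᶜ) : ℝ) ≤ R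
      rw [hF.rad_part K _ _ q1]
      exact q12
    · exact (Nat.le_of_dvd q3 (hF.part_dvd K _ _ q3)).trans q4
    · change (rad (part K t.2 S'ᶜ) : ℝ) ≤ R'
      rw [hF.rad_part K _ _ q3]
      exact q13
  set B : ℝ := D₂ * (X : ℝ) ^ (ε / 3) * (κ * (1 + δ * (A * A') ^ ((1 : ℝ) / k) / f)) with hB
  have hE0 : 0 ≤ (A * A') ^ ((1 : ℝ) / k) := Real.rpow_nonneg (mul_pos hA hA').le _
  have hB0 : 0 ≤ B := by positivity
  have hfib : ∀ b ∈ (G R) ×ˢ (G R'),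
      ((P.filter fun t => ((part K t.1 Sᶜ, part K t.2 S'ᶜ) : ℕ × ℕ) = b).card : ℝ) ≤ B := by
    intro b _
    apply fibre hF hk hkK hD₂ (by positivity) h2 hκ hf hfX hσ hS hS' hA hA' hρ hδ b.1 b.2
    intro t ht
    rw [Finset.mem_filter] at ht
    obtain ⟨q1, q2, q3, q4, q5, q6, q7, q8, q9, q10, q11, q12, q13, q14, q15⟩ := hP t ht.1
    exact ⟨congrArg Prod.fst ht.2, congrArg Prod.snd ht.2, q1, q3, q5, q6, q7, q8, q9, q10, q11,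
      q14, q15⟩
  have hsum : (P.card : ℝ) ≤ ((G R).card : ℝ) * (G R').card * B := by
    rw [Finset.card_eq_sum_card_fiberwise hmaps, Nat.cast_sum]
    refine (Finset.sum_le_sum hfib).trans ?_
    rw [Finset.sum_const, nsmul_eq_mul, Finset.card_product]
    push_cast
    exact le_refl _
  have hG1 : ((G R).card : ℝ) ≤ D₁ * (X : ℝ) ^ (ε / 3) * R := h1 X hX R hR
  have hG2 : ((G R').card : ℝ) ≤ D₁ * (X : ℝ) ^ (ε / 3) * R' := h1 X hX R' hR'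
  refine hsum.trans ?_
  have h3 : ((G R).card : ℝ) * (G R').card ≤
      (D₁ * (X : ℝ) ^ (ε / 3) * R) * (D₁ * (X : ℝ) ^ (ε / 3) * R') :=
    mul_le_mul hG1 hG2 (Nat.cast_nonneg _) (by positivity)
  refine (mul_le_mul_of_nonneg_right h3 hB0).trans (le_of_eq ?_)
  have h4 : (X : ℝ) ^ ε = (X : ℝ) ^ (ε / 3) * (X : ℝ) ^ (ε / 3) * (X : ℝ) ^ (ε / 3) := by
    rw [← Real.rpow_add hXR, ← Real.rpow_add hXR]
    congr 1
    ring
  rw [hB, h4]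
  ring

end Pool.Agent.H785R2.ABC
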