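import Pool.Agent.H785R2.ABC.Defs

/-!
# Module MC: the M bound for cells (helper128)
-/

namespace Pool.Agent.H785R2.ABC

open Finset

namespace McellAux

lemma num_pos {s : ℕ × ℕ × ℕ} (h : IsABCTriple s.1 s.2.1 s.2.2) (j : Fin 3) : 1 ≤ num s j := by
  obtain ⟨ha, hb, hc, -⟩ := h
  unfold num
  split_ifs <;> omega

lemma num_le {s : ℕ × ℕ × ℕ} (h : IsABCTriple s.1 s.2.1 s.2.2) (j : Fin 3) : num s j ≤ s.2.2 := by
  obtain ⟨ha, hb, hc, habc, -⟩ := h
  unfold num
  split_ifs <;> omega

lemma num_coprime {s : ℕ × ℕ × ℕ} (h : IsABCTriple s.1 s.2.1 s.2.2) {i j : Fin 3} (hij : i ≠ j) :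
    Nat.Coprime (num s i) (num s j) := by
  obtain ⟨ha, hb, hc, habc, h1, h2, h3⟩ := h
  fin_cases i <;> fin_cases j <;> simp [num] at hij ⊢ <;>
    first | assumption | (apply Nat.Coprime.symm; assumption)

/-- the sign -/
def sg (f : ℕ) (r : Fin 3) : ZMod f := if r = 2 then -1 else 1

lemma sg_unit (f : ℕ) (r : Fin 3) : IsUnit (sg f r) := by
  unfold sg
  split_ifs
  · exact isUnit_one.neg
  · exact isUnit_one

lemma num_congr {s : ℕ × ℕ × ℕ} (h : IsABCTriple s.1 s.2.1 s.2.2) {p q r : Fin 3} (hpq : p ≠ q)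
    (hqr : q ≠ r) (hpr : p ≠ r) {f : ℕ} (hf : f ∣ num s r) :
    (num s p : ZMod f) = sg f r * (num s q : ZMod f) := by
  obtain ⟨ha, hb, hc, habc, -⟩ := h
  have h0 : (num s r : ZMod f) = 0 := (ZMod.natCast_eq_zero_iff _ _).2 hf
  have h1 : (s.1 : ZMod f) + (s.2.1 : ZMod f) = (s.2.2 : ZMod f) := by
    rw [← habc]; push_cast; ring
  fin_cases r
  · have h0' : (s.1 : ZMod f) = 0 := by simpa [num] using h0
    have h2 : (s.2.1 : ZMod f) = (s.2.2 : ZMod f) := by rw [← h1, h0']; ring
    fin_cases p <;> fin_cases q <;> simp [num, sg] at hpq hqr hpr ⊢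
    · exact h2
    · exact h2.symm
  · have h0' : (s.2.1 : ZMod f) = 0 := by simpa [num] using h0
    have h2 : (s.1 : ZMod f) = (s.2.2 : ZMod f) := by rw [← h1, h0']; ring
    fin_cases p <;> fin_cases q <;> simp [num, sg] at hpq hqr hpr ⊢
    · exact h2
    · exact h2.symm
  · have h0' : (s.2.2 : ZMod f) = 0 := by simpa [num] using h0
    have h2 : (s.1 : ZMod f) = -(s.2.1 : ZMod f) := by
      rw [h0'] at h1
      exact eq_neg_of_add_eq_zero_left h1
    fin_cases p <;> fin_cases q <;> simp [num, sg] at hpq hqr hpr ⊢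
    · exact h2
    · rw [h2]; ring

lemma num_inj {s t : ℕ × ℕ × ℕ} (hs : IsABCTriple s.1 s.2.1 s.2.2)
    (ht : IsABCTriple t.1 t.2.1 t.2.2) {p q : Fin 3} (hpq : p ≠ q)
    (h1 : num s p = num t p) (h2 : num s q = num t q) : s = t := by
  obtain ⟨-, -, -, hs, -⟩ := hs
  obtain ⟨-, -, -, ht, -⟩ := ht
  obtain ⟨a, b, c⟩ := s
  obtain ⟨a', b', c'⟩ := t
  simp only at hs ht
  have key : a = a' ∧ b = b' ∧ c = c' := by
    fin_cases p <;> fin_cases q <;> simp [num] at hpq h1 h2 <;> omega
  obtain ⟨rfl, rfl, rfl⟩ := key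
  rfl

end McellAux

open McellAux

theorem stmtMcell_of (hF : Basics) (hA4 : StmtA4) (hM : StmtM1) : StmtMcell := by
  intro K ε hε
  set kap : ℕ := 2 ^ (K + 1) with hkap
  have hkap1 : 1 ≤ kap := Nat.one_le_two_pow
  have hkapR : (1 : ℝ) ≤ (kap : ℝ) := by exact_mod_cast hkap1
  obtain ⟨DA, hDA, hA⟩ := hA4 (ε / 2) (half_pos hε)
  obtain ⟨DM, hDM, hM1⟩ := hM K (ε / 2) (half_pos hε) ((kap : ℝ) ^ 2) (one_le_pow₀ hkapR)
  refine ⟨DA * DM * (2 * (kap : ℝ) ^ 10) * (kap : ℝ) ^ ε, by positivity, ?_⟩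
  intro T hT s hs p q r hpq hqr hpr k hk hkK Sp Sq F hSp hSq
  -- basic facts about the members
  have habc := hT.abc
  have hs' := habc s hs
  set c : ℕ := s.2.2 with hc
  have hc1 : 1 ≤ c := hs'.2.2.1
  set X : ℕ := kap * c with hX
  have hX1 : 1 ≤ X := Nat.mul_pos hkap1 hc1
  have hnum2 : ∀ t : ℕ × ℕ × ℕ, num t 2 = t.2.2 := fun t => by simp [num]
  have hnum0 : ∀ t : ℕ × ℕ × ℕ, num t 0 = t.1 := fun t => by simp [num]
  have hnum1 : ∀ t : ℕ × ℕ × ℕ, num t 1 = t.2.1 := fun t => by simp [num]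
  -- comparison of the members
  have hcmp : ∀ t ∈ T, ∀ t' ∈ T, ∀ j, num t j ≤ kap * num t' j := by
    intro t ht t' ht' j
    have h := hT.part_le t ht t' ht' j univ
    rw [hF.part_univ K _ (num_pos (habc t ht) j), hF.part_univ K _ (num_pos (habc t' ht') j)] at h
    exact h
  have hleX : ∀ t ∈ T, ∀ j, num t j ≤ X := by
    intro t ht j
    have h1 := num_le (habc t ht) j
    have h2 := hcmp t ht s hs 2
    rw [hnum2, hnum2] at h2
    exact h1.trans h2
  -- the real quantities
  set RF : ℝ := (kap : ℝ) * rd K (num s r) F with hRF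
  set R : ℝ := (kap : ℝ) * rd K (num s p) Spᶜ with hR
  set R' : ℝ := (kap : ℝ) * rd K (num s q) Sqᶜ with hR'
  set A : ℝ := (kap : ℝ) * part K (num s p) Sp with hAdef
  set A' : ℝ := (kap : ℝ) * part K (num s q) Sq with hA'def
  have hpartpos : ∀ n S, (0 : ℝ) < part K n S := by
    intro n S
    have := hF.part_pos K n S
    exact_mod_cast this
  have hrdpos : ∀ n S, (0 : ℝ) < rd K n S := by
    intro n S
    have := hF.rd_pos K n S
    exact_mod_cast this
  have hthpos : 0 ≤ th s r := by
    unfold th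
    split_ifs
    · positivity
    · norm_num
  -- thinness and ratio
  obtain ⟨ρ, δ, hρ, hδ, hδth, hratio⟩ : ∃ ρ δ : ℝ, 0 < ρ ∧ 0 ≤ δ ∧ δ ≤ 2 * (kap : ℝ) ^ 4 * th s r ∧
      ∀ t ∈ T, ρ * (num t q : ℝ) ≤ num t p ∧ (num t p : ℝ) ≤ ρ * (1 + δ) * num t q := by
    by_cases hr : r = 0
    · -- thin case
      have hth : th s r = (s.1 : ℝ) / c := by simp [th, hr, hc]
      have hcR : (0 : ℝ) < c := by exact_mod_cast hc1
      have h4 : (kap : ℝ) ^ 2 ≤ (kap : ℝ) ^ 4 := pow_le_pow_right₀ hkapR (by norm_num)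
      set δ : ℝ := 2 * (kap : ℝ) ^ 2 * th s r with hδ
      have hδ0 : 0 ≤ δ := by positivity
      have hbc : ∀ t ∈ T, (t.2.2 : ℝ) ≤ (1 + δ) * t.2.1 := by
        intro t ht
        obtain ⟨hta, htb, htc, htabc, -⟩ := habc t ht
        have h1 : t.1 ≤ t.2.1 := hT.le t ht
        have h2 : t.1 ≤ kap * s.1 := by
          have := hcmp t ht s hs 0
          rwa [hnum0, hnum0] at this
        have h3 : c ≤ kap * t.2.2 := by
          have := hcmp s hs t ht 2
          rwa [hnum2, hnum2] at this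
        have h1' : (t.1 : ℝ) ≤ t.2.1 := by exact_mod_cast h1
        have h2' : (t.1 : ℝ) ≤ kap * s.1 := by exact_mod_cast h2
        have h3' : (c : ℝ) ≤ kap * t.2.2 := by exact_mod_cast h3
        have habc' : (t.1 : ℝ) + t.2.1 = t.2.2 := by exact_mod_cast htabc
        have h5 : (c : ℝ) ≤ 2 * kap * t.2.1 := by nlinarith
        have h6 : (t.1 : ℝ) ≤ δ * t.2.1 := by
          rw [hδ, hth]
          have : 2 * (kap : ℝ) ^ 2 * ((s.1 : ℝ) / c) * t.2.1 =
              (kap * s.1) * ((2 * kap * t.2.1) / c) := by ring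
          rw [this]
          have h7 : (1 : ℝ) ≤ (2 * kap * t.2.1) / c := by
            rw [le_div_iff₀ hcR]; linarith
          calc (t.1 : ℝ) ≤ kap * s.1 := h2'
            _ = (kap * s.1) * 1 := by ring
            _ ≤ _ := by
              apply mul_le_mul_of_nonneg_left h7
              positivity
        linarith
      have hbc2 : ∀ t ∈ T, (t.2.1 : ℝ) ≤ t.2.2 := by
        intro t ht
        obtain ⟨hta, htb, htc, htabc, -⟩ := habc t ht
        have : t.2.1 ≤ t.2.2 := by omega
        exact_mod_cast this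
      have hδle : δ ≤ 2 * (kap : ℝ) ^ 4 * th s r := by
        rw [hδ]; nlinarith
      have hcases : (p = 1 ∧ q = 2) ∨ (p = 2 ∧ q = 1) := by
        subst hr
        fin_cases p <;> fin_cases q <;> simp at hpq hqr hpr ⊢
      rcases hcases with ⟨rfl, rfl⟩ | ⟨rfl, rfl⟩
      · refine ⟨1 / (1 + δ), δ, by positivity, hδ0, hδle, ?_⟩
        intro t ht
        rw [hnum1, hnum2]
        constructor
        · rw [one_div, inv_mul_le_iff₀ (by positivity)]
          exact hbc t ht
        · rw [one_div, inv_mul_cancel₀ (by positivity), one_mul]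
          exact hbc2 t ht
      · refine ⟨1, δ, one_pos, hδ0, hδle, ?_⟩
        intro t ht
        rw [hnum1, hnum2]
        constructor
        · rw [one_mul]; exact hbc2 t ht
        · rw [one_mul]; exact hbc t ht
    · have hth : th s r = 1 := by simp [th, hr]
      have hp0 : (0 : ℝ) < num s p := by exact_mod_cast num_pos hs' p
      have hq0 : (0 : ℝ) < num s q := by exact_mod_cast num_pos hs' q
      refine ⟨((num s p : ℝ) / num s q) / (kap : ℝ) ^ 2, (kap : ℝ) ^ 4 - 1, by positivity, ?_, ?_, ?_⟩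
      · have := one_le_pow₀ hkapR (n := 4)
        linarith
      · rw [hth]
        have : (0 : ℝ) ≤ (kap : ℝ) ^ 4 := by positivity
        linarith
      · intro t ht
        have h1 : (num t p : ℝ) ≤ kap * num s p := by exact_mod_cast hcmp t ht s hs p
        have h2 : (num s p : ℝ) ≤ kap * num t p := by exact_mod_cast hcmp s hs t ht p
        have h3 : (num t q : ℝ) ≤ kap * num s q := by exact_mod_cast hcmp t ht s hs q
        have h4 : (num s q : ℝ) ≤ kap * num t q := by exact_mod_cast hcmp s hs t ht q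
        have hk0 : (0 : ℝ) < kap := by linarith
        constructor
        · have e : (num s p : ℝ) / num s q / (kap : ℝ) ^ 2 * num t q =
            ((num s p : ℝ) / kap) * ((num t q : ℝ) / (kap * num s q)) := by
            field_simp
          rw [e]
          have h5 : (num s p : ℝ) / kap ≤ num t p := by
            rw [div_le_iff₀ hk0]; linarith
          have h6 : (num t q : ℝ) / (kap * num s q) ≤ 1 := by
            rw [div_le_one (by positivity)]; exact h3
          calc (num s p : ℝ) / kap * ((num t q : ℝ) / (kap * num s q)) ≤ num s p / kap * 1 :=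
                mul_le_mul_of_nonneg_left h6 (by positivity)
            _ = num s p / kap := by ring
            _ ≤ _ := h5
        · have e : (num s p : ℝ) / num s q / (kap : ℝ) ^ 2 * (1 + ((kap : ℝ) ^ 4 - 1)) * num t q =
            (kap * num s p) * ((kap * num t q) / (num s q)) := by
            field_simp
            ring
          rw [e]
          have h6 : (1 : ℝ) ≤ (kap * num t q) / (num s q) := by
            rw [le_div_iff₀ hq0]; linarith
          calc (num t p : ℝ) ≤ kap * num s p := h1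
            _ = (kap * num s p) * 1 := by ring
            _ ≤ _ := mul_le_mul_of_nonneg_left h6 (by positivity)
  -- the set of moduli
  set G : Finset ℕ := T.image (fun t => part K (num t r) F) with hG
  have hGsub : G ⊆ (Icc 1 X).filter fun d => (rad d : ℝ) ≤ RF := by
    intro f hf
    rw [hG, mem_image] at hf
    obtain ⟨t, ht, rfl⟩ := hf
    rw [mem_filter, mem_Icc]
    have hpos := num_pos (habc t ht) r
    refine ⟨⟨hF.part_pos K _ _, ?_⟩, ?_⟩
    · exact (Nat.le_of_dvd hpos (hF.part_dvd K _ _ hpos)).trans (hleX t ht r)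
    · rw [hF.rad_part K _ _ hpos, hRF]
      exact_mod_cast hT.rd_le t ht s hs r F
  have hRF0 : 0 ≤ RF := by positivity
  have hGcard : (G.card : ℝ) ≤ DA * (X : ℝ) ^ (ε / 2) * RF := by
    refine le_trans ?_ (hA X hX1 RF hRF0)
    exact_mod_cast card_le_card hGsub
  -- the fibres
  set B : ℝ := DM * (X : ℝ) ^ (ε / 2) * (R * R') * (2 * (kap : ℝ) ^ 7 *
    (1 + th s r * ((part K (num s p) Sp : ℝ) * part K (num s q) Sq) ^ ((1 : ℝ) / k) /
        part K (num s r) F)) with hB
  have hfib : ∀ f ∈ G, ((T.filter fun t => part K (num t r) F = f).card : ℝ) ≤ B := by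
    intro f hf
    have hf2 := hGsub hf
    rw [mem_filter, mem_Icc] at hf2
    obtain ⟨⟨hf1, hfX⟩, -⟩ := hf2
    set P : Finset (ℕ × ℕ) := (T.filter fun t => part K (num t r) F = f).image
      (fun t => (num t p, num t q)) with hP
    have hPcard : P.card = (T.filter fun t => part K (num t r) F = f).card := by
      apply card_image_of_injOn
      intro t ht t' ht' h
      rw [mem_coe, mem_filter] at ht ht'
      simp only [Prod.mk.injEq] at h
      exact num_inj (habc t ht.1) (habc t' ht'.1) hpq h.1 h.2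
    rw [← hPcard]
    have hApos : 0 < A := by have := hpartpos (num s p) Sp; positivity
    have hA'pos : 0 < A' := by have := hpartpos (num s q) Sq; positivity
    have hmain := hM1 k hk hkK X f hX1 hf1 hfX (sg f r) (sg_unit f r) Sp Sq hSp hSq A A' R R' ρ δ
      hApos hA'pos (by positivity) (by positivity) hρ hδ P ?_
    · refine hmain.trans ?_
      rw [hB]
      apply mul_le_mul_of_nonneg_left _ (by positivity)
      -- comparison of the last factor
      have hkR : (1 : ℝ) ≤ k := by exact_mod_cast hk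
      have hk1 : (1 : ℝ) / k ≤ 1 := by
        rw [div_le_one (by linarith)]; exact hkR
      have hk0 : (0 : ℝ) ≤ (1 : ℝ) / k := by positivity
      set PP : ℝ := (part K (num s p) Sp : ℝ) * part K (num s q) Sq with hPP
      have hPP0 : 0 < PP := mul_pos (hpartpos _ _) (hpartpos _ _)
      have hAA : A * A' = (kap : ℝ) ^ 2 * PP := by rw [hAdef, hA'def, hPP]; ring
      have hAA2 : (A * A') ^ ((1 : ℝ) / k) ≤ (kap : ℝ) ^ 2 * PP ^ ((1 : ℝ) / k) := by
        rw [hAA, Real.mul_rpow (by positivity) hPP0.le]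
        apply mul_le_mul_of_nonneg_right _ (by positivity)
        calc ((kap : ℝ) ^ 2) ^ ((1 : ℝ) / k) ≤ ((kap : ℝ) ^ 2) ^ (1 : ℝ) :=
              Real.rpow_le_rpow_of_exponent_le (one_le_pow₀ hkapR) hk1
          _ = _ := Real.rpow_one _
      obtain ⟨t, ht, htf⟩ : ∃ t ∈ T, part K (num t r) F = f := by
        rw [hG, mem_image] at hf
        exact hf
      have hfge : (part K (num s r) F : ℝ) ≤ kap * f := by
        rw [← htf]
        exact_mod_cast hT.part_le s hs t ht r F
      have hfpos : (0 : ℝ) < f := by exact_mod_cast hf1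
      have hFpos := hpartpos (num s r) F
      have hPk : 0 < PP ^ ((1 : ℝ) / k) := Real.rpow_pos_of_pos hPP0 _
      have hinv : (1 : ℝ) / f ≤ kap / part K (num s r) F := by
        rw [div_le_div_iff₀ hfpos hFpos]; linarith
      have hk7 : (1 : ℝ) ≤ (kap : ℝ) ^ 7 := one_le_pow₀ hkapR
      have e1 : δ * (A * A') ^ ((1 : ℝ) / k) / f ≤ (2 * (kap : ℝ) ^ 4 * th s r) *
          ((kap : ℝ) ^ 2 * PP ^ ((1 : ℝ) / k)) * (kap / part K (num s r) F) := by
        calc δ * (A * A') ^ ((1 : ℝ) / k) / f = δ * (A * A') ^ ((1 : ℝ) / k) * (1 / f) := by ring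
          _ ≤ _ := by
            apply mul_le_mul _ hinv (by positivity) (by positivity)
            apply mul_le_mul hδth hAA2 (by positivity) (by positivity)
      have e2 : (2 * (kap : ℝ) ^ 4 * th s r) *
          ((kap : ℝ) ^ 2 * PP ^ ((1 : ℝ) / k)) * (kap / part K (num s r) F) =
          2 * (kap : ℝ) ^ 7 * (th s r * PP ^ ((1 : ℝ) / k) / part K (num s r) F) := by
        field_simp
      rw [e2] at e1
      calc 1 + δ * (A * A') ^ ((1 : ℝ) / k) / f ≤
          2 * (kap : ℝ) ^ 7 + 2 * (kap : ℝ) ^ 7 * (th s r * PP ^ ((1 : ℝ) / k) /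
            part K (num s r) F) := by linarith
        _ = _ := by ring
    · intro x hx
      rw [hP, mem_image] at hx
      obtain ⟨t, ht, rfl⟩ := hx
      rw [mem_filter] at ht
      obtain ⟨ht, htf⟩ := ht
      have ht' := habc t ht
      have hfd : f ∣ num t r := by
        rw [← htf]; exact hF.part_dvd K _ _ (num_pos ht' r)
      refine ⟨num_pos ht' p, hleX t ht p, num_pos ht' q, hleX t ht q, num_coprime ht' hpq,
        Nat.Coprime.coprime_dvd_right hfd (num_coprime ht' hpr),
        Nat.Coprime.coprime_dvd_right hfd (num_coprime ht' hqr),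
        num_congr ht' hpq hqr hpr hfd, ?_, ?_, ?_, ?_, ?_, (hratio t ht).1, (hratio t ht).2⟩
      · have h1 := hT.part_le t ht s hs p Sp
        rw [← hkap] at h1
        show (part K (num t p) Sp : ℝ) ≤ (kap : ℝ) * part K (num s p) Sp
        exact_mod_cast h1
      · have h1 := hT.part_le t ht s hs q Sq
        rw [← hkap] at h1
        show (part K (num t q) Sq : ℝ) ≤ (kap : ℝ) * part K (num s q) Sq
        exact_mod_cast h1
      · have h1 : (part K (num s q) Sq : ℝ) ≤ kap * part K (num t q) Sq := by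
          exact_mod_cast hT.part_le s hs t ht q Sq
        calc A' = (kap : ℝ) * part K (num s q) Sq := rfl
          _ ≤ kap * (kap * part K (num t q) Sq) := by
            apply mul_le_mul_of_nonneg_left h1 (by positivity)
          _ = _ := by ring
      · have h1 := hT.rd_le t ht s hs p Spᶜ
        rw [← hkap] at h1
        show (rd K (num t p) Spᶜ : ℝ) ≤ (kap : ℝ) * rd K (num s p) Spᶜ
        exact_mod_cast h1
      · have h1 := hT.rd_le t ht s hs q Sqᶜ
        rw [← hkap] at h1
        show (rd K (num t q) Sqᶜ : ℝ) ≤ (kap : ℝ) * rd K (num s q) Sqᶜ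
        exact_mod_cast h1
  -- conclusion
  have hTcard : (T.card : ℝ) ≤ G.card * B := by
    have h1 : T.card = ∑ f ∈ G, (T.filter fun t => part K (num t r) F = f).card :=
      card_eq_sum_card_image _ _
    rw [h1]
    push_cast
    calc ∑ f ∈ G, ((T.filter fun t => part K (num t r) F = f).card : ℝ) ≤ ∑ _f ∈ G, B :=
          sum_le_sum hfib
      _ = _ := by rw [sum_const, nsmul_eq_mul]
  have hBnn : 0 ≤ B := by positivity
  have hXpow : (X : ℝ) ^ (ε / 2) * (X : ℝ) ^ (ε / 2) = (kap : ℝ) ^ ε * (c : ℝ) ^ ε := by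
    have hX0 : (0 : ℝ) < X := by exact_mod_cast hX1
    rw [← Real.rpow_add hX0, add_halves, hX]
    push_cast
    rw [Real.mul_rpow (by positivity) (by positivity)]
  calc (T.card : ℝ) ≤ G.card * B := hTcard
    _ ≤ (DA * (X : ℝ) ^ (ε / 2) * RF) * B := mul_le_mul_of_nonneg_right hGcard hBnn
    _ = DA * DM * (2 * (kap : ℝ) ^ 7) * ((X : ℝ) ^ (ε / 2) * (X : ℝ) ^ (ε / 2)) * (RF * (R * R')) *
        (1 + th s r * ((part K (num s p) Sp : ℝ) * part K (num s q) Sq) ^ ((1 : ℝ) / k) /
        part K (num s r) F) := by rw [hB]; ring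
    _ = _ := by rw [hXpow, hRF, hR, hR']; ring

end Pool.Agent.H785R2.ABC
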