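import Pool.Agent.H785R2.ABC.Defs

/-!
# Module C: the spacing lemma (helper619)
-/

namespace Pool.Agent.H785R2.ABC

open Finset

/-- separated points in an interval -/
theorem sepC {α : Type*} (T : Finset α) (r : α → ℝ) (a L g : ℝ) (hg : 0 < g)
    (h1 : ∀ t ∈ T, a ≤ r t ∧ r t ≤ a + L) (h2 : ∀ t ∈ T, ∀ t' ∈ T, t ≠ t' → g ≤ |r t - r t'|) :
    (T.card : ℝ) ≤ 1 + L / g ∨ T = ∅ := by
  classical
  rcases T.eq_empty_or_nonempty with h | ⟨t0, ht0⟩
  · exact Or.inr h
  · left
    have hL : 0 ≤ L := by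
      have := h1 t0 ht0
      linarith
    have hinj : Set.InjOn (fun t => ⌊(r t - a) / g⌋₊) (T : Set α) := by
      intro t ht t' ht' heq
      by_contra hne
      have ht1 := h1 t ht
      have ht2 := h1 t' ht'
      have h3 := h2 t ht t' ht' hne
      simp only at heq
      have hx0 : 0 ≤ (r t - a) / g := div_nonneg (by linarith) hg.le
      have hy0 : 0 ≤ (r t' - a) / g := div_nonneg (by linarith) hg.le
      have hx := Nat.floor_le hx0
      have hy := Nat.floor_le hy0
      have hx' := Nat.lt_floor_add_one ((r t - a) / g)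
      have hy' := Nat.lt_floor_add_one ((r t' - a) / g)
      rw [heq] at hx hx'
      have h4 : |(r t - a) / g - (r t' - a) / g| < 1 := by
        rw [abs_lt]
        constructor <;> linarith
      rw [← sub_div, abs_div, abs_of_pos hg, div_lt_one hg] at h4
      have h5 : r t - a - (r t' - a) = r t - r t' := by ring
      rw [h5] at h4
      linarith
    have hsub : T.image (fun t => ⌊(r t - a) / g⌋₊) ⊆ range (⌊L / g⌋₊ + 1) := by
      intro n hn
      rw [Finset.mem_image] at hn
      obtain ⟨t, ht, rfl⟩ := hn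
      rw [Finset.mem_range, Nat.lt_succ_iff]
      refine Nat.floor_le_floor (div_le_div_of_nonneg_right ?_ hg.le)
      have := h1 t ht
      linarith
    have hc := Finset.card_le_card hsub
    rw [Finset.card_image_of_injOn hinj, Finset.card_range] at hc
    have hc' : (T.card : ℝ) ≤ (⌊L / g⌋₊ : ℝ) + 1 := by exact_mod_cast hc
    have h6 := Nat.floor_le (div_nonneg hL hg.le)
    linarith

theorem stmtC : StmtC := by
  intro q hq ρ T Y ξ δ hY hξ hδ hT
  have hqR : (0 : ℝ) < q := by exact_mod_cast hq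
  rcases T.eq_empty_or_nonempty with h | ⟨t0, ht0⟩
  · rw [h]
    simp only [Finset.card_empty, Nat.cast_zero]
    positivity
  · have hYpos : 0 < Y := by
      obtain ⟨-, h2, -, -, h5, -⟩ := hT t0 ht0
      have : (0 : ℝ) < t0.2 := by exact_mod_cast h2
      linarith
    have hg : 0 < (q : ℝ) / Y ^ 2 := by positivity
    have key := sepC T (fun t => (t.1 : ℝ) / t.2) ξ (ξ * δ) ((q : ℝ) / Y ^ 2) hg ?_ ?_
    · rcases key with key | key
      · have h1 : ξ * δ / ((q : ℝ) / Y ^ 2) = ξ * δ * Y ^ 2 / q := by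
          field_simp
        rw [h1] at key
        exact key
      · rw [key] at ht0
        exact absurd ht0 (Finset.notMem_empty _)
    · intro t ht
      obtain ⟨-, h2, -, -, -, h6, h7⟩ := hT t ht
      have h2' : (0 : ℝ) < t.2 := by exact_mod_cast h2
      constructor
      · rw [le_div_iff₀ h2']
        exact h6
      · rw [div_le_iff₀ h2']
        calc (t.1 : ℝ) ≤ ξ * (1 + δ) * t.2 := h7
          _ = (ξ + ξ * δ) * t.2 := by ring
    · intro t ht t' ht' hne
      obtain ⟨a1, a2, a3, a4, a5, -, -⟩ := hT t ht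
      obtain ⟨b1, b2, b3, b4, b5, -, -⟩ := hT t' ht'
      have a2' : (0 : ℝ) < t.2 := by exact_mod_cast a2
      have b2' : (0 : ℝ) < t'.2 := by exact_mod_cast b2
      set N : ℤ := (t.1 : ℤ) * t'.2 - t'.1 * t.2 with hN
      have hN0 : N ≠ 0 := by
        intro h0
        have h1 : t.1 * t'.2 = t'.1 * t.2 := by
          have : (t.1 : ℤ) * t'.2 = t'.1 * t.2 := by
            rw [hN] at h0
            linarith
          exact_mod_cast this
        have d1 : t.1 ∣ t'.1 := a3.dvd_of_dvd_mul_right ⟨t'.2, h1.symm⟩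
        have d2 : t'.1 ∣ t.1 := b3.dvd_of_dvd_mul_right ⟨t.2, h1⟩
        have e1 : t.1 = t'.1 := Nat.dvd_antisymm d1 d2
        have e2 : t.2 = t'.2 := by
          rw [e1] at h1
          exact (Nat.eq_of_mul_eq_mul_left b1 h1).symm
        exact hne (Prod.ext e1 e2)
      have hdvd : (q : ℤ) ∣ N := by
        rw [← ZMod.intCast_zmod_eq_zero_iff_dvd, hN]
        push_cast
        rw [a4, b4]
        ring
      have hNq : (q : ℝ) ≤ |(N : ℝ)| := by
        have h1 := Int.le_of_dvd (abs_pos.2 hN0) ((dvd_abs _ _).2 hdvd)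
        have h2 : ((q : ℤ) : ℝ) ≤ ((|N| : ℤ) : ℝ) := by exact_mod_cast h1
        simpa using h2
      have hdiff : (t.1 : ℝ) / t.2 - (t'.1 : ℝ) / t'.2 = (N : ℝ) / (t.2 * t'.2) := by
        rw [hN]
        push_cast
        field_simp
      rw [hdiff, abs_div, abs_of_pos (mul_pos a2' b2')]
      have h3 : (t.2 : ℝ) * t'.2 ≤ Y ^ 2 := by
        rw [sq]
        exact mul_le_mul a5 b5 b2'.le hY
      calc (q : ℝ) / Y ^ 2 ≤ |(N : ℝ)| / Y ^ 2 := div_le_div_of_nonneg_right hNq (by positivity)
        _ ≤ |(N : ℝ)| / (t.2 * t'.2) :=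
          div_le_div_of_nonneg_left (abs_nonneg _) (mul_pos a2' b2') h3

end Pool.Agent.H785R2.ABC
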